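import Pool.Agent.H36.PX.Bim
import Pool.Agent.H94.NC.GDefs

/-!
# AAz : the `ℤ`-graded dg algebra of the example

Degree 0 = the two chart components, degree 1 = the overlap component.
-/

set_option autoImplicit false

open NC

namespace H36.PX

open H36.NX
variable {pp : ℕ} {k : Type} [Field k] {t : k} {R : Type} [CommRing R] [Algebra k R]

/-- the grading -/
noncomputable def agr (C : PRing pp k t R) (i : ℤ) : Submodule k (AA C).V :=
  if i = 0 then LinearMap.ker ((AA C).P - LinearMap.id)
  else if i = 1 then LinearMap.ker (AA C).P else ⊥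

theorem mem_agr_zero (C : PRing pp k t R) (a : (AA C).V) : a ∈ agr C 0 ↔ (AA C).P a = a := by
  unfold agr
  rw [if_pos rfl, LinearMap.mem_ker, LinearMap.sub_apply, LinearMap.id_apply, sub_eq_zero]

theorem mem_agr_one (C : PRing pp k t R) (a : (AA C).V) : a ∈ agr C 1 ↔ (AA C).P a = 0 := by
  unfold agr
  rw [if_neg one_ne_zero, if_pos rfl, LinearMap.mem_ker]

theorem mem_agr_zero_iff (C : PRing pp k t R) (a : (AA C).V) :
    a ∈ agr C 0 ↔ av C a Pc.R = 0 := by
  rw [mem_agr_zero]
  constructor
  · intro h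
    rw [← h, av_P, cP_R]
  · intro h
    refine a_ext C ?_
    rw [av_P]
    funext s
    cases s
    · rw [cP_X]
    · rw [cP_Y]
    · rw [cP_R, h]

theorem mem_agr_one_iff (C : PRing pp k t R) (a : (AA C).V) :
    a ∈ agr C 1 ↔ av C a Pc.X = 0 ∧ av C a Pc.Y = 0 := by
  rw [mem_agr_one]
  constructor
  · intro h
    have h1 : cP k _ (av C a) = 0 := by rw [← av_P, h, map_zero]
    exact ⟨by rw [← cP_X (k := k) (f := av C a), h1]; rfl,
      by rw [← cP_Y (k := k) (f := av C a), h1]; rfl⟩
  · rintro ⟨h1, h2⟩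
    refine a_ext C ?_
    rw [av_P, map_zero]
    funext s
    cases s
    · rw [cP_X, h1]; rfl
    · rw [cP_Y, h2]; rfl
    · rw [cP_R]; rfl

theorem agr_other (C : PRing pp k t R) {i : ℤ} (h0 : i ≠ 0) (h1 : i ≠ 1) : agr C i = ⊥ := by
  unfold agr
  rw [if_neg h0, if_neg h1]

/-- the projection on the component of degree `i` -/
noncomputable def api (C : PRing pp k t R) (i : ℤ) : (AA C).V →ₗ[k] (AA C).V :=
  if i = 0 then (AA C).P else if i = 1 then LinearMap.id - (AA C).P else 0

theorem api_mem (C : PRing pp k t R) (i j : ℤ) {a : (AA C).V} (h : a ∈ agr C j) :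
    api C i a = if j = i then a else 0 := by
  by_cases hj0 : j = 0
  · subst hj0
    rw [mem_agr_zero] at h
    unfold api
    by_cases hi0 : i = 0
    · rw [if_pos hi0, if_pos hi0.symm, h]
    · rw [if_neg hi0, if_neg (show ¬ (0 : ℤ) = i from fun e => hi0 e.symm)]
      by_cases hi1 : i = 1
      · rw [if_pos hi1, LinearMap.sub_apply, LinearMap.id_apply, h, sub_self]
      · rw [if_neg hi1]; rfl
  · by_cases hj1 : j = 1
    · subst hj1
      rw [mem_agr_one] at h
      unfold api
      by_cases hi0 : i = 0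
      · rw [if_pos hi0, if_neg (by omega), h]
      · rw [if_neg hi0]
        by_cases hi1 : i = 1
        · rw [if_pos hi1, if_pos hi1.symm, LinearMap.sub_apply, LinearMap.id_apply, h, sub_zero]
        · rw [if_neg hi1, if_neg (show ¬ (1 : ℤ) = i from fun e => hi1 e.symm)]; rfl
    · rw [agr_other C hj0 hj1, Submodule.mem_bot] at h
      subst h
      rw [map_zero, ite_self]

theorem agr_internal (C : PRing pp k t R) : DirectSum.IsInternal (agr C) := by
  have key : ∀ (x : DirectSum ℤ fun i => agr C i) (i : ℤ),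
      api C i (DirectSum.coeAddMonoidHom (agr C) x) = (x i : (AA C).V) := by
    intro x i
    induction x using DirectSum.induction_on with
    | zero => rw [map_zero, map_zero]; rfl
    | of j y =>
      rw [DirectSum.coeAddMonoidHom_of, api_mem C i j y.2]
      by_cases h : j = i
      · subst h
        rw [if_pos rfl, DirectSum.of_eq_same]
      · rw [if_neg h, DirectSum.of_eq_of_ne _ _ _ (fun e => h e.symm)]
        rfl
    | add x y hx hy =>
      rw [map_add, map_add, hx, hy]
      rfl
  constructor
  · intro x y h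
    refine DFinsupp.ext fun i => Subtype.ext ?_
    rw [← key x i, ← key y i, h]
  · intro v
    have h0 : (AA C).P v ∈ agr C 0 := (mem_agr_zero C _).2 ((AA C).PP v)
    have h1 : v - (AA C).P v ∈ agr C 1 := by
      rw [mem_agr_one, map_sub, (AA C).PP v, sub_self]
    refine ⟨DirectSum.of (fun i => agr C i) 0 ⟨_, h0⟩ + DirectSum.of (fun i => agr C i) 1 ⟨_, h1⟩,
      ?_⟩
    rw [map_add, DirectSum.coeAddMonoidHom_of, DirectSum.coeAddMonoidHom_of]
    exact add_sub_cancel _ _

theorem agr_cases (C : PRing pp k t R) {i : ℤ} {a : (AA C).V} (h : a ∈ agr C i) :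
    (i = 0 ∧ a ∈ agr C 0) ∨ (i = 1 ∧ a ∈ agr C 1) ∨ a = 0 := by
  by_cases h0 : i = 0
  · subst h0; exact Or.inl ⟨rfl, h⟩
  · by_cases h1 : i = 1
    · subst h1; exact Or.inr (Or.inl ⟨rfl, h⟩)
    · rw [agr_other C h0 h1, Submodule.mem_bot] at h
      exact Or.inr (Or.inr h)

/-- the `ℤ`-graded dg algebra of the example -/
noncomputable def AAz (C : PRing pp k t R) : ZDGA k where
  toDGA := AA C
  gr := agr C
  internal := agr_internal C
  P_gr := by
    intro i v hv
    rcases agr_cases C hv with ⟨rfl, h⟩ | ⟨rfl, h⟩ | rfl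
    · rw [if_pos Even.zero]
      exact (mem_agr_zero C v).1 h
    · rw [if_neg (by decide)]
      exact (mem_agr_one C v).1 h
    · rw [map_zero, ite_self]
  D_gr := by
    intro i v hv
    rcases agr_cases C hv with ⟨rfl, h⟩ | ⟨rfl, h⟩ | rfl
    · change (AA C).D v ∈ agr C 1
      rw [mem_agr_one_iff, av_D]
      exact ⟨rfl, rfl⟩
    · have h2 : (AA C).D v = 0 := by
        rw [mem_agr_one_iff] at h
        refine a_ext C ?_
        rw [av_D, map_zero]
        funext s
        cases s
        · rw [cD_X]; rfl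
        · rw [cD_Y]; rfl
        · rw [cD_R, h.1, h.2, sub_self]; rfl
      rw [h2]
      exact Submodule.zero_mem _
    · rw [map_zero]
      exact Submodule.zero_mem _
  mul_gr := by
    intro i j a ha b hb
    change a * b ∈ agr C (i + j)
    rcases agr_cases C ha with ⟨rfl, h⟩ | ⟨rfl, h⟩ | rfl
    · rcases agr_cases C hb with ⟨rfl, h'⟩ | ⟨rfl, h'⟩ | rfl
      · rw [add_zero]
        rw [mem_agr_zero_iff] at h h' ⊢
        rw [av_mul, cMul_R, h, h', map_zero, map_zero, LinearMap.zero_apply, add_zero]
      · rw [zero_add]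
        rw [mem_agr_zero_iff] at h
        rw [mem_agr_one_iff] at h' ⊢
        rw [av_mul, cMul_X, cMul_Y, h'.1, h'.2, map_zero, map_zero]
        exact ⟨rfl, rfl⟩
      · rw [mul_zero]
        exact Submodule.zero_mem _
    · rcases agr_cases C hb with ⟨rfl, h'⟩ | ⟨rfl, h'⟩ | rfl
      · rw [add_zero]
        rw [mem_agr_one_iff] at h ⊢
        rw [av_mul, cMul_X, cMul_Y, h.1, h.2, map_zero, LinearMap.zero_apply,
          LinearMap.zero_apply]
        exact ⟨rfl, rfl⟩
      · have h2 : a * b = 0 := by
          rw [mem_agr_one_iff] at h h'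
          refine a_ext C ?_
          rw [av_mul, map_zero]
          funext s
          cases s
          · rw [cMul_X, h.1, map_zero, LinearMap.zero_apply]; rfl
          · rw [cMul_Y, h.2, map_zero, LinearMap.zero_apply]; rfl
          · rw [cMul_R, h.1, h'.2, map_zero, map_zero, LinearMap.zero_apply, add_zero]; rfl
        rw [h2]
        exact Submodule.zero_mem _
      · rw [mul_zero]
        exact Submodule.zero_mem _
    · rw [zero_mul]
      exact Submodule.zero_mem _
  one_gr := by
    change (1 : (AA C).V) ∈ agr C 0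
    rw [mem_agr_zero_iff, av_one, cOne_R]

end H36.PX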