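import Pool.Agent.H36.PX.Mul

/-!
# Coh : the cohomology of `O(n)`: `B n = X ⊓ Y n` and `R / (X ⊔ Y n)`

`B n` has the basis `u^m w^a`, `0 ≤ m ≤ n - a`; the quotient has the basis `u^m w^a`, `n - a < m < 0`.
-/

set_option autoImplicit false

namespace H36.PX

open H36.NX
namespace PRing

variable {pp : ℕ} {k : Type} [Field k] {t : k} {R : Type} [CommRing R] [Algebra k R]

theorem Coh_B_eq (C : PRing pp k t R) (n : ℤ) :
    C.B n = Submodule.span k
      (C.bas '' {q : ℤ × Fin pp | 0 ≤ q.1 ∧ q.1 + ((q.2 : ℕ) : ℤ) ≤ n}) := by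
  ext r
  rw [Module.Basis.mem_span_image]
  unfold B
  rw [Submodule.mem_inf, Mul_X_eq, Mul_Y_eq, Module.Basis.mem_span_image,
    Module.Basis.mem_span_image]
  exact ⟨fun h q hq => ⟨h.1 hq, h.2 hq⟩, fun h => ⟨fun q hq => (h hq).1, fun q hq => (h hq).2⟩⟩

theorem Coh_bas_mem_B (C : PRing pp k t R) (n m : ℤ) (a : Fin pp) (h : 0 ≤ m)
    (h' : m + ((a : ℕ) : ℤ) ≤ n) : C.bas (m, a) ∈ C.B n :=
  Submodule.mem_inf.2 ⟨bas_mem_X C m a h, bas_mem_Y C n m a h'⟩

theorem Coh_top (C : PRing pp k t R) (P : Submodule k R) (h : ∀ m a, C.bas (m, a) ∈ P) :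
    P = ⊤ := by
  rw [eq_top_iff, ← C.bas.span_eq, Submodule.span_le]
  rintro _ ⟨⟨m, a⟩, rfl⟩
  exact h m a

theorem B_zero (C : PRing pp k t R) : C.B 0 = Submodule.span k {(1 : R)} := by
  have h1 : C.bas (0, C.ix 0 (by norm_num)) = 1 := by rw [Mul_bas0]; simp
  apply le_antisymm
  · rw [Coh_B_eq, Submodule.span_le]
    rintro _ ⟨⟨m, a⟩, ⟨hm, ha⟩, rfl⟩
    have hm' : 0 ≤ m := hm
    have ha' : m + ((a : ℕ) : ℤ) ≤ 0 := ha
    have h2 : m = 0 := by omega
    have h3 : a = C.ix 0 (by norm_num) := by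
      apply Fin.ext
      change (a : ℕ) = 0
      omega
    rw [h2, h3, h1]
    exact Submodule.mem_span_singleton_self 1
  · rw [Submodule.span_le, Set.singleton_subset_iff, SetLike.mem_coe, ← h1]
    exact Coh_bas_mem_B C 0 0 _ le_rfl (by simp)

theorem B_neg (C : PRing pp k t R) {n : ℤ} (h : n < 0) : C.B n = ⊥ := by
  rw [Coh_B_eq, Submodule.span_eq_bot]
  rintro _ ⟨⟨m, a⟩, ⟨hm, ha⟩, rfl⟩
  have hm' : 0 ≤ m := hm
  have ha' : m + ((a : ℕ) : ℤ) ≤ n := ha
  omega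

theorem Coh_fin (s : Set (ℤ × Fin pp)) (a b : ℤ) (h : ∀ q ∈ s, a ≤ q.1 ∧ q.1 ≤ b) : s.Finite :=
  (((Set.finite_Icc a b).prod (Set.finite_univ : (Set.univ : Set (Fin pp)).Finite))).subset
    fun q hq => ⟨⟨(h q hq).1, (h q hq).2⟩, Set.mem_univ _⟩

theorem finite_B (C : PRing pp k t R) (n : ℤ) : FiniteDimensional k (C.B n) := by
  rw [Coh_B_eq]
  refine FiniteDimensional.span_of_finite k (Set.Finite.image _ (Coh_fin _ 0 n ?_))
  rintro ⟨m, a⟩ ⟨hm, ha⟩
  have hm' : 0 ≤ m := hm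
  have ha' : m + ((a : ℕ) : ℤ) ≤ n := ha
  refine ⟨hm, ?_⟩
  change m ≤ n
  omega

/-- `u^m w^a` with `m + a ≤ n + 1`: of degree `≤ n`, or a multiple of `u` (`m ≥ 1`) or of `w` (`m = 0`) -/
theorem B_succ (C : PRing pp k t R) {n : ℤ} (h : 0 ≤ n) :
    C.B (n + 1) = C.B n ⊔ (C.B n).map (LinearMap.mulLeft k (C.u : R)) ⊔
      (C.B n).map (LinearMap.mulLeft k C.w) := by
  have hu1 : (C.u : R) ∈ C.Y 1 := by simpa using upow_mem_Y C (le_refl (1 : ℤ))
  apply le_antisymm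
  · rw [Coh_B_eq C (n + 1), Submodule.span_le]
    rintro _ ⟨⟨m, a⟩, ⟨hm, ha⟩, rfl⟩
    have hm' : 0 ≤ m := hm
    have ha' : m + ((a : ℕ) : ℤ) ≤ n + 1 := ha
    by_cases h1 : m + ((a : ℕ) : ℤ) ≤ n
    · exact Submodule.mem_sup_left (Submodule.mem_sup_left (Coh_bas_mem_B C n m a hm' h1))
    · by_cases h2 : 1 ≤ m
      · refine Submodule.mem_sup_left (Submodule.mem_sup_right ?_)
        refine ⟨C.bas (m - 1, a), Coh_bas_mem_B C n _ a (by omega) (by omega), ?_⟩
        rw [LinearMap.mulLeft_apply, C.bas_eq, C.bas_eq, ← mul_assoc]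
        congr 1
        have h3 := Mul_upow_add C (m - 1) 1
        rw [pow_one] at h3
        rw [mul_comm, ← h3]
        congr 3
        push_cast
        ring
      · refine Submodule.mem_sup_right ?_
        have h3 : m = 0 := by omega
        have h4 : 1 ≤ (a : ℕ) := by omega
        subst h3
        have h5 := a.isLt
        refine ⟨C.bas (0, ⟨(a : ℕ) - 1, by omega⟩), Coh_bas_mem_B C n _ _ le_rfl ?_, ?_⟩
        · change (0 : ℤ) + (((a : ℕ) - 1 : ℕ) : ℤ) ≤ n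
          omega
        · rw [LinearMap.mulLeft_apply, C.bas_eq, C.bas_eq]
          simp only [zpow_zero, Units.val_one, one_mul]
          rw [← pow_succ', Nat.sub_add_cancel h4]
  · refine sup_le (sup_le ?_ ?_) ?_
    · exact inf_le_inf le_rfl (Y_mono C (by omega))
    · rintro _ ⟨x, hx, rfl⟩
      have hx' := Submodule.mem_inf.1 hx
      rw [LinearMap.mulLeft_apply]
      refine Submodule.mem_inf.2 ⟨mul_mem_X C (u_mem_X C) hx'.1, ?_⟩
      have h1 := mul_mem_Y C hu1 hx'.2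
      rwa [add_comm 1 n] at h1
    · rintro _ ⟨x, hx, rfl⟩
      have hx' := Submodule.mem_inf.1 hx
      rw [LinearMap.mulLeft_apply]
      refine Submodule.mem_inf.2 ⟨mul_mem_X C (w_mem_X C) hx'.1, ?_⟩
      have h1 := mul_mem_Y C (w_mem_Y C (le_refl 1)) hx'.2
      rwa [add_comm 1 n] at h1

theorem X_sup_Y_pos (C : PRing pp k t R) {n : ℤ} (h : (pp : ℤ) - 2 ≤ n) : C.X ⊔ C.Y n = ⊤ := by
  refine Coh_top C _ fun m a => ?_
  have h1 := a.isLt
  by_cases h2 : 0 ≤ m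
  · exact Submodule.mem_sup_left (bas_mem_X C m a h2)
  · exact Submodule.mem_sup_right (bas_mem_Y C n m a (by omega))

theorem finite_quot (C : PRing pp k t R) (n : ℤ) : FiniteDimensional k (R ⧸ (C.X ⊔ C.Y n)) := by
  set s : Set (ℤ × Fin pp) := {q | q.1 < 0 ∧ n < q.1 + ((q.2 : ℕ) : ℤ)} with hs
  have hfin : s.Finite := by
    refine Coh_fin _ (n - pp) 0 ?_
    rintro ⟨m, a⟩ ⟨hm, ha⟩
    have hm' : m < 0 := hm
    have ha' : n < m + ((a : ℕ) : ℤ) := ha
    have h1 := a.isLt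
    refine ⟨?_, hm'.le⟩
    change n - pp ≤ m
    omega
  have hW : FiniteDimensional k (Submodule.span k (C.bas '' s)) :=
    FiniteDimensional.span_of_finite k (hfin.image _)
  have htop : (C.X ⊔ C.Y n) ⊔ Submodule.span k (C.bas '' s) = ⊤ := by
    refine Coh_top C _ fun m a => ?_
    by_cases h2 : 0 ≤ m
    · exact Submodule.mem_sup_left (Submodule.mem_sup_left (bas_mem_X C m a h2))
    · by_cases h3 : m + ((a : ℕ) : ℤ) ≤ n
      · exact Submodule.mem_sup_left (Submodule.mem_sup_right (bas_mem_Y C n m a h3))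
      · exact Submodule.mem_sup_right (Submodule.subset_span ⟨(m, a),
          ⟨not_le.1 h2, not_le.1 h3⟩, rfl⟩)
  refine Module.Finite.of_surjective
    ((C.X ⊔ C.Y n).mkQ.comp (Submodule.span k (C.bas '' s)).subtype) ?_
  intro y
  obtain ⟨x, rfl⟩ := Submodule.mkQ_surjective _ y
  have hx : x ∈ (C.X ⊔ C.Y n) ⊔ Submodule.span k (C.bas '' s) := by
    rw [htop]; exact Submodule.mem_top
  obtain ⟨p, hp, q, hq, rfl⟩ := Submodule.mem_sup.1 hx
  refine ⟨⟨q, hq⟩, ?_⟩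
  rw [LinearMap.comp_apply, Submodule.subtype_apply, map_add, Submodule.mkQ_apply _ p,
    (Submodule.Quotient.mk_eq_zero _).2 hp, zero_add]

/-- the last index of the basis `1, w, ..., w^(pp-1)` -/
def lst (C : PRing pp k t R) : Fin pp := ⟨pp - 1, by have := C.hp; omega⟩

/-- the only missing monomial is `u^(-1) w^(pp-1)` -/
theorem top_eq_zero (C : PRing pp k t R) :
    C.X ⊔ C.Y ((pp : ℤ) - 3) ⊔ Submodule.span k {C.bas (-1, C.lst)} = ⊤ := by
  have hp := C.hp
  refine Coh_top C _ fun m a => ?_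
  by_cases h2 : 0 ≤ m
  · exact Submodule.mem_sup_left (Submodule.mem_sup_left (bas_mem_X C m a h2))
  · by_cases h3 : m + ((a : ℕ) : ℤ) ≤ (pp : ℤ) - 3
    · exact Submodule.mem_sup_left (Submodule.mem_sup_right (bas_mem_Y C _ m a h3))
    · refine Submodule.mem_sup_right ?_
      have h1 := a.isLt
      have h4 : m = -1 := by omega
      have h5 : a = C.lst := by
        apply Fin.ext
        change (a : ℕ) = pp - 1
        omega
      rw [h4, h5]
      exact Submodule.mem_span_singleton_self _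

/-- Koszul exactness for the inclusion and the multiplication by `u`, on `Y` -/
theorem Y_succ (C : PRing pp k t R) (n : ℤ) :
    C.Y (n + 1) = (C.Y n).map (LinearMap.mulLeft k (C.u : R)) := by
  have h1 : ((C.u ^ (1 : ℤ) : Rˣ) : R) = (C.u : R) := by rw [zpow_one]
  ext r
  constructor
  · intro hr
    refine ⟨((C.u⁻¹ : Rˣ) : R) * r, ?_, ?_⟩
    · refine (upow_mul_mem_Y_iff C 1 n _).1 ?_
      rw [h1, Units.mul_inv_cancel_left]
      exact hr
    · rw [LinearMap.mulLeft_apply, Units.mul_inv_cancel_left]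
  · rintro ⟨x, hx, rfl⟩
    rw [LinearMap.mulLeft_apply, ← h1]
    exact (upow_mul_mem_Y_iff C 1 n x).2 hx

end PRing
end H36.PX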