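import Pool.Agent.H36.PX.Mods

/-!
# AA : the dg algebra of the example, `End (O ⊕ O(1))` by Čech matrices
-/

set_option autoImplicit false

open NC

namespace H36.PX

open H36.NX
variable {pp : ℕ} {k : Type} [Field k] {t : k} {R : Type} [CommRing R] [Algebra k R]

theorem matMul_assoc' {I J L M : Type} [Fintype J] [Fintype L]
    (a : Matrix I J R) (b : Matrix J L R) (c : Matrix L M R) :
    matMul k R I L M (matMul k R I J L a b) c = matMul k R I J M a (matMul k R J L M b c) := by
  simp [Matrix.mul_assoc]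

theorem cOne_cMul {I J : Type} [Fintype I] [DecidableEq I] (f : Pc → Matrix I J R) :
    cMul k (matMul k R I I J) (cOne (Matrix I I R)) f = f := by
  funext s; cases s <;> simp

theorem cMul_cOne {I J : Type} [Fintype J] [DecidableEq J] (f : Pc → Matrix I J R) :
    cMul k (matMul k R I J J) f (cOne (Matrix J J R)) = f := by
  funext s; cases s <;> simp

/-- the dg algebra of the example -/
noncomputable def AA (C : PRing pp k t R) : DGA k where
  toSD := qSD C wt wt
  mul := qMul C wt wt wt
  one := qmk C wt wt (cOne _) (one_mem_QQ C wt)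
  one_mul' a := q_ext C (by rw [qv_qMul, qv_qmk, cOne_cMul])
  mul_one' a := q_ext C (by rw [qv_qMul, qv_qmk, cMul_cOne])
  mul_assoc' a b c := q_ext C (by
    rw [qv_qMul, qv_qMul, qv_qMul, qv_qMul]
    exact cMul_assoc k (matMul k R (Fin 2) (Fin 2) (Fin 2)) (matMul k R (Fin 2) (Fin 2) (Fin 2))
      (matMul k R (Fin 2) (Fin 2) (Fin 2)) (matMul k R (Fin 2) (Fin 2) (Fin 2))
      (fun a b c => matMul_assoc' a b c) _ _ _)
  P_one := q_ext C (by
    rw [qv_P, qv_qmk]
    funext s; cases s <;> simp)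
  P_mul a b := q_ext C (by
    rw [qv_P, qv_qMul, map_add, qv_qMul, qv_qMul, qv_sub_P, qv_sub_P, qv_P, qv_P]
    exact cMul_P k (matMul k R (Fin 2) (Fin 2) (Fin 2)) _ _)
  D_mul a b := q_ext C (by
    rw [qv_D, qv_qMul, map_add, qv_qMul, qv_qMul, qv_D, qv_D, qv_E]
    exact cMul_D k (matMul k R (Fin 2) (Fin 2) (Fin 2)) _ _)

end H36.PX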