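import Mathlib

/-!
# Base : the coordinate ring of the overlap of the two charts of the curve of degree `pp`

MP_eadf0f_ag, example half for every odd prime `pp`. `k` is a field of characteristic `pp`, `t` an element of
`k` and `R = k[u, 1/u][w] / (w^pp - t^2 w - t u^pp - t^2 u^(pp-1) - t^2)` with its `k`-basis `u^m w^a`
(`m` an integer, `a = 0, ..., pp - 1`). The sections of the chart `x ≠ 0` are spanned by the `u^m w^a`, `m ≥ 0`,
those of `O(n)` over the chart `y ≠ 0` (trivialised by `x^n`) by the `u^m w^a`, `m ≤ n - a`.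
-/

set_option autoImplicit false

namespace H36.NX
end H36.NX

namespace H36.PX

/-- A commutative `k`-algebra `R` with a unit `u` and an element `w` with
`w^pp = t^2 w + t u^pp + t^2 u^(pp-1) + t^2`, with basis `u^m w^a`. -/
structure PRing (pp : ℕ) (k : Type) [Field k] (t : k) (R : Type) [CommRing R] [Algebra k R] where
  /-- the degree is at least three -/
  hp : 3 ≤ pp
  /-- `u = y / x` -/
  u : Rˣ
  /-- `w = z / x` -/
  w : R
  /-- the basis `u^m w^a` -/
  bas : Module.Basis (ℤ × Fin pp) k R
  bas_eq : ∀ (m : ℤ) (a : Fin pp), bas (m, a) = ((u ^ m : Rˣ) : R) * w ^ (a : ℕ)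
  rel : w ^ pp = algebraMap k R (t ^ 2) * w + algebraMap k R t * (u : R) ^ pp
    + algebraMap k R (t ^ 2) * (u : R) ^ (pp - 1) + algebraMap k R (t ^ 2)

namespace PRing

variable {pp : ℕ} {k : Type} [Field k] {t : k} {R : Type} [CommRing R] [Algebra k R]

/-- functions on the chart `x ≠ 0` -/
noncomputable def X (C : PRing pp k t R) : Submodule k R :=
  Submodule.span k (Set.range fun p : ℕ × Fin pp => C.bas ((p.1 : ℤ), p.2))

/-- sections of `O(n)` on the chart `y ≠ 0`, divided by `x^n` -/
noncomputable def Y (C : PRing pp k t R) (n : ℤ) : Submodule k R :=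
  Submodule.span k (Set.range fun p : ℕ × Fin pp => C.bas (n - ((p.2 : ℕ) : ℤ) - (p.1 : ℤ), p.2))

/-- global sections of `O(n)`, divided by `x^n` -/
noncomputable def B (C : PRing pp k t R) (n : ℤ) : Submodule k R := C.X ⊓ C.Y n

/-- the index of `w^i`, `i < 3`, in the basis -/
def ix (C : PRing pp k t R) (i : ℕ) (h : i < 3) : Fin pp := ⟨i, lt_of_lt_of_le h C.hp⟩

@[simp] theorem ix_val (C : PRing pp k t R) (i : ℕ) (h : i < 3) : ((C.ix i h : Fin pp) : ℕ) = i := rfl

end PRing

/-- The index hypothesis: every point of the curve in a finite extension has degree divisible by `pp`. -/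
def IndexP (pp : ℕ) (k : Type) [Field k] (t : k) : Prop :=
  ∀ (L : Type) [Field L] [Algebra k L] [FiniteDimensional k L] (x y z : L),
    (x ≠ 0 ∨ y ≠ 0 ∨ z ≠ 0) →
    z ^ pp = algebraMap k L (t ^ 2) * x ^ (pp - 1) * z + algebraMap k L t * y ^ pp
      + algebraMap k L (t ^ 2) * x * y ^ (pp - 1) + algebraMap k L (t ^ 2) * x ^ pp →
    pp ∣ Module.finrank k L

end H36.PX
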