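import Pool.Agent.H36.PX.Kos
import Pool.Agent.H36.PX.Tens

/-!
# QD : Čech matrices with entries in `D = R ⊗ R` over `k[u, 1/u]`, the left and right actions, `G` and the projection
-/

set_option autoImplicit false

open NC

namespace H36.PX

open H36.NX
variable {pp : ℕ} {k : Type} [Field k] {t : k} {R : Type} [CommRing R] [Algebra k R]
  {C : PRing pp k t R} {D : Type} [CommRing D] [Algebra k D] {I J L : Type}

/-- the piece `X`, `Y n` or `R` of `D` -/
noncomputable def DblRing.pd (W : DblRing k C D) (s : Pc) (n : ℤ) : Submodule k D :=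
  match s with
  | Pc.X => W.X
  | Pc.Y => W.Y n
  | Pc.R => ⊤

/-- Čech matrices of sections of `D` -/
noncomputable def QD (W : DblRing k C D) (α : I → ℤ) (β : J → ℤ) :
    Submodule k (Pc → Matrix I J D) where
  carrier := {f | ∀ s i j, f s i j ∈ W.pd s (β j - α i)}
  add_mem' := fun ha hb s i j => (W.pd s _).add_mem (ha s i j) (hb s i j)
  zero_mem' := fun s _ _ => (W.pd s _).zero_mem
  smul_mem' := fun c _ ha s i j => (W.pd s _).smul_mem c (ha s i j)

/-- the left action of matrices over `R` on matrices over `D` -/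
noncomputable def lMul (W : DblRing k C D) (I J L : Type) [Fintype J] :
    Matrix I J R →ₗ[k] Matrix J L D →ₗ[k] Matrix I L D :=
  LinearMap.mk₂ k (fun M N => M.map W.l * N)
    (fun M M' N => by
      have : (M + M').map W.l = M.map W.l + M'.map W.l := by ext; simp
      rw [this, Matrix.add_mul])
    (fun c M N => by
      have : (c • M).map W.l = c • M.map W.l := by ext; simp
      rw [this, Matrix.smul_mul])
    (fun _ _ _ => Matrix.mul_add _ _ _) (fun _ _ _ => by simp)

/-- the right action of matrices over `R` on matrices over `D` -/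
noncomputable def rMul (W : DblRing k C D) (I J L : Type) [Fintype J] :
    Matrix I J D →ₗ[k] Matrix J L R →ₗ[k] Matrix I L D :=
  LinearMap.mk₂ k (fun M N => M * N.map W.r)
    (fun _ _ _ => Matrix.add_mul _ _ _) (fun _ _ _ => by simp)
    (fun M N N' => by
      have : (N + N').map W.r = N.map W.r + N'.map W.r := by ext; simp
      rw [this, Matrix.mul_add])
    (fun c M N => by
      have : (c • N).map W.r = c • N.map W.r := by ext; simp
      rw [this, Matrix.mul_smul])

@[simp] theorem lMul_apply (W : DblRing k C D) [Fintype J] (M : Matrix I J R)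
    (N : Matrix J L D) : lMul W I J L M N = M.map W.l * N := rfl

@[simp] theorem rMul_apply (W : DblRing k C D) [Fintype J] (M : Matrix I J D)
    (N : Matrix J L R) : rMul W I J L M N = M * N.map W.r := rfl

/-- multiplication of all entries by an element of `D` -/
def smulD (k : Type) [Field k] {D : Type} [CommRing D] [Algebra k D] (I J : Type) (z : D) :
    (Pc → Matrix I J D) →ₗ[k] (Pc → Matrix I J D) := smulR k I J z

/-- `f ↦ G * l f`, from matrices over `R` to matrices over `D` -/
noncomputable def gMap (W : DblRing k C D) (I J : Type) :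
    (Pc → Matrix I J R) →ₗ[k] (Pc → Matrix I J D) where
  toFun f := fun s i j => W.l (f s i j) * W.G
  map_add' f g := by
    funext s; ext i j
    change W.l (f s i j + g s i j) * W.G = W.l (f s i j) * W.G + W.l (g s i j) * W.G
    rw [map_add, add_mul]
  map_smul' c f := by
    funext s; ext i j
    change W.l (c • f s i j) * W.G = c • (W.l (f s i j) * W.G)
    rw [map_smul, smul_mul_assoc]

/-- the projection, from matrices over `D` to matrices over `R` -/
noncomputable def pMap (W : DblRing k C D) (I J : Type) :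
    (Pc → Matrix I J D) →ₗ[k] (Pc → Matrix I J R) where
  toFun f := fun s i j => W.pr (f s i j)
  map_add' f g := by
    funext s; ext i j
    change W.pr (f s i j + g s i j) = W.pr (f s i j) + W.pr (g s i j)
    rw [map_add]
  map_smul' c f := by
    funext s; ext i j
    change W.pr (c • f s i j) = c • W.pr (f s i j)
    rw [map_smul]

@[simp] theorem gMap_apply (W : DblRing k C D) (f : Pc → Matrix I J R) (s : Pc) (i : I) (j : J) :
    gMap W I J f s i j = W.l (f s i j) * W.G := rfl

@[simp] theorem pMap_apply (W : DblRing k C D) (f : Pc → Matrix I J D) (s : Pc) (i : I) (j : J) :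
    pMap W I J f s i j = W.pr (f s i j) := rfl

theorem cD_mem_QD (W : DblRing k C D) (α : I → ℤ) (β : J → ℤ)
    (f : Pc → Matrix I J D) (hf : f ∈ QD W α β) : cD k _ f ∈ QD W α β := by
  intro s i j
  cases s with
  | X => exact W.X.zero_mem
  | Y => exact (W.Y _).zero_mem
  | R => exact Submodule.mem_top

theorem cP_mem_QD (W : DblRing k C D) (α : I → ℤ) (β : J → ℤ)
    (f : Pc → Matrix I J D) (hf : f ∈ QD W α β) : cP k _ f ∈ QD W α β := by
  intro s i j
  cases s with
  | X => exact hf Pc.X i j
  | Y => exact hf Pc.Y i j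
  | R => exact Submodule.mem_top

theorem lMul_mem_QD (W : DblRing k C D) [Fintype J] (α : I → ℤ) (β : J → ℤ) (γ : L → ℤ)
    (f : Pc → Matrix I J R) (hf : f ∈ QQ C α β) (g : Pc → Matrix J L D) (hg : g ∈ QD W β γ) :
    cMul k (lMul W I J L) f g ∈ QD W α γ := by
  intro s i j
  cases s with
  | X =>
    change (lMul W I J L (f Pc.X) (g Pc.X)) i j ∈ W.X
    rw [lMul_apply, Matrix.mul_apply]
    refine Submodule.sum_mem _ (fun l _ => ?_)
    exact W.mul_mem_X (W.l_mem_X (hf Pc.X i l)) (hg Pc.X l j)
  | Y =>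
    change (lMul W I J L (f Pc.Y) (g Pc.Y)) i j ∈ W.Y (γ j - α i)
    rw [lMul_apply, Matrix.mul_apply]
    refine Submodule.sum_mem _ (fun l _ => ?_)
    have h := W.mul_mem_Y (W.l_mem_Y (hf Pc.Y i l)) (hg Pc.Y l j)
    rwa [show β l - α i + (γ j - β l) = γ j - α i by ring] at h
  | R => exact Submodule.mem_top

theorem rMul_mem_QD (W : DblRing k C D) [Fintype J] (α : I → ℤ) (β : J → ℤ) (γ : L → ℤ)
    (f : Pc → Matrix I J D) (hf : f ∈ QD W α β) (g : Pc → Matrix J L R) (hg : g ∈ QQ C β γ) :
    cMul k (rMul W I J L) f g ∈ QD W α γ := by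
  intro s i j
  cases s with
  | X =>
    change (rMul W I J L (f Pc.X) (g Pc.X)) i j ∈ W.X
    rw [rMul_apply, Matrix.mul_apply]
    refine Submodule.sum_mem _ (fun l _ => ?_)
    exact W.mul_mem_X (hf Pc.X i l) (W.r_mem_X (hg Pc.X l j))
  | Y =>
    change (rMul W I J L (f Pc.Y) (g Pc.Y)) i j ∈ W.Y (γ j - α i)
    rw [rMul_apply, Matrix.mul_apply]
    refine Submodule.sum_mem _ (fun l _ => ?_)
    have h := W.mul_mem_Y (hf Pc.Y i l) (W.r_mem_Y (hg Pc.Y l j))
    rwa [show β l - α i + (γ j - β l) = γ j - α i by ring] at h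
  | R => exact Submodule.mem_top

/-- associativity for the mixed products -/
theorem lMul_lMul (W : DblRing k C D) {I' : Type} [Fintype I] [Fintype J] (f : Matrix I' I R)
    (g : Matrix I J R) (h : Matrix J L D) :
    lMul W I' J L (matMul k R I' I J f g) h = lMul W I' I L f (lMul W I J L g h) := by
  rw [lMul_apply, lMul_apply, lMul_apply, matMul_apply, Matrix.map_mul, Matrix.mul_assoc]

theorem rMul_rMul (W : DblRing k C D) {I' : Type} [Fintype I] [Fintype J] (f : Matrix I' I D)
    (g : Matrix I J R) (h : Matrix J L R) :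
    rMul W I' J L (rMul W I' I J f g) h = rMul W I' I L f (matMul k R I J L g h) := by
  rw [rMul_apply, rMul_apply, rMul_apply, matMul_apply, Matrix.map_mul, Matrix.mul_assoc]

theorem lMul_rMul (W : DblRing k C D) {I' : Type} [Fintype I] [Fintype J] (f : Matrix I' I R)
    (g : Matrix I J D) (h : Matrix J L R) :
    rMul W I' J L (lMul W I' I J f g) h = lMul W I' I L f (rMul W I J L g h) := by
  rw [lMul_apply, rMul_apply, lMul_apply, rMul_apply, Matrix.mul_assoc]

theorem gMap_mem (W : DblRing k C D) {α α' : I → ℤ} {β β' : J → ℤ}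
    (h : ∀ i j, β j - α i + ((pp : ℤ) - 1) = β' j - α' i) {f : Pc → Matrix I J R} (hf : f ∈ QQ C α β) :
    gMap W I J f ∈ QD W α' β' := by
  intro s i j
  rw [gMap_apply, ← h i j]
  cases s with
  | X => exact W.mul_mem_X (W.l_mem_X (hf Pc.X i j)) W.G_mem_X
  | Y => exact W.mul_mem_Y (W.l_mem_Y (hf Pc.Y i j)) W.G_mem_Y
  | R => exact Submodule.mem_top

theorem pMap_mem (W : DblRing k C D) (α : I → ℤ) (β : J → ℤ) {f : Pc → Matrix I J D}
    (hf : f ∈ QD W α β) : pMap W I J f ∈ QQ C α β := by
  intro s i j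
  rw [pMap_apply]
  cases s with
  | X => exact W.pr_mem_X (hf Pc.X i j)
  | Y => exact W.pr_mem_Y (hf Pc.Y i j)
  | R => exact Submodule.mem_top

theorem gMap_D (W : DblRing k C D) (f : Pc → Matrix I J R) :
    gMap W I J (cD k _ f) = cD k _ (gMap W I J f) := by
  funext s
  ext i j
  cases s
  · simp
  · simp
  · simp [sub_mul]

theorem gMap_P (W : DblRing k C D) (f : Pc → Matrix I J R) :
    gMap W I J (cP k _ f) = cP k _ (gMap W I J f) := by
  funext s
  ext i j
  cases s <;> simp

theorem pMap_D (W : DblRing k C D) (f : Pc → Matrix I J D) :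
    pMap W I J (cD k _ f) = cD k _ (pMap W I J f) := by
  funext s
  ext i j
  cases s <;> simp

theorem pMap_P (W : DblRing k C D) (f : Pc → Matrix I J D) :
    pMap W I J (cP k _ f) = cP k _ (pMap W I J f) := by
  funext s
  ext i j
  cases s <;> simp

theorem gMap_left (W : DblRing k C D) [Fintype J] (f : Pc → Matrix I J R) (g : Pc → Matrix J L R) :
    gMap W I L (cMul k (matMul k R I J L) f g) = cMul k (lMul W I J L) f (gMap W J L g) := by
  have h : ∀ (M : Matrix I J R) (N : Matrix J L R) (i : I) (j : L),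
      W.l ((M * N) i j) * W.G = ((M.map W.l) * (Matrix.of fun a b => W.l (N a b) * W.G)) i j := by
    intro M N i j
    rw [Matrix.mul_apply, Matrix.mul_apply, map_sum, Finset.sum_mul]
    refine Finset.sum_congr rfl fun l _ => ?_
    rw [Matrix.map_apply, Matrix.of_apply, map_mul, mul_assoc]
  funext s
  ext i j
  cases s
  · exact h (f Pc.X) (g Pc.X) i j
  · exact h (f Pc.Y) (g Pc.Y) i j
  · change W.l ((f Pc.X * g Pc.R + f Pc.R * g Pc.Y) i j) * W.G = _
    rw [Matrix.add_apply, map_add, add_mul, h, h]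
    rfl

/-- uses `r x * G = l x * G` -/
theorem gMap_right (W : DblRing k C D) [Fintype J] (f : Pc → Matrix I J R)
    (g : Pc → Matrix J L R) :
    gMap W I L (cMul k (matMul k R I J L) f g) = cMul k (rMul W I J L) (gMap W I J f) g := by
  have h : ∀ (M : Matrix I J R) (N : Matrix J L R) (i : I) (j : L),
      W.l ((M * N) i j) * W.G = ((Matrix.of fun a b => W.l (M a b) * W.G) * (N.map W.r)) i j := by
    intro M N i j
    rw [Matrix.mul_apply, Matrix.mul_apply, map_sum, Finset.sum_mul]
    refine Finset.sum_congr rfl fun l _ => ?_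
    rw [Matrix.map_apply, Matrix.of_apply, map_mul, mul_assoc, mul_assoc, mul_comm W.G,
      W.r_mul_G]
  funext s
  ext i j
  cases s
  · exact h (f Pc.X) (g Pc.X) i j
  · exact h (f Pc.Y) (g Pc.Y) i j
  · change W.l ((f Pc.X * g Pc.R + f Pc.R * g Pc.Y) i j) * W.G = _
    rw [Matrix.add_apply, map_add, add_mul, h, h]
    rfl

theorem pMap_left (W : DblRing k C D) [Fintype J] (f : Pc → Matrix I J R) (g : Pc → Matrix J L D) :
    pMap W I L (cMul k (lMul W I J L) f g) = cMul k (matMul k R I J L) f (pMap W J L g) := by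
  have h : ∀ (M : Matrix I J R) (N : Matrix J L D) (i : I) (j : L),
      W.pr ((M.map W.l * N) i j) = (M * N.map W.pr) i j := by
    intro M N i j
    rw [Matrix.mul_apply, Matrix.mul_apply, map_sum]
    refine Finset.sum_congr rfl fun l _ => ?_
    rw [Matrix.map_apply, Matrix.map_apply, map_mul, W.pr_l]
  funext s
  ext i j
  cases s
  · exact h (f Pc.X) (g Pc.X) i j
  · exact h (f Pc.Y) (g Pc.Y) i j
  · change W.pr (((f Pc.X).map W.l * g Pc.R + (f Pc.R).map W.l * g Pc.Y) i j) = _
    rw [Matrix.add_apply, map_add, h, h]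
    rfl

theorem pMap_right (W : DblRing k C D) [Fintype J] (f : Pc → Matrix I J D)
    (g : Pc → Matrix J L R) :
    pMap W I L (cMul k (rMul W I J L) f g) = cMul k (matMul k R I J L) (pMap W I J f) g := by
  have h : ∀ (M : Matrix I J D) (N : Matrix J L R) (i : I) (j : L),
      W.pr ((M * N.map W.r) i j) = (M.map W.pr * N) i j := by
    intro M N i j
    rw [Matrix.mul_apply, Matrix.mul_apply, map_sum]
    refine Finset.sum_congr rfl fun l _ => ?_
    rw [Matrix.map_apply, Matrix.map_apply, map_mul, W.pr_r]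
  funext s
  ext i j
  cases s
  · exact h (f Pc.X) (g Pc.X) i j
  · exact h (f Pc.Y) (g Pc.Y) i j
  · change W.pr ((f Pc.X * (g Pc.R).map W.r + f Pc.R * (g Pc.Y).map W.r) i j) = _
    rw [Matrix.add_apply, map_add, h, h]
    rfl

/-- `π (G f) = - t^2 f` -/
theorem pMap_gMap (W : DblRing k C D) [CharP k pp] (f : Pc → Matrix I J R) :
    pMap W I J (gMap W I J f) = (- t ^ 2) • f := by
  funext s
  ext i j
  rw [pMap_apply, gMap_apply, map_mul, W.pr_l, W.pr_G]
  change f s i j * -(algebraMap k R (t ^ 2)) = (-t ^ 2) • f s i j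
  rw [Algebra.smul_def, map_neg, mul_comm]

end H36.PX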