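import Pool.Agent.H36.PX.Bim
import Pool.Agent.H36.PX.KW

/-!
# BimW : the bimodule `W n` (Čech matrices over `D`), and the bimodule maps `phi`, `psi`, `G`, `π`
-/

set_option autoImplicit false

open NC
open scoped TensorProduct

namespace H36.PX

open H36.NX
variable {pp : ℕ} {k : Type} [Field k] {t : k} {R : Type} [CommRing R] [Algebra k R]
  {C : PRing pp k t R} {D : Type} [CommRing D] [Algebra k D] {I J : Type}

theorem dv_sub_P (W : DblRing k C D) {α : I → ℤ} {β : J → ℤ} (f : (dSD W α β).V) :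
    dv W α β (f - (dSD W α β).P f) = dv W α β f - cP k _ (dv W α β f) := by
  rw [map_sub, dv_P]

theorem dv_E (W : DblRing k C D) {α : I → ℤ} {β : J → ℤ} (f : (dSD W α β).V) :
    dv W α β ((dSD W α β).E f) = cP k _ (dv W α β f) + cP k _ (dv W α β f) - dv W α β f := rfl

/-- the left product by elements of `A` -/
noncomputable def dMulL (W : DblRing k C D) (β : J → ℤ) :
    (AA C).V →ₗ[k] (dSD W wt β).V →ₗ[k] (dSD W wt β).V :=
  LinearMap.mk₂ k (fun a g => dmk W wt β
      (cMul k (lMul W (Fin 2) (Fin 2) J) (av C a) (dv W wt β g))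
      (lMul_mem_QD W wt wt β _ (av_mem C a) _ (dv_mem W g)))
    (fun a a' g => d_ext W (by
      change cMul k (lMul W (Fin 2) (Fin 2) J) (av C (a + a')) (dv W wt β g)
        = cMul k (lMul W (Fin 2) (Fin 2) J) (av C a) (dv W wt β g)
          + cMul k (lMul W (Fin 2) (Fin 2) J) (av C a') (dv W wt β g)
      rw [map_add, map_add, LinearMap.add_apply]))
    (fun c a g => d_ext W (by
      change cMul k (lMul W (Fin 2) (Fin 2) J) (av C (c • a)) (dv W wt β g)
        = c • cMul k (lMul W (Fin 2) (Fin 2) J) (av C a) (dv W wt β g)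
      rw [map_smul, map_smul, LinearMap.smul_apply]))
    (fun a g g' => d_ext W (by
      change cMul k (lMul W (Fin 2) (Fin 2) J) (av C a) (dv W wt β (g + g'))
        = cMul k (lMul W (Fin 2) (Fin 2) J) (av C a) (dv W wt β g)
          + cMul k (lMul W (Fin 2) (Fin 2) J) (av C a) (dv W wt β g')
      rw [map_add, map_add]))
    (fun c a g => d_ext W (by
      change cMul k (lMul W (Fin 2) (Fin 2) J) (av C a) (dv W wt β (c • g))
        = c • cMul k (lMul W (Fin 2) (Fin 2) J) (av C a) (dv W wt β g)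
      rw [map_smul, map_smul]))

@[simp] theorem dv_dMulL (W : DblRing k C D) (β : J → ℤ) (a : (AA C).V) (g : (dSD W wt β).V) :
    dv W wt β (dMulL W β a g) = cMul k (lMul W (Fin 2) (Fin 2) J) (av C a) (dv W wt β g) := rfl

theorem rMul_mem_QD_shift (W : DblRing k C D) {α : I → ℤ} {n : ℤ} {f : Pc → Matrix I (Fin 2) D}
    (hf : f ∈ QD W α (wtn n)) {g : Pc → Matrix (Fin 2) (Fin 2) R} (hg : g ∈ QQ C wt wt) :
    cMul k (rMul W I (Fin 2) (Fin 2)) f g ∈ QD W α (wtn n) :=
  rMul_mem_QD W α (wtn n) (wtn n) f hf g (QQ_le C (fun i j => by simp [wt, wtn]) hg)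

/-- the right product by elements of `A` -/
noncomputable def dMulR (W : DblRing k C D) (α : I → ℤ) (n : ℤ) :
    (dSD W α (wtn n)).V →ₗ[k] (AA C).V →ₗ[k] (dSD W α (wtn n)).V :=
  LinearMap.mk₂ k (fun g a => dmk W α (wtn n)
      (cMul k (rMul W I (Fin 2) (Fin 2)) (dv W α (wtn n) g) (av C a))
      (rMul_mem_QD_shift W (dv_mem W g) (av_mem C a)))
    (fun g g' a => d_ext W (by
      change cMul k (rMul W I (Fin 2) (Fin 2)) (dv W α (wtn n) (g + g')) (av C a)
        = cMul k (rMul W I (Fin 2) (Fin 2)) (dv W α (wtn n) g) (av C a)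
          + cMul k (rMul W I (Fin 2) (Fin 2)) (dv W α (wtn n) g') (av C a)
      rw [map_add, map_add, LinearMap.add_apply]))
    (fun c g a => d_ext W (by
      change cMul k (rMul W I (Fin 2) (Fin 2)) (dv W α (wtn n) (c • g)) (av C a)
        = c • cMul k (rMul W I (Fin 2) (Fin 2)) (dv W α (wtn n) g) (av C a)
      rw [map_smul, map_smul, LinearMap.smul_apply]))
    (fun g a a' => d_ext W (by
      change cMul k (rMul W I (Fin 2) (Fin 2)) (dv W α (wtn n) g) (av C (a + a'))
        = cMul k (rMul W I (Fin 2) (Fin 2)) (dv W α (wtn n) g) (av C a)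
          + cMul k (rMul W I (Fin 2) (Fin 2)) (dv W α (wtn n) g) (av C a')
      rw [map_add, map_add]))
    (fun c g a => d_ext W (by
      change cMul k (rMul W I (Fin 2) (Fin 2)) (dv W α (wtn n) g) (av C (c • a))
        = c • cMul k (rMul W I (Fin 2) (Fin 2)) (dv W α (wtn n) g) (av C a)
      rw [map_smul, map_smul]))

@[simp] theorem dv_dMulR (W : DblRing k C D) (α : I → ℤ) (n : ℤ) (g : (dSD W α (wtn n)).V)
    (a : (AA C).V) : dv W α (wtn n) (dMulR W α n g a)
      = cMul k (rMul W I (Fin 2) (Fin 2)) (dv W α (wtn n) g) (av C a) := rfl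

/-- the bimodule `W n` -/
noncomputable def Wb (W : DblRing k C D) (n : ℤ) : BMod (AA C) (AA C) where
  N := dSD W wt (wtn n)
  b :=
    { l :=
        { act := dMulL W (wtn n)
          mul_act := fun a b y => d_ext W (by
            rw [dv_dMulL, dv_dMulL, dv_dMulL, av_mul]
            exact cMul_assoc k (matMul k R (Fin 2) (Fin 2) (Fin 2)) (lMul W (Fin 2) (Fin 2) (Fin 2))
              (lMul W (Fin 2) (Fin 2) (Fin 2)) (lMul W (Fin 2) (Fin 2) (Fin 2))
              (fun a b c => lMul_lMul W a b c) _ _ _)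
          P_act := fun a b => d_ext W (by
            rw [dv_P, dv_dMulL, map_add, dv_dMulL, dv_dMulL, av_sub_P, dv_sub_P, av_P, dv_P]
            exact cMul_P k (lMul W (Fin 2) (Fin 2) (Fin 2)) _ _)
          D_act := fun a b => d_ext W (by
            rw [dv_D, dv_dMulL, map_add, dv_dMulL, dv_dMulL, av_D, dv_D, av_E]
            exact cMul_D k (lMul W (Fin 2) (Fin 2) (Fin 2)) _ _) }
      r :=
        { act := dMulR W wt n
          act_mul := fun y a b => d_ext W (by
            rw [dv_dMulR, dv_dMulR, dv_dMulR, av_mul]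
            exact cMul_assoc k (rMul W (Fin 2) (Fin 2) (Fin 2)) (rMul W (Fin 2) (Fin 2) (Fin 2))
              (matMul k R (Fin 2) (Fin 2) (Fin 2)) (rMul W (Fin 2) (Fin 2) (Fin 2))
              (fun a b c => rMul_rMul W a b c) _ _ _)
          P_act := fun a b => d_ext W (by
            rw [dv_P, dv_dMulR, map_add, dv_dMulR, dv_dMulR, av_sub_P, dv_sub_P, av_P, dv_P]
            exact cMul_P k (rMul W (Fin 2) (Fin 2) (Fin 2)) _ _)
          D_act := fun a b => d_ext W (by
            rw [dv_D, dv_dMulR, map_add, dv_dMulR, dv_dMulR, av_D, dv_D, dv_E]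
            exact cMul_D k (rMul W (Fin 2) (Fin 2) (Fin 2)) _ _) }
      lr := fun a x b => d_ext W (by
        change dv W wt (wtn n) (dMulR W wt n (dMulL W (wtn n) a x) b)
          = dv W wt (wtn n) (dMulL W (wtn n) a (dMulR W wt n x b))
        rw [dv_dMulR, dv_dMulL, dv_dMulL, dv_dMulR]
        exact cMul_assoc k (lMul W (Fin 2) (Fin 2) (Fin 2)) (rMul W (Fin 2) (Fin 2) (Fin 2))
          (rMul W (Fin 2) (Fin 2) (Fin 2)) (lMul W (Fin 2) (Fin 2) (Fin 2))
          (fun a b c => lMul_rMul W a b c) _ _ _) }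
  one_l := fun y => d_ext W (by
    change dv W wt (wtn n) (dMulL W (wtn n) 1 y) = _
    rw [dv_dMulL, av_one]
    funext s; cases s <;> simp)
  r_one := fun y => d_ext W (by
    change dv W wt (wtn n) (dMulR W wt n y 1) = _
    rw [dv_dMulR, av_one]
    funext s; cases s <;> simp)

end H36.PX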