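import Pool.Agent.H36.PX.ChiH
import Pool.Agent.H36.NX.DDG

/-!
# ChiD : Euler characteristics of `D(N, Y n)` in large degree
-/

set_option autoImplicit false

open NC MvPolynomial

namespace H36.PX

open H36.NX

variable {p : ℕ} {k : Type} [Field k] {t : k} {A : DGA k}

theorem chi_DD_eventually (hp : 3 ≤ p) (hodd : Odd p) (hI : IndexP p k t) [CharP k p] {Q : BMod A A} {Y : ℕ → BMod A A}
    (G : GrB Q Y) (o : BOp (MvPolynomial (Fin 3) k) Q) (hQ : o.opS.FG)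
    (hdeg : ∀ (i : Fin 3) (n : ℕ) (v : (Y n).N.V),
      o.op (MvPolynomial.X i) ((G.i n).f v)
        = (G.i (n + 1)).f ((G.p (n + 1)).f (o.op (MvPolynomial.X i) ((G.i n).f v))))
    (hcub : ∀ v, o.op (crv p t) v = 0) {N : BMod A A} (hN : PF A N) :
    ∃ n0, ∀ n, n0 ≤ n → SD.chi (DD N (Y n)) = 0 := by
  refine chi_eventually (t := t) hp hodd hI (G.dd N) (o.dd N) (fg_DD o hQ hN) (fun i n v => ?_)
    (fun v => ?_)
  · let g : (Y n).N.V →ₗ[k] (Y (n + 1)).N.V :=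
      (G.p (n + 1)).f ∘ₗ (o.op (MvPolynomial.X i)) ∘ₗ (G.i n).f
    have hg : (o.op (MvPolynomial.X i)) ∘ₗ (G.i n).f = (G.i (n + 1)).f ∘ₗ g :=
      LinearMap.ext fun v => hdeg i n v
    refine ⟨ddR N (Q := Y n) (Q' := Y (n + 1)) g v, ?_⟩
    have h1 := ddR_comp N (Q := Y n) (Q' := Q) (Q'' := Q) (G.i n).f (o.op (MvPolynomial.X i))
    have h2 := ddR_comp N (Q := Y n) (Q' := Y (n + 1)) (Q'' := Q) g (G.i (n + 1)).f
    rw [hg] at h1
    exact LinearMap.congr_fun (h1.symm.trans h2) v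
  · have h : o.op (crv p t) = 0 := LinearMap.ext fun v => hcub v
    change ddR N (Q := Q) (Q' := Q) (o.op (crv p t)) v = 0
    rw [h, ddR_zero]
    rfl

end H36.PX
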