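import Pool.Agent.H36.PX.Sep

/-!
# SepB : the chart rings `RX`, `RUV` over `k[u]` and `RV` over `k[w']`
-/

set_option autoImplicit false

open scoped TensorProduct

namespace H36.PX

open H36.NX
section Good

variable {pp : ℕ} {k : Type} [Field k] {B : Type} [CommRing B] [Algebra k B]

/-- the elements good for `e`, as a subalgebra -/
private def goodSub (c : B) (e : B ⊗[k] B) : Subalgebra k B where
  carrier := {b | ∃ z : B ⊗[k] B,
    (b ⊗ₜ[k] (1 : B) - (1 : B) ⊗ₜ[k] b) * e = (c ⊗ₜ[k] (1 : B) - (1 : B) ⊗ₜ[k] c) * z}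
  algebraMap_mem' := fun r => by
    refine ⟨0, ?_⟩
    have : (algebraMap k B r) ⊗ₜ[k] (1 : B) = (1 : B) ⊗ₜ[k] (algebraMap k B r) := by
      rw [Algebra.algebraMap_eq_smul_one, TensorProduct.smul_tmul]
    rw [this, sub_self, zero_mul, mul_zero]
  add_mem' := fun {x y} hx hy => by
    obtain ⟨z, hz⟩ := hx
    obtain ⟨z', hz'⟩ := hy
    refine ⟨z + z', ?_⟩
    rw [mul_add, ← hz, ← hz', TensorProduct.add_tmul, TensorProduct.tmul_add]
    ring
  mul_mem' := fun {x y} hx hy => by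
    obtain ⟨z, hz⟩ := hx
    obtain ⟨z', hz'⟩ := hy
    refine ⟨(x ⊗ₜ[k] (1 : B)) * z' + ((1 : B) ⊗ₜ[k] y) * z, ?_⟩
    have e1 : (x * y) ⊗ₜ[k] (1 : B) = (x ⊗ₜ[k] (1 : B)) * (y ⊗ₜ[k] (1 : B)) := by
      rw [Algebra.TensorProduct.tmul_mul_tmul, one_mul]
    have e2 : (1 : B) ⊗ₜ[k] (x * y) = ((1 : B) ⊗ₜ[k] x) * ((1 : B) ⊗ₜ[k] y) := by
      rw [Algebra.TensorProduct.tmul_mul_tmul, one_mul]
    rw [e1, e2]
    linear_combination (x ⊗ₜ[k] (1 : B)) * hz' + ((1 : B) ⊗ₜ[k] y) * hz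

private theorem self_mem_goodSub (c : B) (e : B ⊗[k] B) : c ∈ goodSub c e := ⟨e, rfl⟩

private theorem inv_mem_goodSub (c : B) (e : B ⊗[k] B) (b b' : B) (hb : b * b' = 1)
    (h : b ∈ goodSub c e) : b' ∈ goodSub c e :=
  sepOver_inv k B c e b b' hb h

/-- first embedding -/
private noncomputable def L1 : B →ₐ[k] B ⊗[k] B := Algebra.TensorProduct.includeLeft
/-- second embedding -/
private noncomputable def L2 : B →ₐ[k] B ⊗[k] B := Algebra.TensorProduct.includeRight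

private theorem L1_apply (b : B) : L1 (k := k) b = b ⊗ₜ[k] (1 : B) := rfl
private theorem L2_apply (b : B) : L2 (k := k) b = (1 : B) ⊗ₜ[k] b := rfl

private theorem lmul_L1 (b : B) : Algebra.TensorProduct.lmul' (S := B) k (L1 (k := k) b) = b := by
  rw [L1_apply]; simp
private theorem lmul_L2 (b : B) : Algebra.TensorProduct.lmul' (S := B) k (L2 (k := k) b) = b := by
  rw [L2_apply]; simp

private theorem pp_zero [CharP k pp] : (pp : B) = 0 := by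
  have h := congrArg (algebraMap k B) (CharP.cast_eq_zero k pp)
  rwa [map_natCast, map_zero] at h

/-- the divided difference of `X^n` -/
private noncomputable def gs (n : ℕ) (x y : B ⊗[k] B) : B ⊗[k] B :=
  ∑ i ∈ Finset.range n, x ^ i * y ^ (n - 1 - i)

private theorem gs_mul (n : ℕ) (x y : B ⊗[k] B) : gs n x y * (x - y) = x ^ n - y ^ n :=
  (Commute.all x y).geom_sum₂_mul n

private theorem lmul_gs (n : ℕ) (b : B) :
    Algebra.TensorProduct.lmul' (S := B) k (gs n (L1 (k := k) b) (L2 b)) = (n : B) * b ^ (n - 1) := by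
  unfold gs
  rw [map_sum, Finset.sum_congr rfl (g := fun _ => b ^ (n - 1)), Finset.sum_const,
    Finset.card_range, nsmul_eq_mul]
  intro i hi
  have hi' := Finset.mem_range.1 hi
  rw [map_mul, map_pow, map_pow, lmul_L1, lmul_L2, ← pow_add]
  congr 1
  omega

private theorem sepX [CharP k pp] {t : k} (ht : t ≠ 0) (u w : B)
    (rel : w ^ pp = algebraMap k B (t ^ 2) * w + algebraMap k B t * u ^ pp
      + algebraMap k B (t ^ 2) * u ^ (pp - 1) + algebraMap k B (t ^ 2)) :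
    ∃ e : B ⊗[k] B, Algebra.TensorProduct.lmul' (S := B) k e = 1 ∧ w ∈ goodSub u e := by
  have h3 : (pp : B) = 0 := pp_zero (k := k)
  have htB : algebraMap k B (t⁻¹ ^ 2) * algebraMap k B (t ^ 2) = 1 := by
    rw [← map_mul, ← mul_pow, inv_mul_cancel₀ ht, one_pow, map_one]
  have htT : algebraMap k (B ⊗[k] B) (t⁻¹ ^ 2) * algebraMap k (B ⊗[k] B) (t ^ 2) = 1 := by
    rw [← map_mul, ← mul_pow, inv_mul_cancel₀ ht, one_pow, map_one]
  refine ⟨-(algebraMap k (B ⊗[k] B) (t⁻¹ ^ 2)) * (gs pp (L1 w) (L2 w)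
    - algebraMap k (B ⊗[k] B) (t ^ 2)), ?_, ?_⟩
  · rw [map_mul, map_neg, map_sub, lmul_gs, AlgHom.commutes, AlgHom.commutes, h3]
    linear_combination htB
  · refine ⟨-(algebraMap k (B ⊗[k] B) (t⁻¹ ^ 2)) * (algebraMap k (B ⊗[k] B) t *
      gs pp (L1 u) (L2 u) + algebraMap k (B ⊗[k] B) (t ^ 2) * gs (pp - 1) (L1 u) (L2 u)), ?_⟩
    have r1 := congrArg (L1 (k := k)) rel
    have r2 := congrArg (L2 (k := k)) rel
    simp only [map_add, map_mul, map_pow, AlgHom.commutes] at r1 r2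
    rw [← L1_apply, ← L2_apply, ← L1_apply, ← L2_apply]
    have g1 := gs_mul (k := k) pp (L1 w) (L2 w)
    have g2 := gs_mul (k := k) pp (L1 u) (L2 u)
    have g3 := gs_mul (k := k) (pp - 1) (L1 u) (L2 u)
    simp only [map_pow]
    linear_combination (-(algebraMap k (B ⊗[k] B) (t⁻¹) ^ 2)) * (r1 - r2 + g1
      - algebraMap k (B ⊗[k] B) t * g2 - algebraMap k (B ⊗[k] B) t ^ 2 * g3)

private theorem sepV [CharP k pp] (hp3 : 3 ≤ pp) {t : k} (v w' s s' : B)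
    (rel : v ^ pp + w' * v ^ (pp - 1) + v
      + (algebraMap k B (t⁻¹) - algebraMap k B (t⁻¹ ^ 2) * w' ^ pp) = 0)
    (hs : s = 1 - v ^ (pp - 2) * w') (hss : s * s' = 1) :
    ∃ e : B ⊗[k] B, Algebra.TensorProduct.lmul' (S := B) k e = 1 ∧ v ∈ goodSub w' e := by
  have h3 : (pp : B) = 0 := pp_zero (k := k)
  have h4 : ((pp - 1 : ℕ) : B) = -1 := by
    rw [Nat.cast_sub (by omega), h3]
    simp
  have h5 : pp - 1 - 1 = pp - 2 := by omega
  refine ⟨L1 s' * (gs pp (L1 v) (L2 v) + L1 w' * gs (pp - 1) (L1 v) (L2 v) + 1), ?_, ?_⟩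
  · rw [map_mul, map_add, map_add, map_mul, lmul_gs, lmul_gs, lmul_L1, lmul_L1, map_one, h3, h4, h5]
    linear_combination hss - s' * hs
  · refine ⟨L1 s' * (algebraMap k (B ⊗[k] B) (t⁻¹ ^ 2) * gs pp (L1 w') (L2 w')
      - L2 v ^ (pp - 1)), ?_⟩
    have r1 := congrArg (L1 (k := k)) rel
    have r2 := congrArg (L2 (k := k)) rel
    simp only [map_add, map_sub, map_mul, map_pow, AlgHom.commutes, map_zero] at r1 r2
    rw [← L1_apply, ← L2_apply, ← L1_apply, ← L2_apply]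
    have g1 := gs_mul (k := k) pp (L1 v) (L2 v)
    have g2 := gs_mul (k := k) (pp - 1) (L1 v) (L2 v)
    have g3 := gs_mul (k := k) pp (L1 w') (L2 w')
    simp only [map_pow]
    linear_combination L1 s' * r1 - L1 s' * r2 + L1 s' * g1 + L1 s' * L1 w' * g2
      - L1 s' * algebraMap k (B ⊗[k] B) (t⁻¹) ^ 2 * g3

end Good

namespace PRing

variable {pp : ℕ} {k : Type} [Field k] {t : k} {R : Type} [CommRing R] [Algebra k R]
variable {K : Type} [Field K] [Algebra k K]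
variable {F : Type} [Field F] [Algebra k F]

theorem ju_mem_RX (C : PRing pp k t R) (j : R →ₐ[k] F) : j (C.u : R) ∈ C.RX j :=
  ⟨(C.u : R), C.u_mem_X, rfl⟩

theorem ju_mem_RUV (C : PRing pp k t R) (j : R →ₐ[k] F) : j (C.u : R) ∈ C.RUV j :=
  Algebra.subset_adjoin (Or.inl ⟨_, rfl⟩)

private theorem v_mem_Y (C : PRing pp k t R) : ((C.u⁻¹ : Rˣ) : R) ∈ C.Y 0 := by
  have := C.upow_mem_Y (m := -1) (n := 0) (by norm_num)
  simpa using this

private theorem w'_mem_Y (C : PRing pp k t R) : ((C.u⁻¹ : Rˣ) : R) * C.w ∈ C.Y 0 := by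
  have h1 : ((C.u⁻¹ : Rˣ) : R) ∈ C.Y (-1) := by
    have := C.upow_mem_Y (m := -1) (n := -1) le_rfl
    simpa using this
  have := C.mul_mem_Y h1 (C.w_mem_Y (n := 1) le_rfl)
  simpa using this

theorem jw'_mem_RV (C : PRing pp k t R) (j : R →ₐ[k] F) :
    j (((C.u⁻¹ : Rˣ) : R) * C.w) ∈ C.RV j :=
  Algebra.subset_adjoin (Or.inl ⟨_, C.w'_mem_Y, rfl⟩)

theorem RX_le_RUV (C : PRing pp k t R) (j : R →ₐ[k] F) : C.RX j ≤ C.RUV j := by
  rintro _ ⟨r, _, rfl⟩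
  exact Algebra.subset_adjoin (Or.inl ⟨r, rfl⟩)

theorem RV_le_RUV (C : PRing pp k t R) (j : R →ₐ[k] F) : C.RV j ≤ C.RUV j := by
  refine Algebra.adjoin_mono ?_
  rintro x (⟨r, _, rfl⟩ | hx)
  · exact Or.inl ⟨r, rfl⟩
  · exact Or.inr hx

private theorem X_le_sub (C : PRing pp k t R) (A : Subalgebra k R) (hu : (C.u : R) ∈ A)
    (hw : C.w ∈ A) : ∀ x ∈ C.X, x ∈ A := by
  have : C.X ≤ Subalgebra.toSubmodule A := by
    rw [X, Submodule.span_le]
    rintro _ ⟨p, rfl⟩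
    show C.bas ((p.1 : ℤ), p.2) ∈ A
    rw [C.bas_eq, zpow_natCast, Units.val_pow_eq_pow_val]
    exact A.mul_mem (A.pow_mem hu _) (A.pow_mem hw _)
  exact fun x hx => this hx

private theorem Y_le_sub (C : PRing pp k t R) (A : Subalgebra k R) (hv : ((C.u⁻¹ : Rˣ) : R) ∈ A)
    (hw : ((C.u⁻¹ : Rˣ) : R) * C.w ∈ A) : ∀ x ∈ C.Y 0, x ∈ A := by
  have : C.Y 0 ≤ Subalgebra.toSubmodule A := by
    rw [Y, Submodule.span_le]
    rintro _ ⟨p, rfl⟩
    show C.bas (0 - ((p.2 : ℕ) : ℤ) - (p.1 : ℤ), p.2) ∈ A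
    have e1 : (C.u ^ (0 - ((p.2 : ℕ) : ℤ) - (p.1 : ℤ)) : Rˣ) = (C.u⁻¹) ^ (p.1 + (p.2 : ℕ)) := by
      rw [← zpow_natCast, inv_zpow', ]
      congr 1
      push_cast
      ring
    have e2 : C.bas (0 - ((p.2 : ℕ) : ℤ) - (p.1 : ℤ), p.2)
        = ((C.u⁻¹ : Rˣ) : R) ^ p.1 * (((C.u⁻¹ : Rˣ) : R) * C.w) ^ (p.2 : ℕ) := by
      rw [C.bas_eq, e1, Units.val_pow_eq_pow_val]
      ring
    rw [e2]
    exact A.mul_mem (A.pow_mem hv _) (A.pow_mem hw _)
  exact fun x hx => this hx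

private theorem top_le_sub (C : PRing pp k t R) (A : Subalgebra k R) (hu : (C.u : R) ∈ A)
    (hv : ((C.u⁻¹ : Rˣ) : R) ∈ A) (hw : C.w ∈ A) : ∀ x : R, x ∈ A := by
  intro x
  have hx : x ∈ Submodule.span k (Set.range C.bas) := by
    rw [C.bas.span_eq]; exact Submodule.mem_top
  have : Submodule.span k (Set.range C.bas) ≤ Subalgebra.toSubmodule A := by
    rw [Submodule.span_le]
    rintro _ ⟨⟨m, a⟩, rfl⟩
    show C.bas (m, a) ∈ A
    rw [C.bas_eq]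
    refine A.mul_mem ?_ (A.pow_mem hw _)
    obtain ⟨n, rfl | rfl⟩ := m.eq_nat_or_neg
    · rw [zpow_natCast, Units.val_pow_eq_pow_val]
      exact A.pow_mem hu _
    · rw [zpow_neg, zpow_natCast, ← inv_pow, Units.val_pow_eq_pow_val]
      exact A.pow_mem hv _
  exact this hx

private theorem transc_j (j : R →ₐ[k] F) (hj : Function.Injective j) (B : Subalgebra k F) (r : R)
    (h : j r ∈ B) (hr : Transcendental k r) : Transcendental k (⟨j r, h⟩ : B) := by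
  intro hal
  apply hr
  have h1 : IsAlgebraic k (B.val ⟨j r, h⟩) := hal.algHom B.val
  have h2 : IsAlgebraic k (j r) := h1
  exact (isAlgebraic_algHom_iff j hj).1 h2

private theorem all_mem (B : Subalgebra k F) (G : Subalgebra k B) (h : B ≤ G.map B.val) (b : B) :
    b ∈ G := by
  obtain ⟨g, hg, hgb⟩ := h b.2
  have : g = b := Subtype.ext hgb
  rw [← this]; exact hg

theorem sepOver_RX (C : PRing pp k t R) (E : PRoot pp k t K) (j : R →ₐ[k] F)
    (hj : Function.Injective j) [CharP k pp] (ht : t ≠ 0) :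
    SepOver k (C.RX j) ⟨j (C.u : R), C.ju_mem_RX j⟩ := by
  have hw : j C.w ∈ C.RX j := ⟨C.w, C.w_mem_X, rfl⟩
  have rel : (⟨j C.w, hw⟩ : C.RX j) ^ pp = algebraMap k (C.RX j) (t ^ 2) * ⟨j C.w, hw⟩
      + algebraMap k (C.RX j) t * (⟨j (C.u : R), C.ju_mem_RX j⟩ : C.RX j) ^ pp
      + algebraMap k (C.RX j) (t ^ 2) * (⟨j (C.u : R), C.ju_mem_RX j⟩ : C.RX j) ^ (pp - 1)
      + algebraMap k (C.RX j) (t ^ 2) := by
    apply Subtype.ext
    have := congrArg j C.rel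
    simp only [map_add, map_mul, map_pow, AlgHom.commutes] at this
    simpa using this
  obtain ⟨e, he, hgw⟩ := sepX ht _ _ rel
  refine ⟨sepOver_inj k _ _ (transc_j j hj _ _ _ C.transcendental_u), e, he, ?_⟩
  have hall := all_mem (C.RX j) (goodSub (⟨j (C.u : R), C.ju_mem_RX j⟩ : C.RX j) e) ?_
  · exact fun b => hall b
  · rintro _ ⟨r, hr, rfl⟩
    exact C.X_le_sub (((goodSub (⟨j (C.u : R), C.ju_mem_RX j⟩ : C.RX j) e).map (C.RX j).val).comap j)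
      ⟨_, self_mem_goodSub _ _, rfl⟩ ⟨_, hgw, rfl⟩ r hr

theorem sepOver_RUV (C : PRing pp k t R) (E : PRoot pp k t K) (j : R →ₐ[k] F)
    (hj : Function.Injective j) [CharP k pp] (ht : t ≠ 0) :
    SepOver k (C.RUV j) ⟨j (C.u : R), C.ju_mem_RUV j⟩ := by
  have hm : ∀ r : R, j r ∈ C.RUV j := fun r => Algebra.subset_adjoin (Or.inl ⟨r, rfl⟩)
  have rel : (⟨j C.w, hm _⟩ : C.RUV j) ^ pp = algebraMap k (C.RUV j) (t ^ 2) * ⟨j C.w, hm _⟩
      + algebraMap k (C.RUV j) t * (⟨j (C.u : R), C.ju_mem_RUV j⟩ : C.RUV j) ^ pp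
      + algebraMap k (C.RUV j) (t ^ 2) * (⟨j (C.u : R), C.ju_mem_RUV j⟩ : C.RUV j) ^ (pp - 1)
      + algebraMap k (C.RUV j) (t ^ 2) := by
    apply Subtype.ext
    have := congrArg j C.rel
    simp only [map_add, map_mul, map_pow, AlgHom.commutes] at this
    simpa using this
  obtain ⟨e, he, hgw⟩ := sepX ht _ _ rel
  refine ⟨sepOver_inj k _ _ (transc_j j hj _ _ _ C.transcendental_u), e, he, ?_⟩
  have hgv : (⟨j ((C.u⁻¹ : Rˣ) : R), hm _⟩ : C.RUV j)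
      ∈ goodSub (⟨j (C.u : R), C.ju_mem_RUV j⟩ : C.RUV j) e := by
    refine inv_mem_goodSub _ _ (⟨j (C.u : R), C.ju_mem_RUV j⟩ : C.RUV j) _ ?_
      (self_mem_goodSub _ _)
    apply Subtype.ext
    show j (C.u : R) * j ((C.u⁻¹ : Rˣ) : R) = 1
    rw [← map_mul, Units.mul_inv, map_one]
  have hall' : ∀ r : R, j r ∈ (goodSub (⟨j (C.u : R), C.ju_mem_RUV j⟩ : C.RUV j) e).map
      (C.RUV j).val := by
    intro r
    exact C.top_le_sub (((goodSub (⟨j (C.u : R), C.ju_mem_RUV j⟩ : C.RUV j) e).map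
      (C.RUV j).val).comap j) ⟨_, self_mem_goodSub _ _, rfl⟩ ⟨_, hgv, rfl⟩ ⟨_, hgw, rfl⟩ r
  have hsi : (j C.s)⁻¹ ∈ C.RUV j := Algebra.subset_adjoin (Or.inr rfl)
  have hall := all_mem (C.RUV j) (goodSub (⟨j (C.u : R), C.ju_mem_RUV j⟩ : C.RUV j) e) ?_
  · exact fun b => hall b
  · refine Algebra.adjoin_le ?_
    rintro x (⟨r, rfl⟩ | hx)
    · exact hall' r
    · rw [Set.mem_singleton_iff] at hx
      subst hx
      refine ⟨⟨(j C.s)⁻¹, hsi⟩, ?_, rfl⟩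
      obtain ⟨g, hg, hgs⟩ := hall' C.s
      refine inv_mem_goodSub _ _ g _ ?_ hg
      apply Subtype.ext
      show (C.RUV j).val g * (j C.s)⁻¹ = 1
      have : (C.RUV j).val g = j C.s := hgs
      rw [this]
      exact C.s_mul_inv j hj

private theorem rel_v (C : PRing pp k t R) (ht : t ≠ 0) :
    ((C.u⁻¹ : Rˣ) : R) ^ pp + (((C.u⁻¹ : Rˣ) : R) * C.w) * ((C.u⁻¹ : Rˣ) : R) ^ (pp - 1)
      + ((C.u⁻¹ : Rˣ) : R)
      + (algebraMap k R (t⁻¹) - algebraMap k R (t⁻¹ ^ 2) * (((C.u⁻¹ : Rˣ) : R) * C.w) ^ pp) = 0 := by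
  have hp3 := C.hp
  have huv : ((C.u⁻¹ : Rˣ) : R) * (C.u : R) = 1 := by simp
  have hw : C.w = (C.u : R) * (((C.u⁻¹ : Rˣ) : R) * C.w) := by
    linear_combination (-C.w) * huv
  have htR : algebraMap k R t⁻¹ * algebraMap k R t = 1 := by
    rw [← map_mul, inv_mul_cancel₀ ht, map_one]
  have h0 := C.rel
  have h1 : ((C.u : R) * (((C.u⁻¹ : Rˣ) : R) * C.w)) ^ pp
      = algebraMap k R t ^ 2 * ((C.u : R) * (((C.u⁻¹ : Rˣ) : R) * C.w))
        + algebraMap k R t * (C.u : R) ^ pp + algebraMap k R t ^ 2 * (C.u : R) ^ (pp - 1)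
        + algebraMap k R t ^ 2 := by
    rw [← hw, h0, map_pow]
  rw [map_pow]
  exact Dom_aux (by omega) _ _ _ _ _ huv htR h1

theorem sepOver_RV (C : PRing pp k t R) (E : PRoot pp k t K) (j : R →ₐ[k] F)
    (hj : Function.Injective j) [CharP k pp] (ht : t ≠ 0) :
    SepOver k (C.RV j) ⟨j (((C.u⁻¹ : Rˣ) : R) * C.w), C.jw'_mem_RV j⟩ := by
  have hm : ∀ r ∈ C.Y 0, j r ∈ C.RV j := fun r hr => Algebra.subset_adjoin (Or.inl ⟨r, hr, rfl⟩)
  have hsi : (j C.s)⁻¹ ∈ C.RV j := Algebra.subset_adjoin (Or.inr rfl)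
  have hv : j ((C.u⁻¹ : Rˣ) : R) ∈ C.RV j := hm _ C.v_mem_Y
  have hs : j C.s ∈ C.RV j := hm _ C.s_mem_Y
  have hp3 := C.hp
  obtain ⟨e, he, hgv⟩ := sepV hp3 (t := t) (⟨j ((C.u⁻¹ : Rˣ) : R), hv⟩ : C.RV j)
    (⟨j (((C.u⁻¹ : Rˣ) : R) * C.w), C.jw'_mem_RV j⟩ : C.RV j)
    (⟨j C.s, hs⟩ : C.RV j) (⟨(j C.s)⁻¹, hsi⟩ : C.RV j)
    (by
      apply Subtype.ext
      have := congrArg j (C.rel_v ht)
      simp only [map_add, map_sub, map_mul, map_pow, AlgHom.commutes, map_zero] at this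
      simpa using this)
    (by
      apply Subtype.ext
      show j C.s = 1 - j ((C.u⁻¹ : Rˣ) : R) ^ (pp - 2) * j (((C.u⁻¹ : Rˣ) : R) * C.w)
      rw [← map_pow, ← map_mul, ← map_one j, ← map_sub]
      congr 1
      have : ((C.u ^ (1 - (pp : ℤ)) : Rˣ) : R)
          = ((C.u⁻¹ : Rˣ) : R) ^ (pp - 2) * ((C.u⁻¹ : Rˣ) : R) := by
        rw [← Units.val_pow_eq_pow_val, ← Units.val_mul]
        congr 1
        rw [show 1 - (pp : ℤ) = -((pp - 2 : ℕ) : ℤ) + -1 by omega, zpow_add,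
          zpow_neg_one, zpow_neg, zpow_natCast, inv_pow]
      rw [s, this]
      ring)
    (by
      apply Subtype.ext
      exact C.s_mul_inv j hj)
  refine ⟨sepOver_inj k _ _ (transc_j j hj _ _ _ (C.transcendental_w' E ht)), e, he, ?_⟩
  have hall' : ∀ r ∈ C.Y 0, j r ∈ (goodSub (⟨j (((C.u⁻¹ : Rˣ) : R) * C.w), C.jw'_mem_RV j⟩ :
      C.RV j) e).map (C.RV j).val := by
    intro r hr
    exact C.Y_le_sub (((goodSub (⟨j (((C.u⁻¹ : Rˣ) : R) * C.w), C.jw'_mem_RV j⟩ :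
      C.RV j) e).map (C.RV j).val).comap j) ⟨_, hgv, rfl⟩ ⟨_, self_mem_goodSub _ _, rfl⟩ r hr
  have hall := all_mem (C.RV j) (goodSub (⟨j (((C.u⁻¹ : Rˣ) : R) * C.w), C.jw'_mem_RV j⟩ :
      C.RV j) e) ?_
  · exact fun b => hall b
  · refine Algebra.adjoin_le ?_
    rintro x (⟨r, hr, rfl⟩ | hx)
    · exact hall' r hr
    · rw [Set.mem_singleton_iff] at hx
      subst hx
      refine ⟨⟨(j C.s)⁻¹, hsi⟩, ?_, rfl⟩
      obtain ⟨g, hg, hgs⟩ := hall' C.s C.s_mem_Y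
      refine inv_mem_goodSub _ _ g _ ?_ hg
      apply Subtype.ext
      show (C.RV j).val g * (j C.s)⁻¹ = 1
      have : (C.RV j).val g = j C.s := hgs
      rw [this]
      exact C.s_mul_inv j hj

end PRing
end H36.PX
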