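import Pool.Agent.H36.PX.Dbl

/-!
# DblEx : the ring `D` exists
-/

set_option autoImplicit false

namespace H36.PX

open H36.NX
open Polynomial

/-- the linear map of the lift -/
private noncomputable def liftLin {pp : ℕ} {k : Type} [Field k] {t : k} {R : Type} [CommRing R] [Algebra k R]
    (C : PRing pp k t R) {S : Type} [CommRing S] [Algebra k S] (u' : Sˣ) (w' : S) : R →ₗ[k] S :=
  C.bas.constr k fun p => ((u' ^ p.1 : Sˣ) : S) * w' ^ (p.2 : ℕ)

private theorem liftLin_bas {pp : ℕ} {k : Type} [Field k] {t : k} {R : Type} [CommRing R] [Algebra k R]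
    (C : PRing pp k t R) {S : Type} [CommRing S] [Algebra k S] (u' : Sˣ) (w' : S) (m : ℤ)
    (a : Fin pp) : liftLin C u' w' (C.bas (m, a)) = ((u' ^ m : Sˣ) : S) * w' ^ (a : ℕ) := by
  rw [liftLin, Module.Basis.constr_basis]

private theorem dblEx_wp {pp : ℕ} {k : Type} [Field k] {t : k} {S : Type} [CommRing S] [Algebra k S]
    (u' : Sˣ) (w' : S)
    (h : w' ^ pp = algebraMap k S (t ^ 2) * w' + algebraMap k S t * (u' : S) ^ pp
      + algebraMap k S (t ^ 2) * (u' : S) ^ (pp - 1) + algebraMap k S (t ^ 2)) (m : ℤ) (j : ℕ) :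
    ((u' ^ m : Sˣ) : S) * w' ^ (pp + j) = (t ^ 2) • (((u' ^ m : Sˣ) : S) * w' ^ (j + 1))
      + t • (((u' ^ (m + (pp : ℤ)) : Sˣ) : S) * w' ^ j)
      + (t ^ 2) • (((u' ^ (m + ((pp - 1 : ℕ) : ℤ)) : Sˣ) : S) * w' ^ j)
      + (t ^ 2) • (((u' ^ m : Sˣ) : S) * w' ^ j) := by
  have e : ∀ i : ℕ, ((u' ^ (m + (i : ℤ)) : Sˣ) : S) = ((u' ^ m : Sˣ) : S) * (u' : S) ^ i := by
    intro i
    rw [zpow_add, zpow_natCast, Units.val_mul, Units.val_pow_eq_pow_val]
  rw [pow_add w' pp j, h, e, e]
  simp only [Algebra.smul_def]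
  ring

private theorem liftLin_pow {pp : ℕ} {k : Type} [Field k] {t : k} {R : Type} [CommRing R] [Algebra k R]
    (C : PRing pp k t R) {S : Type} [CommRing S] [Algebra k S] (u' : Sˣ) (w' : S)
    (h : w' ^ pp = algebraMap k S (t ^ 2) * w' + algebraMap k S t * (u' : S) ^ pp
      + algebraMap k S (t ^ 2) * (u' : S) ^ (pp - 1) + algebraMap k S (t ^ 2)) (j : ℕ) :
    ∀ m : ℤ, liftLin C u' w' (((C.u ^ m : Rˣ) : R) * C.w ^ j) = ((u' ^ m : Sˣ) : S) * w' ^ j := by
  induction j using Nat.strong_induction_on with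
  | _ j ih =>
    intro m
    have hp3 := C.hp
    by_cases hj : j < pp
    · have h1 := liftLin_bas C u' w' m ⟨j, hj⟩
      rw [C.bas_eq] at h1
      exact h1
    · obtain ⟨i, rfl⟩ := Nat.exists_eq_add_of_le (not_lt.1 hj)
      rw [C.Mul_wp, dblEx_wp u' w' h, map_add, map_add, map_add, map_smul, map_smul, map_smul,
        map_smul, ih (i + 1) (by omega), ih i (by omega), ih i (by omega), ih i (by omega)]

/-- the universal property of `R` -/
private theorem exists_lift {pp : ℕ} {k : Type} [Field k] {t : k} {R : Type} [CommRing R] [Algebra k R]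
    (C : PRing pp k t R) {S : Type} [CommRing S] [Algebra k S] (u' : Sˣ) (w' : S)
    (h : w' ^ pp = algebraMap k S (t ^ 2) * w' + algebraMap k S t * (u' : S) ^ pp
      + algebraMap k S (t ^ 2) * (u' : S) ^ (pp - 1) + algebraMap k S (t ^ 2)) :
    ∃ f : R →ₐ[k] S, ∀ (m : ℤ) (j : ℕ),
      f (((C.u ^ m : Rˣ) : R) * C.w ^ j) = ((u' ^ m : Sˣ) : S) * w' ^ j := by
  have hp := liftLin_pow C u' w' h
  have hone : liftLin C u' w' 1 = 1 := by
    have h1 := hp 0 0
    simpa using h1
  have hmul : ∀ x y : R, liftLin C u' w' (x * y) = liftLin C u' w' x * liftLin C u' w' y := by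
    have h2 : (LinearMap.mul k R).compr₂ (liftLin C u' w') =
        (LinearMap.mul k S).compl₁₂ (liftLin C u' w') (liftLin C u' w') := by
      refine C.bas.ext fun p => C.bas.ext fun q => ?_
      obtain ⟨m, a⟩ := p
      obtain ⟨n, b⟩ := q
      simp only [LinearMap.compr₂_apply, LinearMap.mul_apply', LinearMap.compl₁₂_apply]
      rw [C.bas_eq, C.bas_eq, hp, hp]
      have h3 : ((C.u ^ m : Rˣ) : R) * C.w ^ (a : ℕ) * (((C.u ^ n : Rˣ) : R) * C.w ^ (b : ℕ)) =
          ((C.u ^ (m + n) : Rˣ) : R) * C.w ^ ((a : ℕ) + (b : ℕ)) := by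
        rw [zpow_add, pow_add]; push_cast; ring
      rw [h3, hp, zpow_add, pow_add]
      push_cast
      ring
    intro x y
    exact LinearMap.congr_fun (LinearMap.congr_fun h2 x) y
  exact ⟨AlgHom.ofLinearMap (liftLin C u' w') hone hmul, fun m j => hp j m⟩

/-- `AdjoinRoot` of `W^pp - t^2 W - (t u^pp + t^2 u^(pp-1) + t^2)` over `R` -/
theorem exists_dblRing {pp : ℕ} (k : Type) [Field k] {t : k} {R : Type} [CommRing R] [Algebra k R]
    (C : PRing pp k t R) :
    ∃ (D : Type) (_ : CommRing D) (_ : Algebra k D), Nonempty (DblRing k C D) := by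
  classical
  have hnt : Nontrivial R := by
    refine ⟨⟨0, 1, fun h01 => ?_⟩⟩
    have h1 : C.bas (0, C.ix 0 (by norm_num)) = 0 := by
      have : C.bas (0, C.ix 0 (by norm_num)) * 1 = C.bas (0, C.ix 0 (by norm_num)) * 0 := by
        rw [h01]
      simpa using this
    exact C.bas.ne_zero (0, C.ix 0 (by norm_num)) h1
  have hp3 := C.hp
  let c : R := algebraMap k R t * (C.u : R) ^ pp + algebraMap k R (t ^ 2) * (C.u : R) ^ (pp - 1) +
    algebraMap k R (t ^ 2)
  let g : R[X] := Polynomial.C (algebraMap k R (t ^ 2)) * X + Polynomial.C c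
  have hg : g.degree < (pp : WithBot ℕ) := by
    refine lt_of_le_of_lt (degree_linear_le (a := algebraMap k R (t ^ 2)) (b := c)) ?_
    exact_mod_cast (by omega : 1 < pp)
  let f : R[X] := X ^ pp - g
  have hf : f.Monic := monic_X_pow_sub (n := pp) (p := g) (by exact_mod_cast hg)
  have hfd : f.natDegree = pp := by
    have h1 : f.degree = (pp : WithBot ℕ) := by
      have h2 := degree_sub_eq_left_of_degree_lt (p := (X : R[X]) ^ pp) (q := g) (by
        rw [degree_X_pow]; exact hg)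
      change (X ^ pp - g).degree = (pp : WithBot ℕ)
      rw [h2, degree_X_pow]
    exact natDegree_eq_of_degree_eq_some h1
  let D := AdjoinRoot f
  have htow : IsScalarTower k R D := inferInstance
  let l : R →ₐ[k] D := IsScalarTower.toAlgHom k R D
  have hl : ∀ x, l x = AdjoinRoot.of f x := fun x => rfl
  have hrt : (AdjoinRoot.root f) ^ pp = algebraMap k D (t ^ 2) * AdjoinRoot.root f
      + algebraMap k D t * ((Units.map (l : R →* D) C.u : Dˣ) : D) ^ pp
      + algebraMap k D (t ^ 2) * ((Units.map (l : R →* D) C.u : Dˣ) : D) ^ (pp - 1)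
      + algebraMap k D (t ^ 2) := by
    have h1 := AdjoinRoot.eval₂_root f
    have h2 : (AdjoinRoot.root f) ^ pp = AdjoinRoot.of f (algebraMap k R (t ^ 2)) * AdjoinRoot.root f
        + AdjoinRoot.of f c := by
      have h3 : f = X ^ pp - (Polynomial.C (algebraMap k R (t ^ 2)) * X + Polynomial.C c) := rfl
      have h4 : (X ^ pp - (Polynomial.C (algebraMap k R (t ^ 2)) * X + Polynomial.C c)).eval₂
          (AdjoinRoot.of f) (AdjoinRoot.root f) = 0 := h1
      rw [eval₂_sub, eval₂_add, eval₂_mul, eval₂_C, eval₂_C, eval₂_X_pow, eval₂_X] at h4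
      exact sub_eq_zero.1 h4
    rw [h2]
    have h5 : ∀ y : k, algebraMap k D y = AdjoinRoot.of f (algebraMap k R y) := fun y => rfl
    have h6 : ((Units.map (l : R →* D) C.u : Dˣ) : D) = AdjoinRoot.of f (C.u : R) := rfl
    rw [h5, h5, h6]
    simp only [c, map_add, map_mul, map_pow]
    ring
  obtain ⟨r, hr⟩ := exists_lift C (Units.map (l : R →* D) C.u) (AdjoinRoot.root f) hrt
  have hru : ∀ m : ℤ, r ((C.u ^ m : Rˣ) : R) = l ((C.u ^ m : Rˣ) : R) := by
    intro m
    have h1 := hr m 0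
    rw [pow_zero, mul_one, pow_zero, mul_one, ← map_zpow] at h1
    exact h1
  have hrw : ∀ j : ℕ, r (C.w ^ j) = AdjoinRoot.root f ^ j := by
    intro j
    have h1 := hr 0 j
    rw [zpow_zero, zpow_zero, Units.val_one, one_mul, Units.val_one, one_mul] at h1
    exact h1
  have hev : f.eval₂ ((AlgHom.id k R : R →ₐ[k] R) : R →+* R) C.w = 0 := by
    change (X ^ pp - (Polynomial.C (algebraMap k R (t ^ 2)) * X + Polynomial.C c)).eval₂ _ C.w = 0
    rw [eval₂_sub, eval₂_add, eval₂_mul, eval₂_C, eval₂_C, eval₂_X_pow, eval₂_X, C.rel]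
    simp only [c, AlgHom.coe_toRingHom, AlgHom.coe_id, id_eq]
    ring
  let pr : D →ₐ[k] R := AdjoinRoot.liftAlgHom f (AlgHom.id k R) C.w hev
  have prl : ∀ x : R, pr (l x) = x := by
    intro x
    rw [hl]
    exact AdjoinRoot.liftAlgHom_of f (AlgHom.id k R) C.w hev x
  have prroot : pr (AdjoinRoot.root f) = C.w :=
    AdjoinRoot.liftAlgHom_root f (AlgHom.id k R) C.w hev
  have prr : ∀ x : R, pr (r x) = x := by
    have h1 : (pr.comp r).toLinearMap = LinearMap.id := by
      refine C.bas.ext fun p => ?_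
      obtain ⟨m, a⟩ := p
      rw [AlgHom.toLinearMap_apply, AlgHom.comp_apply, C.bas_eq, map_mul, hru, hrw, map_mul, prl,
        map_pow, prroot]
      rfl
    intro x
    exact LinearMap.congr_fun h1 x
  let B : Module.Basis (Fin pp) R D :=
    (AdjoinRoot.powerBasis' hf).basis.reindex (finCongr hfd)
  have hB : ∀ b : Fin pp, B b = AdjoinRoot.root f ^ (b : ℕ) := by
    intro b
    rw [Module.Basis.reindex_apply, PowerBasis.basis_eq_pow]
    rfl
  let bas : Module.Basis (ℤ × Fin pp × Fin pp) k D :=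
    (C.bas.smulTower B).reindex (Equiv.prodAssoc ℤ (Fin pp) (Fin pp))
  refine ⟨D, inferInstance, inferInstance, ⟨{
    l := l
    r := r
    lr := ?_
    pr := pr
    pr_l := prl
    pr_r := prr
    bas := bas
    bas_eq := ?_ }⟩⟩
  · have h1 := hru 1
    rw [zpow_one] at h1
    exact h1.symm
  · intro m a b
    rw [hrw, Module.Basis.reindex_apply]
    change (C.bas.smulTower B) ((m, a), b) = _
    rw [Module.Basis.smulTower_apply, hB, Algebra.smul_def]
    rfl

end H36.PX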