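import Pool.Agent.H36.PX.Mul

/-!
# Der : the derivation `∂/∂u` of `R`, in characteristic `pp`: `∂ u = 1`, `∂ w = u^(pp-2)`
-/

set_option autoImplicit false

namespace H36.PX

open H36.NX
variable {pp : ℕ} {k : Type} [Field k] {t : k} {R : Type} [CommRing R] [Algebra k R]

/-- Define `∂` on the basis by `∂ (u^m w^a) = m u^(m-1) w^a + a u^(m+pp-2) w^(a-1)`. The same formula holds for
all `a` (use the relation and `pp = 0`), which gives the Leibniz rule on basis elements. -/
theorem exists_der (C : PRing pp k t R) [CharP k pp] : ∃ der : R →ₗ[k] R,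
    (∀ a b, der (a * b) = a * der b + der a * b) ∧ der (C.u : R) = 1 ∧
      der C.w = (C.u : R) ^ (pp - 2) := by
  classical
  have hp3 := C.hp
  obtain ⟨q, hq⟩ : ∃ q, pp = q + 2 := ⟨pp - 2, by omega⟩
  have h3 : (pp : R) = 0 := by
    have h' := congrArg (algebraMap k R) (CharP.cast_eq_zero k pp)
    rwa [map_zero, map_natCast] at h'
  have h4 : ((pp - 1 : ℕ) : R) = -1 := by
    rw [Nat.cast_sub (by omega), h3]
    simp
  let U : ℤ → R := fun m => ((C.u ^ (m - 1) : Rˣ) : R)
  let D : ℤ → ℕ → R := fun m j => U m * ((m : R) * C.w ^ j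
    + (j : R) * (C.u : R) ^ (q + 1) * C.w ^ (j - 1))
  have hDdef : ∀ m j, D m j = U m * ((m : R) * C.w ^ j
    + (j : R) * (C.u : R) ^ (q + 1) * C.w ^ (j - 1)) := fun _ _ => rfl
  have hU : ∀ (m : ℤ) (j : ℕ), U (m + (j : ℤ)) = U m * (C.u : R) ^ j := by
    intro m j
    have h := PRing.Mul_upow_add C (m - 1) j
    refine Eq.trans ?_ h
    show ((C.u ^ (m + (j : ℤ) - 1) : Rˣ) : R) = _
    congr 2
    ring
  have hu : ∀ m : ℤ, ((C.u ^ m : Rˣ) : R) = U m * (C.u : R) := by
    intro m
    have h := hU m 1
    rw [pow_one] at h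
    refine Eq.trans ?_ h
    show _ = ((C.u ^ (m + ((1 : ℕ) : ℤ) - 1) : Rˣ) : R)
    congr 2
    push_cast
    ring
  let der : R →ₗ[k] R := C.bas.constr k (fun q => D q.1 (q.2 : ℕ))
  have hb : ∀ (m : ℤ) (a : Fin pp), der (C.bas (m, a)) = D m (a : ℕ) := fun m a =>
    C.bas.constr_basis k _ _
  have e1 : (C.u : R) ^ pp = (C.u : R) ^ (q + 2) := congrArg (fun n => (C.u : R) ^ n) hq
  have e2 : (C.u : R) ^ (pp - 1) = (C.u : R) ^ (q + 1) := by
    congr 1
    omega
  have rel : C.w ^ pp = algebraMap k R (t ^ 2) * C.w + algebraMap k R t * (C.u : R) ^ (q + 2)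
      + algebraMap k R (t ^ 2) * (C.u : R) ^ (q + 1) + algebraMap k R (t ^ 2) := by
    rw [← e1, ← e2]
    exact C.rel
  have hP : ∀ (j : ℕ) (m : ℤ), der (((C.u ^ m : Rˣ) : R) * C.w ^ j) = D m j := by
    intro j
    induction j using Nat.strong_induction_on with
    | _ j ih =>
      intro m
      by_cases hj : j < pp
      · rw [← PRing.Mul_bas C m j hj, hb]
      · obtain ⟨i, rfl⟩ := Nat.exists_eq_add_of_le (not_lt.1 hj)
        rw [PRing.Mul_wp, map_add, map_add, map_add, map_smul, map_smul, map_smul, map_smul,
          ih (i + 1) (by omega), ih i (by omega), ih i (by omega), ih i (by omega),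
          hDdef, hDdef, hDdef, hDdef, hDdef, hU, hU]
        simp only [Algebra.smul_def]
        rw [e1, e2]
        generalize algebraMap k R (t ^ 2) = T2 at rel ⊢
        generalize algebraMap k R t = T at rel ⊢
        push_cast
        rw [h3, h4, pow_add C.w pp i]
        cases i with
        | zero =>
          push_cast
          simp only [Nat.zero_add, Nat.sub_self, pow_zero, pow_one]
          linear_combination (-(U m * (m : R))) * rel
        | succ l =>
          have e5 : pp + (l + 1) - 1 = pp + l := by omega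
          have e6 : l + 1 - 1 = l := by omega
          rw [e5, e6, pow_add C.w pp l]
          push_cast
          linear_combination (-(U m * (m : R) * C.w ^ (l + 1))
            - U m * ((l : R) + 1) * (C.u : R) ^ (q + 1) * C.w ^ l) * rel
  refine ⟨der, ?_, ?_, ?_⟩
  · have key : (LinearMap.mul k R).compr₂ der =
        (LinearMap.mul k R).compl₂ der + (LinearMap.mul k R) ∘ₗ der := by
      refine C.bas.ext fun p => C.bas.ext fun p' => ?_
      obtain ⟨m, a⟩ := p
      obtain ⟨n, b⟩ := p'
      rw [LinearMap.compr₂_apply, LinearMap.add_apply, LinearMap.add_apply, LinearMap.compl₂_apply,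
        LinearMap.comp_apply, LinearMap.mul_apply', LinearMap.mul_apply', LinearMap.mul_apply',
        PRing.Mul_bas_mul, hP, hb, hb, C.bas_eq, C.bas_eq]
      have e8 : U (m + n) = U m * U n * (C.u : R) := by
        have h : U (m + n) = ((C.u ^ (m - 1 + n) : Rˣ) : R) := by
          show ((C.u ^ (m + n - 1) : Rˣ) : R) = _
          congr 2
          ring
        rw [h, zpow_add, Units.val_mul, hu n]
        show U m * (U n * (C.u : R)) = _
        ring
      rw [hDdef, hDdef, hDdef, e8, hu m, hu n]
      generalize (a : ℕ) = a'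
      generalize (b : ℕ) = b'
      cases a' with
      | zero =>
        cases b' with
        | zero => push_cast; simp only [Nat.zero_add, pow_zero]; ring
        | succ b =>
          simp only [Nat.zero_add, Nat.add_sub_cancel]
          push_cast
          ring
      | succ a =>
        cases b' with
        | zero =>
          simp only [Nat.add_zero, Nat.add_sub_cancel]
          push_cast
          ring
        | succ b =>
          have e9 : a + 1 + (b + 1) - 1 = a + b + 1 := by omega
          rw [e9]
          simp only [Nat.add_sub_cancel]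
          push_cast
          ring
    intro a b
    have h := congrArg (fun L : R →ₗ[k] R →ₗ[k] R => L a b) key
    exact h
  · have h := hP 0 1
    rw [hDdef, zpow_one, pow_zero, mul_one] at h
    rw [h]
    have e : U 1 = 1 := by
      show ((C.u ^ ((1 : ℤ) - 1) : Rˣ) : R) = 1
      simp
    rw [e]
    simp
  · have h := hP 1 0
    rw [hDdef, zpow_zero, pow_one, Units.val_one, one_mul] at h
    rw [h]
    have e : U 0 * (C.u : R) = 1 := by
      rw [← hu 0, zpow_zero, Units.val_one]
    have e' : pp - 2 = q := by omega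
    rw [e']
    push_cast
    rw [pow_zero]
    linear_combination (C.u : R) ^ q * e

end H36.PX
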