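import Pool.Agent.H36.PX.Lead

/-!
# Dom : `R` is a domain

If `r` is in `Y m` and not in `Y (m - 1)`, and `s` in `Y n` and not in `Y (n - 1)`, then the value of `r * s` at the
point `x = 0` is the product of two nonzero elements of the field `K`.
-/

set_option autoImplicit false

namespace H36.PX

open H36.NX
/-- the equation of the curve solved for `v = 1/u` -/
theorem Dom_aux {S : Type} [CommRing S] {m q : ℕ} (hq : m = q + 1) (u v w T Z : S)
    (huv : v * u = 1) (hZ : Z * T = 1)
    (h0 : (u * w) ^ m = T ^ 2 * (u * w) + T * u ^ m + T ^ 2 * u ^ q + T ^ 2) :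
    v ^ m + w * v ^ q + v + (Z - Z ^ 2 * w ^ m) = 0 := by
  subst hq
  have h1 : w ^ (q + 1) = T ^ 2 * w * v ^ q + T + T ^ 2 * v + T ^ 2 * v ^ (q + 1) := by
    have h2 : (v * u) ^ (q + 1) * w ^ (q + 1) = T ^ 2 * ((v * u)) * w * v ^ q
        + T * (v * u) ^ (q + 1) + T ^ 2 * (v * u) ^ q * v + T ^ 2 * v ^ (q + 1) := by
      linear_combination v ^ (q + 1) * h0
    rw [huv, one_pow, one_pow] at h2
    linear_combination h2
  have h4 : Z ^ 2 * T ^ 2 = 1 := by rw [← mul_pow, hZ, one_pow]
  have h5 : Z ^ 2 * T = Z := by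
    calc Z ^ 2 * T = Z * (Z * T) := by ring
      _ = Z := by rw [hZ, mul_one]
  linear_combination (-Z ^ 2) * h1 + (-(v ^ (q + 1)) - w * v ^ q - v) * h4 + (-1 : S) * h5

namespace PRing

variable {pp : ℕ} {k : Type} [Field k] {t : k} {R : Type} [CommRing R] [Algebra k R]
variable {K : Type} [Field K] [Algebra k K]

theorem exists_degree (C : PRing pp k t R) (r : R) (h : r ≠ 0) :
    ∃ n : ℤ, r ∈ C.Y n ∧ r ∉ C.Y (n - 1) := by
  classical
  have h0 : ∃ n0 : ℤ, r ∉ C.Y n0 := by
    by_contra hcon
    push Not at hcon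
    exact h (C.eq_zero_of_mem_Y r hcon)
  obtain ⟨n0, hn0⟩ := h0
  obtain ⟨n, hn, hmin⟩ := Int.exists_least_of_bdd (P := fun n : ℤ => r ∈ C.Y n)
    ⟨n0, fun z hz => by
      by_contra hlt
      exact hn0 (C.Y_mono (le_of_lt (not_le.mp hlt)) hz)⟩ (C.exists_mem_Y r)
  refine ⟨n, hn, fun hc => ?_⟩
  have := hmin (n - 1) hc
  omega

theorem isDomain (C : PRing pp k t R) (_E : PRoot pp k t K) : IsDomain R := by
  have hnt : Nontrivial R := by
    refine ⟨⟨1, 0, fun hc => ?_⟩⟩
    have h1 := C.lead_one _E
    rw [hc, map_zero] at h1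
    exact zero_ne_one h1
  have hnz : NoZeroDivisors R := by
    refine ⟨fun {a b} hab => ?_⟩
    by_contra hcon
    push Not at hcon
    obtain ⟨ha, hb⟩ := hcon
    obtain ⟨m, hm, hm'⟩ := C.exists_degree a ha
    obtain ⟨n, hn, hn'⟩ := C.exists_degree b hb
    have h1 := C.lead_mul _E hm hn
    rw [hab, map_zero] at h1
    rcases mul_eq_zero.mp h1.symm with h2 | h2
    · exact hm' ((C.lead_eq_zero_iff _E hm).mp h2)
    · exact hn' ((C.lead_eq_zero_iff _E hn).mp h2)
  exact NoZeroDivisors.to_isDomain R

/-- `k[u]` is a polynomial ring -/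
theorem transcendental_u (C : PRing pp k t R) : Transcendental k (C.u : R) := by
  classical
  rw [transcendental_iff]
  intro p hp
  have hpow : ∀ i : ℕ, (C.u : R) ^ i = C.bas ((i : ℤ), C.ix 0 (by norm_num)) := by
    intro i
    rw [C.bas_eq]
    simp
  rw [Polynomial.aeval_eq_sum_range] at hp
  ext i
  rw [Polynomial.coeff_zero]
  by_cases hi : i ∈ Finset.range (p.natDegree + 1)
  · have h1 := congrArg (fun x => C.bas.repr x ((i : ℤ), C.ix 0 (by norm_num))) hp
    simp only [map_sum, map_smul, map_zero, Finsupp.coe_finsetSum, Finset.sum_apply, Finsupp.coe_zero,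
      Pi.zero_apply, hpow, Module.Basis.repr_self, Finsupp.coe_smul, Pi.smul_apply] at h1
    rw [Finset.sum_eq_single i] at h1
    · simpa using h1
    · intro j _ hj
      rw [Finsupp.single_eq_of_ne]
      · simp
      · intro hc
        apply hj
        have := (Prod.mk.inj hc).1
        omega
    · intro hc
      exact absurd hi hc
  · rw [Finset.mem_range, not_lt] at hi
    exact Polynomial.coeff_eq_zero_of_natDegree_lt (by omega)

/-- the function `w' = w / u` is transcendental: a relation `p(w') = 0` gives `p = 0`, since `R` is a domain,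
`u` is algebraic over `k(w')` by the equation of the curve, and `u` is transcendental; or directly by coefficients -/
theorem transcendental_w' (C : PRing pp k t R) (_E : PRoot pp k t K) (ht : t ≠ 0) :
    Transcendental k (((C.u⁻¹ : Rˣ) : R) * C.w) := by
  intro halg
  have hint : IsIntegral k (((C.u⁻¹ : Rˣ) : R) * C.w) := isAlgebraic_iff_isIntegral.mp halg
  set v : R := ((C.u⁻¹ : Rˣ) : R) with hv
  have huv : v * (C.u : R) = 1 := by simp [hv]
  set w' : R := v * C.w with hw'
  have hw : C.w = (C.u : R) * w' := by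
    rw [hw']
    linear_combination (-C.w) * huv
  have htR : algebraMap k R t⁻¹ * algebraMap k R t = 1 := by
    rw [← map_mul, inv_mul_cancel₀ ht, map_one]
  have hp3 := C.hp
  -- the monic equation of v
  have hrel : v ^ pp + w' * v ^ (pp - 1) + v
      + (algebraMap k R (t⁻¹) - algebraMap k R (t⁻¹ ^ 2) * w' ^ pp) = 0 := by
    have h0 := C.rel
    rw [hw] at h0
    simp only [map_pow] at h0 ⊢
    exact Dom_aux (by omega) _ v w' _ _ huv htR h0
  have hvint : IsIntegral k v := by
    -- integral over the integral closure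
    have hw'mem : w' ∈ integralClosure k R := hint
    let A := integralClosure k R
    let w'' : A := ⟨w', hint⟩
    let f : Polynomial A := Polynomial.X ^ pp + (Polynomial.C w'' * Polynomial.X ^ (pp - 1)
      + Polynomial.X + Polynomial.C (algebraMap k A (t⁻¹) - algebraMap k A (t⁻¹ ^ 2) * w'' ^ pp))
    have hqm : f.Monic := by
      refine Polynomial.monic_X_pow_add ?_
      refine (Polynomial.degree_add_le _ _).trans_lt (max_lt
        ((Polynomial.degree_add_le _ _).trans_lt (max_lt ?_ ?_)) ?_)
      · exact (Polynomial.degree_C_mul_X_pow_le _ _).trans_lt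
          (by exact_mod_cast (by omega : pp - 1 < pp))
      · exact Polynomial.degree_X_le.trans_lt (by exact_mod_cast (by omega : 1 < pp))
      · exact Polynomial.degree_C_le.trans_lt (by exact_mod_cast (by omega : 0 < pp))
    have hA : IsIntegral A v := by
      refine ⟨f, hqm, ?_⟩
      unfold f
      simp only [Polynomial.eval₂_add, Polynomial.eval₂_mul, Polynomial.eval₂_pow, Polynomial.eval₂_X,
        Polynomial.eval₂_C]
      have e1 : algebraMap A R w'' = w' := rfl
      have e2 : ∀ c : k, algebraMap A R (algebraMap k A c) = algebraMap k R c := fun c => rfl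
      have e3 : algebraMap A R (w'' ^ pp) = w' ^ pp := by rw [map_pow, e1]
      rw [map_sub, map_mul, e2, e2, e3, e1]
      linear_combination hrel
    exact isIntegral_trans (R := k) (A := A) v hA
  have hvalg : IsAlgebraic k v := isAlgebraic_iff_isIntegral.mpr hvint
  have hualg : IsAlgebraic k (C.u : R) := by
    let _ : Invertible v := ⟨(C.u : R), by simp [hv], by simp [hv]⟩
    have := hvalg.invOf
    exact this
  exact C.transcendental_u hualg

end PRing
end H36.PX
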