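import Pool.Agent.H36.PX.EvC
import Pool.Agent.H15.NC.HCFree

/-!
# Eps : the augmentation `HC (P ⊗ Q_U) → B`, `nil (p ⊗ q) ↦ q v(p)`, for a left module `P` with a map `v` to columns
-/

set_option autoImplicit false

open NC
open scoped TensorProduct

noncomputable section

namespace H36.PX

open H36.NX
variable {pp : ℕ} {k : Type} [Field k] {t : k} {R : Type} [CommRing R] [Algebra k R]
  {F : Type} [Field F] [Algebra k F] {C : PRing pp k t R} {j : R →ₐ[k] F} (U : Cht C j)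

/-- columns -/
abbrev PU : SD k := MSD U (Fin 2) Unit

/-- rows -/
abbrev QU : SD k := MSD U Unit (Fin 2)

/-- the chart ring, even -/
abbrev BU : SD k := evSD k U.B

/-- the entry of a 1 x 1 matrix -/
def entU : Matrix Unit Unit U.B →ₗ[k] U.B where
  toFun M := M () ()
  map_add' _ _ := rfl
  map_smul' _ _ := rfl

/-- row times column -/
def rowCol : Matrix Unit (Fin 2) U.B →ₗ[k] Matrix (Fin 2) Unit U.B →ₗ[k] U.B :=
  (matMul k U.B Unit (Fin 2) Unit).compr₂ (entU U)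

theorem rowCol_apply (q : Matrix Unit (Fin 2) U.B) (p : Matrix (Fin 2) Unit U.B) :
    rowCol U q p = (q * p) () () := rfl

variable {P P' P'' : SD k}

/-- the map `p ⊗ q ↦ q v(p)` -/
def epsL (v : SD.Hom P (PU U)) : (P.V ⊗[k] Matrix Unit (Fin 2) U.B) →ₗ[k] U.B :=
  TensorProduct.lift ((rowCol U).flip ∘ₗ v.f)

@[simp] theorem epsL_tmul (v : SD.Hom P (PU U)) (p : P.V) (q : Matrix Unit (Fin 2) U.B) :
    epsL U v (p ⊗ₜ q) = rowCol U q (v.f p) := rfl

/-- the map `p ⊗ q ↦ q v(p)`, bundled -/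
def epsH (v : SD.Hom P (PU U)) : SD.Hom (P.tens (QU U)) (BU U) where
  f := epsL U v
  D := fun z => by
    refine tens_ext (f := epsL U v ∘ₗ SD.tD P (QU U)) (g := (BU U).D ∘ₗ epsL U v)
      (fun p q => ?_) z
    change epsL U v (SD.tD P (QU U) (p ⊗ₜ q)) = 0
    have h1 : (QU U).D q = 0 := rfl
    rw [SD.tD_tmul, map_add, h1, TensorProduct.tmul_zero, map_zero, add_zero]
    change rowCol U q (v.f (P.D p)) = 0
    rw [v.D]
    exact map_zero (rowCol U q)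
  P := fun z => by
    refine tens_ext (f := epsL U v ∘ₗ SD.tP P (QU U)) (g := (BU U).P ∘ₗ epsL U v)
      (fun p q => ?_) z
    change epsL U v (SD.tP P (QU U) (p ⊗ₜ q)) = epsL U v (p ⊗ₜ q)
    have h1 : (QU U).P q = q := rfl
    rw [SD.tP_tmul, map_add, h1, sub_self, TensorProduct.tmul_zero, map_zero, add_zero]
    change rowCol U q (v.f (P.P p)) = rowCol U q (v.f p)
    rw [v.P]
    rfl

variable (l : LA (AA C) P) (l' : LA (AA C) P') (l'' : LA (AA C) P'')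

/-- the bimodule `P ⊗ Q_U` -/
def bPQ : Bi (AA C) (AA C) (P.tens (QU U)) := Bi.tensLR l (rowA U Unit)

theorem epsH_comm (v : SD.Hom P (PU U)) (hv : l.IsHom (colA U Unit) v)
    (n : (P.tens (QU U)).V) (r : (AA C).V) :
    (epsH U v).f ((bPQ U l).r.act n r) = (epsH U v).f ((bPQ U l).l.act ((AA C).P r) n)
      + (epsH U v).f ((bPQ U l).l.act (r - (AA C).P r) ((P.tens (QU U)).E n)) := by
  refine tens_ext (f := (epsH U v).f ∘ₗ (bPQ U l).r.act.flip r)
    (g := (epsH U v).f ∘ₗ (bPQ U l).l.act ((AA C).P r) +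
      (epsH U v).f ∘ₗ (bPQ U l).l.act (r - (AA C).P r) ∘ₗ (P.tens (QU U)).E) (fun p q => ?_) n
  change rowCol U ((rowA U Unit).act q r) (v.f p) = rowCol U q (v.f (l.act ((AA C).P r) p))
    + epsL U v ((l.tensL (QU U)).act (r - (AA C).P r) ((P.tens (QU U)).E (p ⊗ₜ q)))
  rw [SD.tens_E]
  change _ = _ + rowCol U ((QU U).E q) (v.f (l.act (r - (AA C).P r) (P.E p)))
  have h1 : (evA U).f ((AA C).P r) = (evA U).f r := (evA U).P r
  have h2 : (evA U).f (r - (AA C).P r) = 0 := by rw [map_sub, h1, sub_self]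
  have h3 : v.f (l.act ((AA C).P r) p)
      = ((evA U).f r : Matrix (Fin 2) (Fin 2) U.B) * (v.f p : Matrix (Fin 2) Unit U.B) := by
    rw [hv, colA_act, h1]
  have h4 : v.f (l.act (r - (AA C).P r) (P.E p)) = 0 := by
    rw [hv, colA_act, h2]
    exact Matrix.zero_mul _
  rw [h3, h4, map_zero, add_zero]
  change ((q : Matrix Unit (Fin 2) U.B) * ((evA U).f r : Matrix (Fin 2) (Fin 2) U.B)
      * (v.f p : Matrix (Fin 2) Unit U.B)) () ()
    = ((q : Matrix Unit (Fin 2) U.B) * (((evA U).f r : Matrix (Fin 2) (Fin 2) U.B)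
      * (v.f p : Matrix (Fin 2) Unit U.B))) () ()
  rw [Matrix.mul_assoc]

/-- the augmentation -/
def eps (v : SD.Hom P (PU U)) (hv : l.IsHom (colA U Unit) v) : SD.Hom (HC (bPQ U l)) (BU U) :=
  tr0 (bPQ U l) (epsH U v) (epsH_comm U l v hv)

@[simp] theorem eps_nil (v : SD.Hom P (PU U)) (hv : l.IsHom (colA U Unit) v)
    (n : (P.tens (QU U)).V) : (eps U l v hv).f (Wd.nil n) = epsL U v n :=
  tr0_nil (bPQ U l) (epsH U v) (epsH_comm U l v hv) n

@[simp] theorem eps_snoc (v : SD.Hom P (PU U)) (hv : l.IsHom (colA U Unit) v)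
    (w : Wd k (P.tens (QU U)).V (AA C).V) (r : (AA C).V) :
    (eps U l v hv).f (Wd.snoc w r) = 0 :=
  tr0_snoc (bPQ U l) (epsH U v) (epsH_comm U l v hv) w r

/-! ### naturality -/

variable {l l' l''}

theorem bPQ_isHom {φ : SD.Hom P P'} (hφ : l.IsHom l' φ) :
    (bPQ U l).IsHom (bPQ U l') (φ.tens (SD.Hom.id (QU U))) :=
  tensLR_isHom hφ (fun _ _ => rfl)

/-- functoriality of `HC (P ⊗ Q_U)` -/
def hcT (φ : SD.Hom P P') (hφ : l.IsHom l' φ) : SD.Hom (HC (bPQ U l)) (HC (bPQ U l')) :=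
  hcN _ _ (φ.tens (SD.Hom.id (QU U))) (bPQ_isHom U hφ)

theorem hcT_QI {φ : SD.Hom P P'} (hφ : l.IsHom l' φ) (h : φ.QI) : (hcT U φ hφ).QI :=
  QI_hc _ _ _ (bPQ_isHom U hφ) (h.tensL (QU U))

theorem hcT_SES {φ : SD.Hom P P'} (hφ : l.IsHom l' φ) {ψ : SD.Hom P' P''} (hψ : l'.IsHom l'' ψ)
    (h : SD.SES φ ψ) : SD.SES (hcT U φ hφ) (hcT U ψ hψ) :=
  SES_hc _ _ _ _ (bPQ_isHom U hφ) _ (bPQ_isHom U hψ) (h.tensL (QU U))

/-- naturality of the augmentation, up to a factor `b` in the chart ring -/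
theorem eps_hcT (v : SD.Hom P (PU U)) (hv : l.IsHom (colA U Unit) v) (v' : SD.Hom P' (PU U))
    (hv' : l'.IsHom (colA U Unit) v') (φ : SD.Hom P P') (hφ : l.IsHom l' φ) (b : U.B)
    (h : ∀ p, (v'.f (φ.f p) : Matrix (Fin 2) Unit U.B) = b • (v.f p : Matrix (Fin 2) Unit U.B))
    (x : Wd k (P.tens (QU U)).V (AA C).V) :
    ((eps U l' v' hv').f ((hcT U φ hφ).f x) : U.B) = b * ((eps U l v hv).f x : U.B) := by
  refine Wd.ext_apply (f := (eps U l' v' hv').f ∘ₗ (hcT U φ hφ).f)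
    (g := (LinearMap.mulLeft k b) ∘ₗ (eps U l v hv).f) (fun n => ?_) (fun w _ r => ?_) x
  · refine tens_ext (f := (eps U l' v' hv').f ∘ₗ (hcT U φ hφ).f ∘ₗ Wd.nil)
      (g := (LinearMap.mulLeft k b) ∘ₗ (eps U l v hv).f ∘ₗ Wd.nil) (fun p q => ?_) n
    have h1 : (hcT U φ hφ).f (Wd.nil (p ⊗ₜ q)) = Wd.nil (φ.f p ⊗ₜ q) :=
      hcN_nil _ _ _ (bPQ_isHom U hφ) (p ⊗ₜ q)
    change ((eps U l' v' hv').f ((hcT U φ hφ).f (Wd.nil (p ⊗ₜ q))) : U.B)
      = b * ((eps U l v hv).f (Wd.nil (p ⊗ₜ q)) : U.B)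
    rw [h1, eps_nil, eps_nil, epsL_tmul, epsL_tmul, h]
    change ((q : Matrix Unit (Fin 2) U.B) * (b • (v.f p : Matrix (Fin 2) Unit U.B))) () ()
      = b * ((q : Matrix Unit (Fin 2) U.B) * (v.f p : Matrix (Fin 2) Unit U.B)) () ()
    rw [Matrix.mul_smul, Matrix.smul_apply, smul_eq_mul]
  · have h2 : (hcT U φ hφ).f (Wd.snoc w r) = Wd.snoc ((hcT U φ hφ).f w) r :=
      hcN_snoc _ _ _ (bPQ_isHom U hφ) w r
    change ((eps U l' v' hv').f ((hcT U φ hφ).f (Wd.snoc w r)) : U.B)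
      = b * ((eps U l v hv).f (Wd.snoc w r) : U.B)
    rw [h2, eps_snoc, eps_snoc]
    exact (mul_zero b).symm

/-- multiplication by a unit of the chart ring does not change the quasi-isomorphism property -/
theorem QI_of_mul {X : SD k} (f f' : SD.Hom X (BU U)) (b b' : U.B) (hb : b * b' = 1)
    (h : ∀ x, (f'.f x : U.B) = b * (f.f x : U.B)) (hf : f.QI) : f'.QI := by
  constructor
  · intro x y hx hxy
    refine hf.inj x 0 hx ?_
    have h1 : b * (f.f x : U.B) = 0 := by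
      rw [← h x]
      exact hxy
    have h2 : (f.f x : U.B) = b' * (b * (f.f x : U.B)) := by
      rw [← mul_assoc, mul_comm b' b, hb, one_mul]
    rw [h1, mul_zero] at h2
    exact h2
  · intro y _
    obtain ⟨x, z, hx, hz⟩ := hf.surj (b' * (y : U.B) : U.B) rfl
    have h1 : b' * (y : U.B) = (f.f x : U.B) := hz.trans (add_zero (f.f x : U.B))
    refine ⟨x, 0, hx, ?_⟩
    have h2 : (y : U.B) = (f'.f x : U.B) := by
      rw [h x, ← h1, ← mul_assoc, hb, one_mul]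
    exact h2.trans (add_zero (f'.f x : U.B)).symm

end H36.PX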