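import Pool.Agent.H36.PX.Base

/-!
# Exist : the ring of the curve exists

`AdjoinRoot` of the monic polynomial `W^pp - t^2 W - (t T^pp + t^2 T^(pp-1) + t^2)` over
`LaurentPolynomial k` (`k[T;T⁻¹]`).
-/

set_option autoImplicit false

namespace H36.PX

open H36.NX
open Polynomial LaurentPolynomial

/-- the equation of the curve over the Laurent polynomials -/
private noncomputable def exF (pp : ℕ) {k : Type} [Field k] (t : k) : (LaurentPolynomial k)[X] :=
  X ^ pp + (Polynomial.C (-(LaurentPolynomial.C (t ^ 2))) * X +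
    Polynomial.C (-(LaurentPolynomial.C t * T (pp : ℤ)
      + LaurentPolynomial.C (t ^ 2) * T ((pp - 1 : ℕ) : ℤ) + LaurentPolynomial.C (t ^ 2))))

private theorem exF_deg {pp : ℕ} (hp : 3 ≤ pp) {k : Type} [Field k] (t : k) :
    (Polynomial.C (-(LaurentPolynomial.C (t ^ 2))) * X +
    Polynomial.C (-(LaurentPolynomial.C t * T (pp : ℤ)
      + LaurentPolynomial.C (t ^ 2) * T ((pp - 1 : ℕ) : ℤ) +
      LaurentPolynomial.C (t ^ 2))) : (LaurentPolynomial k)[X]).degree < ((pp : ℕ) : WithBot ℕ) := by
  refine lt_of_le_of_lt (Polynomial.degree_linear_le) ?_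
  exact_mod_cast (by omega : 1 < pp)

private theorem exF_monic {pp : ℕ} (hp : 3 ≤ pp) {k : Type} [Field k] (t : k) : (exF pp t).Monic := by
  unfold exF
  exact Polynomial.monic_X_pow_add (exF_deg hp t)

private theorem exF_natDegree {pp : ℕ} (hp : 3 ≤ pp) {k : Type} [Field k] (t : k) :
    (exF pp t).natDegree = pp := by
  unfold exF
  exact Polynomial.natDegree_eq_of_degree_eq_some
    (by rw [Polynomial.degree_add_eq_left_of_degree_lt (by
          rw [Polynomial.degree_X_pow]; exact exF_deg hp t), Polynomial.degree_X_pow])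

private theorem exF_aeval {pp : ℕ} {k : Type} [Field k] (t : k) {S : Type} [CommRing S]
    [Algebra (LaurentPolynomial k) S] (r : S) :
    Polynomial.aeval r (exF pp t) = r ^ pp -
      (algebraMap (LaurentPolynomial k) S (LaurentPolynomial.C (t ^ 2)) * r +
        algebraMap (LaurentPolynomial k) S (LaurentPolynomial.C t) *
          algebraMap (LaurentPolynomial k) S (T (pp : ℤ)) +
        algebraMap (LaurentPolynomial k) S (LaurentPolynomial.C (t ^ 2)) *
          algebraMap (LaurentPolynomial k) S (T ((pp - 1 : ℕ) : ℤ)) +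
        algebraMap (LaurentPolynomial k) S (LaurentPolynomial.C (t ^ 2))) := by
  unfold exF
  simp only [map_add, map_neg, map_mul, Polynomial.aeval_C, Polynomial.aeval_X, map_pow]
  ring

theorem exists_pRing {pp : ℕ} (hp : 3 ≤ pp) (k : Type) [Field k] (t : k) :
    ∃ (R : Type) (_ : CommRing R) (_ : Algebra k R), Nonempty (PRing pp k t R) := by
  classical
  have hF := exF_monic hp t
  let A := LaurentPolynomial k
  let R := AdjoinRoot (exF pp t)
  let pb := AdjoinRoot.powerBasis' hF
  have hdim : pb.dim = pp := by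
    show (exF pp t).natDegree = pp
    exact exF_natDegree hp t
  let bA : Module.Basis ℤ k A := AddMonoidAlgebra.basis ℤ k
  let bR : Module.Basis (Fin pp) A R := pb.basis.reindex (finCongr hdim)
  let uA : Aˣ := ⟨T 1, T (-1), by rw [← T_add]; simp, by rw [← T_add]; simp⟩
  have huA : ∀ m : ℤ, ((uA ^ m : Aˣ) : A) = T m := by
    intro m
    induction m using Int.induction_on with
    | zero => simp
    | succ n ih => rw [zpow_add_one, Units.val_mul, ih, T_add]
    | pred n ih =>
      rw [zpow_sub_one, Units.val_mul, ih, show (-(n : ℤ) - 1) = -(n : ℤ) + (-1) by ring, T_add]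
      rfl
  have hbA : ∀ m : ℤ, bA m = T m := by
    intro m
    show AddMonoidAlgebra.basis ℤ k m = T m
    rw [AddMonoidAlgebra.basis_apply]
    rfl
  refine ⟨R, inferInstance, inferInstance, ⟨{
    hp := hp
    u := Units.map (algebraMap A R : A →* R) uA
    w := AdjoinRoot.root (exF pp t)
    bas := bA.smulTower bR
    bas_eq := ?_
    rel := ?_ }⟩⟩
  · intro m a
    rw [Module.Basis.smulTower_apply, hbA, Algebra.smul_def, ← huA m, ← map_zpow, Units.coe_map]
    congr 1
    simp [bR, pb]
  · have h := AdjoinRoot.isRoot_root (exF pp t)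
    have h2 : Polynomial.aeval (AdjoinRoot.root (exF pp t)) (exF pp t) = 0 := by
      rw [AdjoinRoot.aeval_eq, AdjoinRoot.mk_self]
    have hC : ∀ c : k, algebraMap A R (LaurentPolynomial.C c) = algebraMap k R c := by
      intro c
      rw [IsScalarTower.algebraMap_apply k A R, LaurentPolynomial.algebraMap_apply]
      rfl
    have hT : ∀ n : ℕ, algebraMap A R (T (n : ℤ)) = (algebraMap A R (T 1)) ^ n := by
      intro n
      rw [← map_pow, T_pow, mul_one]
    have hu : ((Units.map (algebraMap A R : A →* R) uA : Rˣ) : R) = algebraMap A R (T 1) := rfl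
    have h3 := hT pp
    have h4 := hT (pp - 1)
    rw [hu, ← h3, ← h4]
    rw [exF_aeval] at h2
    have h5 := hC (t ^ 2)
    have h6 := hC t
    rw [← h5, ← h6]
    exact sub_eq_zero.mp h2

end H36.PX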