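import Pool.Agent.H36.NX.HPd

/-!
# HPd : `dim HP₀ ∈ {1, 2}` is not zero in a field of characteristic at least three
-/

set_option autoImplicit false

noncomputable section

namespace H36.PX

open NC

variable {k : Type} [Field k]

/-- in characteristic `pp ≥ 3` a dimension 1 or 2 is not zero -/
theorem HP_zero_neP (pp : ℕ) (hp : 3 ≤ pp) (A : ZDGA k) [CharP k pp]
    (h : (HC A.toDGA.diag).FinH) (a b : (HC A.toDGA.diag).V)
    (ha : (HC A.toDGA.diag).D a = 0) (hb : (HC A.toDGA.diag).D b = 0)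
    (hab : ∀ x, (HC A.toDGA.diag).P x = x → (HC A.toDGA.diag).D x = 0 →
      ∃ c d : k, (HC A.toDGA.diag).Hml x (c • a + d • b)) (hne : ∃ x : A.HP 0, x ≠ 0) :
    ((Module.finrank k (A.HP 0) : ℕ) : k) ≠ 0 := by
  obtain ⟨h1, h2⟩ := HP_zero_le_two A h a b ha hb hab
  obtain ⟨x, hx⟩ := hne
  have hnt : Nontrivial (A.HP 0) := ⟨x, 0, hx⟩
  have h3 : 0 < Module.finrank k (A.HP 0) := Module.finrank_pos
  intro h0
  have h4 := Nat.le_of_dvd h3 ((CharP.cast_eq_zero_iff k pp (Module.finrank k (A.HP 0))).1 h0)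
  omega

end H36.PX
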