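import Pool.Agent.H36.PX.AAz
import Pool.Agent.H94.NC.HPnz

/-!
# HPz : `HP₀ ≠ 0` for the dg algebra of the example

The trace functional is the trace of the component on the chart `x ≠ 0`, the idempotent is `E_00`.
-/

set_option autoImplicit false

open NC

namespace H36.PX

open H36.NX
variable {pp : ℕ} {k : Type} [Field k] {t : k} {R : Type} [CommRing R] [Algebra k R]

private theorem HPz_add (C : PRing pp k t R) (a b : (AA C).V) :
    (av C (a + b) Pc.X).trace = (av C a Pc.X).trace + (av C b Pc.X).trace := by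
  rw [map_add, Pi.add_apply, Matrix.trace_add]

private theorem HPz_smul (C : PRing pp k t R) (c : k) (a : (AA C).V) :
    (av C (c • a) Pc.X).trace = c • (av C a Pc.X).trace := by
  rw [map_smul, Pi.smul_apply, Matrix.trace_smul]

/-- trace of the component on the chart `x ≠ 0` -/
noncomputable def tauA (C : PRing pp k t R) : (AAz C).V →ₗ[k] R where
  toFun a := (av C a Pc.X).trace
  map_add' a b := HPz_add C a b
  map_smul' c a := HPz_smul C c a

private theorem HPz_tau (C : PRing pp k t R) (a : (AA C).V) :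
    tauA C a = (av C a Pc.X).trace := rfl

private theorem HPz_mul (C : PRing pp k t R) (a b : (AA C).V) :
    av C ((AA C).mul a b) Pc.X = av C a Pc.X * av C b Pc.X := by
  change av C (a * b) Pc.X = _
  rw [av_mul, cMul_X, matMul_apply]

private theorem HPz_odd (C : PRing pp k t R) (a : (AA C).V) (h : (AA C).P a = 0) :
    av C a Pc.X = 0 := by
  have h1 := congrFun (congrArg (av C) h) Pc.X
  rw [av_P, cP_X, map_zero] at h1
  exact h1

theorem trF_tauA (C : PRing pp k t R) : TrF (AAz C).toDGA (tauA C) := by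
  refine ⟨fun a => ?_, fun a => ?_, fun a b _ _ => ?_, fun a b ha _ => ?_⟩
  · change (av C ((AA C).D a) Pc.X).trace = 0
    rw [av_D, cD_X, Matrix.trace_zero]
  · change (av C ((AA C).P a) Pc.X).trace = (av C a Pc.X).trace
    rw [av_P, cP_X]
  · change (av C ((AA C).mul a b) Pc.X).trace = (av C ((AA C).mul b a) Pc.X).trace
    rw [HPz_mul, HPz_mul, Matrix.trace_mul_comm]
  · have h0 : (AA C).P a = 0 := by
      have h1 : (AA C).P a = (if true = true then 0 else a) := ha
      exact h1.trans (if_pos rfl)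
    change (av C ((AA C).mul a b) Pc.X).trace = - (av C ((AA C).mul b a) Pc.X).trace
    rw [HPz_mul, HPz_mul, HPz_odd C a h0, Matrix.zero_mul, Matrix.mul_zero, Matrix.trace_zero,
      neg_zero]

/-- the Čech matrix `E_00` -/
def e00 (R : Type) [CommRing R] : Pc → Matrix (Fin 2) (Fin 2) R
  | Pc.X => Matrix.single 0 0 1
  | Pc.Y => Matrix.single 0 0 1
  | Pc.R => 0

theorem e00_mem (C : PRing pp k t R) : e00 R ∈ QQ C wt wt := by
  have key : ∀ (s : Pc) (i j : Fin 2),
      (Matrix.single (0 : Fin 2) (0 : Fin 2) (1 : R)) i j ∈ C.pc s (wt j - wt i) := by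
    intro s i j
    rw [Matrix.single_apply]
    split
    · next h =>
      obtain ⟨h1, h2⟩ := h
      subst h1
      subst h2
      exact C.one_mem_pc _ (by simp)
    · exact Submodule.zero_mem _
  intro s i j
  cases s with
  | X => exact key Pc.X i j
  | Y => exact key Pc.Y i j
  | R => exact Submodule.mem_top

/-- the idempotent of the object `O` -/
noncomputable def eA (C : PRing pp k t R) : (AAz C).V := amk C (e00 R) (e00_mem C)

private theorem HPz_av_e (C : PRing pp k t R) : av C (eA C) = e00 R := rfl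

theorem eA_gr (C : PRing pp k t R) : eA C ∈ (AAz C).gr 0 := by
  exact (mem_agr_zero_iff C (amk C (e00 R) (e00_mem C))).2 rfl

private theorem HPz_ee (C : PRing pp k t R) :
    amk C (e00 R) (e00_mem C) * amk C (e00 R) (e00_mem C) = amk C (e00 R) (e00_mem C) := by
  refine a_ext C ?_
  rw [av_mul, av_amk]
  funext s
  cases s with
  | X =>
    rw [cMul_X, matMul_apply]
    change Matrix.single (0 : Fin 2) (0 : Fin 2) (1 : R) * Matrix.single 0 0 1 = Matrix.single 0 0 1
    rw [Matrix.single_mul_single_same, mul_one]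
  | Y =>
    rw [cMul_Y, matMul_apply]
    change Matrix.single (0 : Fin 2) (0 : Fin 2) (1 : R) * Matrix.single 0 0 1 = Matrix.single 0 0 1
    rw [Matrix.single_mul_single_same, mul_one]
  | R =>
    rw [cMul_R, matMul_apply, matMul_apply]
    change _ * (0 : Matrix (Fin 2) (Fin 2) R) + (0 : Matrix (Fin 2) (Fin 2) R) * _ = 0
    rw [Matrix.mul_zero, Matrix.zero_mul, add_zero]

theorem eA_mul (C : PRing pp k t R) : (AAz C).mul (eA C) (eA C) = eA C := HPz_ee C

theorem eA_D (C : PRing pp k t R) : (AAz C).D (eA C) = 0 := by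
  change (AA C).D (eA C) = 0
  refine a_ext C ?_
  rw [av_D, HPz_av_e, map_zero]
  funext s
  cases s with
  | X => rfl
  | Y => rfl
  | R =>
    rw [cD_R]
    change Matrix.single (0 : Fin 2) (0 : Fin 2) (1 : R) - Matrix.single 0 0 1 = 0
    exact sub_self _

theorem tauA_eA (C : PRing pp k t R) : tauA C (eA C) = 1 := by
  change (av C (eA C) Pc.X).trace = 1
  rw [HPz_av_e]
  change (Matrix.single (0 : Fin 2) (0 : Fin 2) (1 : R)).trace = 1
  rw [Matrix.trace_single_eq_same]

theorem AAz_HP_ne_zero (C : PRing pp k t R) [Nontrivial R] : ∃ x : (AAz C).HP 0, x ≠ 0 :=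
  HP_ne_zero (AAz C) (tauA C) (trF_tauA C) (eA C) (eA_gr C) (eA_mul C) (eA_D C)
    (by rw [tauA_eA]; exact one_ne_zero)

end H36.PX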