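import Pool.Agent.H36.PX.EvC
import Pool.Agent.H16.NC.HC

/-!
# FUc : the standard cycles `gU b` (even) and `zU b` (odd) of `HC (NC_U)`
-/

set_option autoImplicit false

open NC
open scoped TensorProduct

noncomputable section

namespace H36.PX

open H36.NX
variable {pp : ℕ} {k : Type} [Field k] {t : k} {R : Type} [CommRing R] [Algebra k R]
  {F : Type} [Field F] [Algebra k F] {I J : Type}

/-- constant Čech matrix -/
def cst {S : Type} [Zero S] (M : S) : Pc → S
  | Pc.X => M
  | Pc.Y => M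
  | Pc.R => 0

@[simp] theorem cst_X {S : Type} [Zero S] (M : S) : cst M Pc.X = M := rfl
@[simp] theorem cst_Y {S : Type} [Zero S] (M : S) : cst M Pc.Y = M := rfl
@[simp] theorem cst_R {S : Type} [Zero S] (M : S) : cst M Pc.R = 0 := rfl

private theorem secA_mem (C : PRing pp k t R) (r : R) (h : ∀ s : Pc, r ∈ C.pc s 1) :
    cst (Matrix.single (0 : Fin 2) (1 : Fin 2) r) ∈ QQ C wt wt := by
  have key : ∀ (s : Pc) (i l : Fin 2),
      Matrix.single (0 : Fin 2) (1 : Fin 2) r i l ∈ C.pc s (wt l - wt i) := by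
    intro s i l
    rw [Matrix.single_apply]
    split_ifs with h1
    · obtain ⟨rfl, rfl⟩ := h1
      have h2 : wt 1 - wt 0 = 1 := by simp [wt]
      rw [h2]
      exact h s
    · exact (C.pc s _).zero_mem
  intro s i l
  cases s with
  | X => exact key Pc.X i l
  | Y => exact key Pc.Y i l
  | R => exact (C.pc Pc.R _).zero_mem

/-- the section `r` of `O(1)` as an element of `AA C`, entry `(0, 1)` -/
def secA (C : PRing pp k t R) (r : R) (h : ∀ s : Pc, r ∈ C.pc s 1) : (AA C).V :=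
  qmk C wt wt (cst (Matrix.single 0 1 r)) (by
    exact secA_mem C r h)

theorem qv_secA (C : PRing pp k t R) (r : R) (h : ∀ s : Pc, r ∈ C.pc s 1) :
    qv C wt wt (secA C r h) = cst (Matrix.single 0 1 r) := rfl

variable {C : PRing pp k t R} {j : R →ₐ[k] F} (U : Cht C j)

theorem const_mem (n : ℤ) (b : U.B) : U.g ^ n * (b : F) ∈ U.T.S Pc.X n ∧
    U.g ^ n * (b : F) ∈ U.T.S Pc.Y n := by
  have h1 : U.g ^ n * (b : F) ∈ U.T.S U.e n := by
    rw [U.hB]
    have h2 : U.g ^ (-n) * (U.g ^ n * (b : F)) = (b : F) := by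
      rw [← mul_assoc, ← zpow_add₀ U.g0, neg_add_cancel, zpow_zero, one_mul]
    rw [h2]
    exact b.2
  have h2 : U.g ^ n * (b : F) ∈ U.T.S U.e' n := U.hac n (U.T.le U.e n h1)
  rcases U.he with ⟨he, he'⟩ | ⟨he, he'⟩
  · rw [he] at h1
    rw [he'] at h2
    exact ⟨h1, h2⟩
  · rw [he] at h1
    rw [he'] at h2
    exact ⟨h2, h1⟩

private theorem fc_mem (i l : Fin 2) (b : U.B) :
    cst (Matrix.single i l (U.g ^ (wt l - wt i) * (b : F))) ∈ FQ U.T.S wt wt := by
  have key : ∀ s : Pc, (∀ n : ℤ, U.g ^ n * (b : F) ∈ U.T.S s n) → ∀ (i' l' : Fin 2),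
      Matrix.single i l (U.g ^ (wt l - wt i) * (b : F)) i' l' ∈ U.T.S s (wt l' - wt i') := by
    intro s hs i' l'
    rw [Matrix.single_apply]
    split_ifs with h1
    · obtain ⟨rfl, rfl⟩ := h1
      exact hs _
    · exact (U.T.S s _).zero_mem
  intro s i' l'
  cases s with
  | X => exact key Pc.X (fun n => (const_mem U n b).1) i' l'
  | Y => exact key Pc.Y (fun n => (const_mem U n b).2) i' l'
  | R => exact (U.T.S Pc.R _).zero_mem

/-- constant Čech matrix with the entry `g^(l - i) b` at `(i, l)` -/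
def fc (i l : Fin 2) : U.B →ₗ[k] (fSD U.T wt wt).V where
  toFun b := fmk U.T wt wt (cst (Matrix.single i l (U.g ^ (wt l - wt i) * (b : F)))) (by
    exact fc_mem U i l b)
  map_add' := by
    intro b b'
    refine f_ext U.T ?_
    change cst (Matrix.single i l (U.g ^ (wt l - wt i) * ((b + b' : U.B) : F)))
      = cst (Matrix.single i l (U.g ^ (wt l - wt i) * (b : F)))
        + cst (Matrix.single i l (U.g ^ (wt l - wt i) * (b' : F)))
    funext s
    have h1 : Matrix.single i l (U.g ^ (wt l - wt i) * ((b + b' : U.B) : F))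
        = Matrix.single i l (U.g ^ (wt l - wt i) * (b : F))
          + Matrix.single i l (U.g ^ (wt l - wt i) * (b' : F)) := by
      rw [← Matrix.single_add, ← mul_add]
      rfl
    cases s with
    | X => exact h1
    | Y => exact h1
    | R => exact (add_zero _).symm
  map_smul' := by
    intro c b
    refine f_ext U.T ?_
    change cst (Matrix.single i l (U.g ^ (wt l - wt i) * ((c • b : U.B) : F)))
      = c • cst (Matrix.single i l (U.g ^ (wt l - wt i) * (b : F)))
    funext s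
    have h1 : Matrix.single i l (U.g ^ (wt l - wt i) * ((c • b : U.B) : F))
        = c • Matrix.single i l (U.g ^ (wt l - wt i) * (b : F)) := by
      rw [Matrix.smul_single, ← mul_smul_comm]
      rfl
    cases s with
    | X => exact h1
    | Y => exact h1
    | R => exact (smul_zero (A := Matrix (Fin 2) (Fin 2) F) c).symm

theorem fv_fc (i l : Fin 2) (b : U.B) :
    fv U.T wt wt (fc U i l b) = cst (Matrix.single i l (U.g ^ (wt l - wt i) * (b : F))) := rfl

/-- the even cycles -/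
def gU : U.B →ₗ[k] (HC (fBi U.T)).V := Wd.nil ∘ₗ fc U 0 0

/-- the odd cycles -/
def zU : U.B →ₗ[k] (HC (fBi U.T)).V :=
  (Wd.snoc.flip (secA C U.s1 U.hs1)) ∘ₗ Wd.nil ∘ₗ fc U 1 0
    - (Wd.snoc.flip (secA C U.s0 U.hs0)) ∘ₗ Wd.nil ∘ₗ fc U 1 0 ∘ₗ
      LinearMap.mulRight k (⟨U.c, U.cB⟩ : U.B)

theorem gU_apply (b : U.B) : gU U b = Wd.nil (fc U 0 0 b) := rfl

theorem zU_apply (b : U.B) : zU U b = Wd.snoc (Wd.nil (fc U 1 0 b)) (secA C U.s1 U.hs1)
    - Wd.snoc (Wd.nil (fc U 1 0 (b * ⟨U.c, U.cB⟩))) (secA C U.s0 U.hs0) := rfl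

private theorem cP_cst {S : Type} [AddCommGroup S] [Module k S] (M : S) :
    cP k S (cst M) = cst M := by
  funext s
  cases s <;> rfl

private theorem cD_cst {S : Type} [AddCommGroup S] [Module k S] (M : S) :
    cD k S (cst M) = 0 := by
  funext s
  cases s with
  | X => rfl
  | Y => rfl
  | R => exact sub_self M

private theorem cMul_cst {S T N : Type} [AddCommGroup S] [Module k S] [AddCommGroup T]
    [Module k T] [AddCommGroup N] [Module k N] (m : S →ₗ[k] T →ₗ[k] N) (a : S) (b : T) :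
    cMul k m (cst a) (cst b) = cst (m a b) := by
  funext s
  cases s with
  | X => rfl
  | Y => rfl
  | R =>
    rw [cMul_R, cst_X, cst_R, cst_R, cst_Y, cst_R, map_zero, map_zero, LinearMap.zero_apply,
      add_zero]

private theorem fc_P (i l : Fin 2) (b : U.B) : (fSD U.T wt wt).P (fc U i l b) = fc U i l b :=
  f_ext U.T (by rw [fv_P, fv_fc, cP_cst])

private theorem fc_D (i l : Fin 2) (b : U.B) : (fSD U.T wt wt).D (fc U i l b) = 0 :=
  f_ext U.T (by rw [fv_D, fv_fc, cD_cst, map_zero])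

private theorem fc_E (i l : Fin 2) (b : U.B) : (fSD U.T wt wt).E (fc U i l b) = fc U i l b := by
  rw [SD.E_apply, fc_P, add_sub_cancel_right]

private theorem secA_P (C : PRing pp k t R) (r : R) (h : ∀ s : Pc, r ∈ C.pc s 1) :
    (AA C).P (secA C r h) = secA C r h :=
  q_ext C (by
    change cP k _ (qv C wt wt (secA C r h)) = _
    rw [qv_secA, cP_cst])

private theorem secA_D (C : PRing pp k t R) (r : R) (h : ∀ s : Pc, r ∈ C.pc s 1) :
    (AA C).D (secA C r h) = 0 :=
  q_ext C (by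
    change cD k _ (qv C wt wt (secA C r h)) = _
    rw [qv_secA, cD_cst]
    exact (map_zero (qv C wt wt)).symm)

private theorem secA_E (C : PRing pp k t R) (r : R) (h : ∀ s : Pc, r ∈ C.pc s 1) :
    (AA C).E (secA C r h) = secA C r h := by
  rw [SD.E_apply, secA_P, add_sub_cancel_right]

theorem gU_P (b : U.B) : (HC (fBi U.T)).P (gU U b) = gU U b := by
  rw [gU_apply]
  change PW (fSD U.T wt wt) (AA C).toSD (Wd.nil (fc U 0 0 b)) = _
  rw [PW_nil, fc_P]

theorem gU_D (b : U.B) : (HC (fBi U.T)).D (gU U b) = 0 := by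
  rw [gU_apply]
  change hcD (fBi U.T) (Wd.nil (fc U 0 0 b)) = _
  rw [hcD_nil, fc_D, map_zero]

private theorem zz_P (b : U.B) (r : R) (h : ∀ s : Pc, r ∈ C.pc s 1) :
    (HC (fBi U.T)).P (Wd.snoc (Wd.nil (fc U 1 0 b)) (secA C r h)) = 0 := by
  change PW (fSD U.T wt wt) (AA C).toSD (Wd.snoc (Wd.nil (fc U 1 0 b)) (secA C r h)) = 0
  rw [PW_snoc, PW_nil, fc_P]
  have h1 : (AA C).toSD.P (secA C r h) = secA C r h := secA_P C r h
  have h2 : (AA C).toSD.E (secA C r h) = secA C r h := secA_E C r h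
  rw [h1, h2, sub_self]

theorem zU_P (b : U.B) : (HC (fBi U.T)).P (zU U b) = 0 := by
  rw [zU_apply, map_sub, zz_P, zz_P, sub_self]

private theorem zz_D (b : U.B) (r : R) (h : ∀ s : Pc, r ∈ C.pc s 1) :
    (HC (fBi U.T)).D (Wd.snoc (Wd.nil (fc U 1 0 b)) (secA C r h)) =
      Wd.nil ((fRA U.T wt).act (fc U 1 0 b) (secA C r h))
        - Wd.nil ((fLA U.T wt).act (secA C r h) (fc U 1 0 b)) := by
  change hcD (fBi U.T) (Wd.snoc (Wd.nil (fc U 1 0 b)) (secA C r h)) = _
  have h1 : (AA C).P (secA C r h) = secA C r h := secA_P C r h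
  have h2 : (AA C).D (secA C r h) = 0 := secA_D C r h
  rw [hcD_snoc, Db_nil, fc_D, EW_nil, fc_E, h1, h2]
  rw [map_zero, map_zero, LinearMap.zero_apply, map_zero, sub_self (secA C r h), map_zero,
    LinearMap.zero_apply, sub_zero, sub_zero, zero_add, tl_nil, hd_nil]
  rfl

theorem zU_D (b : U.B) : (HC (fBi U.T)).D (zU U b) = 0 := by
  rw [zU_apply, map_sub, zz_D, zz_D]
  have hw : wt 0 - wt 1 = -1 := by simp [wt]
  have e1 : (fRA U.T wt).act (fc U 1 0 b) (secA C U.s1 U.hs1)
      = (fRA U.T wt).act (fc U 1 0 (b * ⟨U.c, U.cB⟩)) (secA C U.s0 U.hs0) :=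
    f_ext U.T (by
      rw [fv_fRA, fv_fRA, fv_fc, fv_fc, qv_secA, qv_secA, cMul_cst, cMul_cst, matR_apply,
        matR_apply, Matrix.map_single, Matrix.map_single, Matrix.single_mul_single_same,
        Matrix.single_mul_single_same, U.js0, U.js1, hw]
      congr 2
      change U.g ^ (-1 : ℤ) * (b : F) * (U.g * U.c) = U.g ^ (-1 : ℤ) * ((b : F) * U.c) * U.g
      ring)
  have e2 : (fLA U.T wt).act (secA C U.s1 U.hs1) (fc U 1 0 b)
      = (fLA U.T wt).act (secA C U.s0 U.hs0) (fc U 1 0 (b * ⟨U.c, U.cB⟩)) :=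
    f_ext U.T (by
      rw [fv_fLA, fv_fLA, fv_fc, fv_fc, qv_secA, qv_secA, cMul_cst, cMul_cst, matL_apply,
        matL_apply, Matrix.map_single, Matrix.map_single, Matrix.single_mul_single_same,
        Matrix.single_mul_single_same, U.js0, U.js1, hw]
      congr 2
      change U.g * U.c * (U.g ^ (-1 : ℤ) * (b : F)) = U.g * (U.g ^ (-1 : ℤ) * ((b : F) * U.c))
      ring)
  rw [e1, e2, sub_self]

end H36.PX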