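import Pool.Agent.H36.PX.Chart

/-!
# Sep : the three chart rings are étale over a line

`SepOver k B c`: `B ⊗ B` has no torsion for `c ⊗ 1 - 1 ⊗ c`, and `B` is separable over `k[c]`.

(inj) If `∑ b_i ⊗ b'_i` (both families linearly independent over `k`) is killed by `c ⊗ 1 - 1 ⊗ c`, then the span of
the `b_i` is a finite dimensional space stable by `c`; so `p(c) = 0` for some `p ≠ 0` (`B` a domain), absurd.
(idem) For `B = k[u,w]` and its localisations: `e = - t^(-2) (w^2 ⊗ 1 + w ⊗ w + 1 ⊗ w^2 - t^2)`. For `RV` and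
`c = w' = w/u`: `F(v) = v^3 + w' v^2 + v + (t - w'^3) / t^2 = 0`,
`e = (s^(-1) ⊗ 1) (v^2 ⊗ 1 + v ⊗ v + 1 ⊗ v^2 + (w' ⊗ 1) (v ⊗ 1 + 1 ⊗ v) + 1 ⊗ 1)`.
The elements `b` with `(b ⊗ 1 - 1 ⊗ b) e ∈ (c ⊗ 1 - 1 ⊗ c)` are a subalgebra, stable by inverses.
-/

set_option autoImplicit false

open scoped TensorProduct

namespace H36.PX

open H36.NX
/-- `B` is flat and étale over `k[c]` (the two facts that are used) -/
structure SepOver (k : Type) [Field k] (B : Type) [CommRing B] [Algebra k B] (c : B) : Prop where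
  inj : ∀ z : B ⊗[k] B, (c ⊗ₜ[k] (1 : B) - (1 : B) ⊗ₜ[k] c) * z = 0 → z = 0
  idem : ∃ e : B ⊗[k] B, Algebra.TensorProduct.lmul' (S := B) k e = 1 ∧
    ∀ b : B, ∃ z : B ⊗[k] B,
      (b ⊗ₜ[k] (1 : B) - (1 : B) ⊗ₜ[k] b) * e = (c ⊗ₜ[k] (1 : B) - (1 : B) ⊗ₜ[k] c) * z

/-- contraction of the second factor -/
private noncomputable def sepT (k : Type) [Field k] (B : Type) [CommRing B] [Algebra k B]
    (z : B ⊗[k] B) : Module.Dual k B →ₗ[k] B :=
  ((TensorProduct.rid k B).toLinearMap ∘ₗ LinearMap.applyₗ z) ∘ₗ LinearMap.lTensorHom B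

private theorem sepT_tmul (k : Type) [Field k] (B : Type) [CommRing B] [Algebra k B]
    (x y : B) (f : Module.Dual k B) : sepT k B (x ⊗ₜ[k] y) f = f y • x := by
  simp [sepT]

private theorem sepT_add (k : Type) [Field k] (B : Type) [CommRing B] [Algebra k B]
    (z z' : B ⊗[k] B) (f : Module.Dual k B) :
    sepT k B (z + z') f = sepT k B z f + sepT k B z' f := by
  simp [sepT]

private theorem sepT_zero (k : Type) [Field k] (B : Type) [CommRing B] [Algebra k B]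
    (f : Module.Dual k B) : sepT k B 0 f = 0 := by
  simp [sepT]

private theorem sepT_left (k : Type) [Field k] (B : Type) [CommRing B] [Algebra k B] (c : B)
    (z : B ⊗[k] B) (f : Module.Dual k B) :
    sepT k B ((c ⊗ₜ[k] (1 : B)) * z) f = c * sepT k B z f := by
  induction z using TensorProduct.induction_on with
  | zero => simp [sepT_zero]
  | tmul x y => simp [sepT_tmul, Algebra.TensorProduct.tmul_mul_tmul]
  | add z z' h h' => rw [mul_add, sepT_add, sepT_add, h, h', mul_add]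

private theorem sepT_right (k : Type) [Field k] (B : Type) [CommRing B] [Algebra k B] (c : B)
    (z : B ⊗[k] B) (f : Module.Dual k B) :
    sepT k B (((1 : B) ⊗ₜ[k] c) * z) f = sepT k B z (f ∘ₗ LinearMap.mulLeft k c) := by
  induction z using TensorProduct.induction_on with
  | zero => simp [sepT_zero]
  | tmul x y => simp [sepT_tmul, Algebra.TensorProduct.tmul_mul_tmul]
  | add z z' h h' => rw [mul_add, sepT_add, sepT_add, h, h']

private theorem sepT_ne (k : Type) [Field k] (B : Type) [CommRing B] [Algebra k B]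
    (z : B ⊗[k] B) (hz : z ≠ 0) : ∃ f, sepT k B z f ≠ 0 := by
  classical
  let b := Module.Basis.ofVectorSpace k B
  by_contra hcon
  push Not at hcon
  apply hz
  apply (TensorProduct.equivFinsuppOfBasisRight (M := B) b).injective
  rw [map_zero]
  ext i
  have key : ∀ z : B ⊗[k] B, (TensorProduct.equivFinsuppOfBasisRight (M := B) b) z i
      = sepT k B z (b.coord i) := by
    intro z
    induction z using TensorProduct.induction_on with
    | zero => simp [sepT_zero]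
    | tmul x y => simp [sepT_tmul]
    | add z z' h h' => rw [map_add, Finsupp.add_apply, sepT_add, h, h']
  rw [key, hcon]
  rfl

private theorem sepT_fg (k : Type) [Field k] (B : Type) [CommRing B] [Algebra k B]
    (z : B ⊗[k] B) : ∃ S : Finset B, LinearMap.range (sepT k B z) ≤ Submodule.span k (S : Set B) := by
  classical
  induction z using TensorProduct.induction_on with
  | zero =>
    refine ⟨∅, ?_⟩
    rintro x ⟨f, rfl⟩
    simp [sepT_zero]
  | tmul x y =>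
    refine ⟨{x}, ?_⟩
    rintro _ ⟨f, rfl⟩
    rw [sepT_tmul]
    exact Submodule.smul_mem _ _ (Submodule.subset_span (by simp))
  | add z z' h h' =>
    obtain ⟨S, hS⟩ := h
    obtain ⟨S', hS'⟩ := h'
    refine ⟨S ∪ S', ?_⟩
    rintro _ ⟨f, rfl⟩
    rw [sepT_add]
    refine Submodule.add_mem _ (Submodule.span_mono (by simp) (hS ⟨f, rfl⟩))
      (Submodule.span_mono (by simp) (hS' ⟨f, rfl⟩))

theorem sepOver_inj (k : Type) [Field k] (B : Type) [CommRing B] [IsDomain B] [Algebra k B] (c : B)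
    (hc : Transcendental k c) (z : B ⊗[k] B)
    (h : (c ⊗ₜ[k] (1 : B) - (1 : B) ⊗ₜ[k] c) * z = 0) : z = 0 := by
  by_contra hz
  apply hc
  obtain ⟨f, hf⟩ := sepT_ne k B z hz
  have hN : LinearMap.range (sepT k B z) ≠ ⊥ := by
    intro h0
    apply hf
    have : sepT k B z f ∈ LinearMap.range (sepT k B z) := ⟨f, rfl⟩
    rw [h0] at this
    simpa using this
  obtain ⟨S, hS⟩ := sepT_fg k B z
  have hfg : (LinearMap.range (sepT k B z)).FG := by
    have : FiniteDimensional k (Submodule.span k (S : Set B)) :=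
      FiniteDimensional.span_finset k S
    have := Submodule.finiteDimensional_of_le hS
    exact Module.Finite.iff_fg.mp this
  have hint : IsIntegral k c := by
    refine isIntegral_of_smul_mem_submodule (LinearMap.range (sepT k B z)) hN hfg c ?_
    rintro _ ⟨g, rfl⟩
    rw [sub_mul, sub_eq_zero] at h
    rw [smul_eq_mul, ← sepT_left, h, sepT_right]
    exact ⟨_, rfl⟩
  exact hint.isAlgebraic

/-- the elements good for `e` are a subalgebra -/
theorem sepOver_adjoin (k : Type) [Field k] (B : Type) [CommRing B] [Algebra k B] (c : B)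
    (e : B ⊗[k] B) (S : Set B) (hS : Algebra.adjoin k S = ⊤)
    (h : ∀ b ∈ S, ∃ z : B ⊗[k] B,
      (b ⊗ₜ[k] (1 : B) - (1 : B) ⊗ₜ[k] b) * e = (c ⊗ₜ[k] (1 : B) - (1 : B) ⊗ₜ[k] c) * z) (b : B) :
    ∃ z : B ⊗[k] B,
      (b ⊗ₜ[k] (1 : B) - (1 : B) ⊗ₜ[k] b) * e = (c ⊗ₜ[k] (1 : B) - (1 : B) ⊗ₜ[k] c) * z := by
  have hb : b ∈ Algebra.adjoin k S := by rw [hS]; exact Algebra.mem_top
  induction hb using Algebra.adjoin_induction with
  | mem x hx => exact h x hx
  | algebraMap r =>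
    refine ⟨0, ?_⟩
    have : (algebraMap k B r) ⊗ₜ[k] (1 : B) = (1 : B) ⊗ₜ[k] (algebraMap k B r) := by
      rw [Algebra.algebraMap_eq_smul_one, TensorProduct.smul_tmul]
    rw [this, sub_self, zero_mul, mul_zero]
  | add x y _ _ hx hy =>
    obtain ⟨z, hz⟩ := hx
    obtain ⟨z', hz'⟩ := hy
    refine ⟨z + z', ?_⟩
    rw [mul_add, ← hz, ← hz', TensorProduct.add_tmul, TensorProduct.tmul_add]
    ring
  | mul x y _ _ hx hy =>
    obtain ⟨z, hz⟩ := hx
    obtain ⟨z', hz'⟩ := hy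
    refine ⟨(x ⊗ₜ[k] (1 : B)) * z' + ((1 : B) ⊗ₜ[k] y) * z, ?_⟩
    have e1 : (x * y) ⊗ₜ[k] (1 : B) = (x ⊗ₜ[k] (1 : B)) * (y ⊗ₜ[k] (1 : B)) := by
      rw [Algebra.TensorProduct.tmul_mul_tmul, one_mul]
    have e2 : (1 : B) ⊗ₜ[k] (x * y) = ((1 : B) ⊗ₜ[k] x) * ((1 : B) ⊗ₜ[k] y) := by
      rw [Algebra.TensorProduct.tmul_mul_tmul, one_mul]
    rw [e1, e2]
    linear_combination (x ⊗ₜ[k] (1 : B)) * hz' + ((1 : B) ⊗ₜ[k] y) * hz

/-- and stable by inverses -/
theorem sepOver_inv (k : Type) [Field k] (B : Type) [CommRing B] [Algebra k B] (c : B)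
    (e : B ⊗[k] B) (b b' : B) (hb : b * b' = 1)
    (h : ∃ z : B ⊗[k] B,
      (b ⊗ₜ[k] (1 : B) - (1 : B) ⊗ₜ[k] b) * e = (c ⊗ₜ[k] (1 : B) - (1 : B) ⊗ₜ[k] c) * z) :
    ∃ z : B ⊗[k] B,
      (b' ⊗ₜ[k] (1 : B) - (1 : B) ⊗ₜ[k] b') * e = (c ⊗ₜ[k] (1 : B) - (1 : B) ⊗ₜ[k] c) * z := by
  obtain ⟨z, hz⟩ := h
  refine ⟨-(b' ⊗ₜ[k] b') * z, ?_⟩
  have e1 : (b' ⊗ₜ[k] (1 : B)) - (1 : B) ⊗ₜ[k] b'
      = -(b' ⊗ₜ[k] b') * (b ⊗ₜ[k] (1 : B) - (1 : B) ⊗ₜ[k] b) := by
    rw [mul_sub, neg_mul, neg_mul, Algebra.TensorProduct.tmul_mul_tmul,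
      Algebra.TensorProduct.tmul_mul_tmul, mul_comm b' b, hb, mul_one]
    ring
  rw [e1, mul_assoc, hz]
  ring

end H36.PX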