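import Pool.Agent.H36.PX.ClU
import Pool.Agent.H36.PX.FUc
import Pool.Agent.H36.PX.SepM

/-!
# FU : all cycles of `HC (NC_U)`, for a chart `U`

Even cycles are homologous to `gU b = nil (b E_00)`, odd cycles to `zU b`.
-/

set_option autoImplicit false

open NC
open scoped TensorProduct

noncomputable section

namespace H36.PX

open H36.NX
variable {pp : ℕ} {k : Type} [Field k] {t : k} {R : Type} [CommRing R] [Algebra k R]
  {F : Type} [Field F] [Algebra k F] {C : PRing pp k t R} {j : R →ₐ[k] F} (U : Cht C j)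

/-! ### the cycles for the bimodule of matrices -/

/-- the even cycles of `HC (P_U ⊗ Q_U)` -/
def gP (b : U.B) : (HC (bPQ U (colA U Unit))).V :=
  Wd.nil ((Matrix.single 0 () b : Matrix (Fin 2) Unit U.B) ⊗ₜ[k]
    (Matrix.single () 0 1 : Matrix Unit (Fin 2) U.B))

/-- an odd element with differential `(c ⊗ 1 - 1 ⊗ c) gP b` -/
def zP (b : U.B) : (HC (bPQ U (colA U Unit))).V :=
  Wd.snoc (Wd.nil ((Matrix.single 1 () b : Matrix (Fin 2) Unit U.B) ⊗ₜ[k]
      (Matrix.single () 0 ⟨U.c, U.cB⟩ : Matrix Unit (Fin 2) U.B))) (secA C U.s0 U.hs0)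
  - Wd.snoc (Wd.nil ((Matrix.single 1 () b : Matrix (Fin 2) Unit U.B) ⊗ₜ[k]
      (Matrix.single () 0 1 : Matrix Unit (Fin 2) U.B))) (secA C U.s1 U.hs1)

/-- the piece of a constant Čech matrix at the piece `e` of the chart -/
private theorem cst_e {S : Type} [Zero S] (M : S) : cst M U.e = M := by
  rcases U.he with ⟨h, _⟩ | ⟨h, _⟩
  · rw [h]; rfl
  · rw [h]; rfl

private theorem evA_sec (r : R) (h : ∀ s : Pc, r ∈ C.pc s 1) (x : U.B)
    (hx : U.g ^ (-1 : ℤ) * j r = (x : F)) :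
    ((evA U).f (secA C r h) : Matrix (Fin 2) (Fin 2) U.B) = Matrix.single 0 1 x := by
  ext i l
  have e0 : (((evA U).f (secA C r h) : Matrix (Fin 2) (Fin 2) U.B) i l : F)
      = U.g ^ (-(wt l - wt i)) * j (qv C wt wt (secA C r h) U.e i l) := rfl
  rw [e0, qv_secA, cst_e U]
  by_cases h1 : i = 0 ∧ l = 1
  · obtain ⟨rfl, rfl⟩ := h1
    rw [Matrix.single_apply_same, Matrix.single_apply_same, ← hx]
    rfl
  · have h2 : ¬(0 = i ∧ 1 = l) := fun e => h1 ⟨e.1.symm, e.2.symm⟩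
    rw [Matrix.single_apply_of_ne _ _ _ _ _ h2, Matrix.single_apply_of_ne _ _ _ _ _ h2, map_zero,
      mul_zero]
    rfl

theorem evA_secA0 : ((evA U).f (secA C U.s0 U.hs0) : Matrix (Fin 2) (Fin 2) U.B)
    = Matrix.single 0 1 1 := by
  refine evA_sec U U.s0 U.hs0 1 ?_
  rw [U.js0, zpow_neg, zpow_one, inv_mul_cancel₀ U.g0]
  rfl

theorem evA_secA1 : ((evA U).f (secA C U.s1 U.hs1) : Matrix (Fin 2) (Fin 2) U.B)
    = Matrix.single 0 1 ⟨U.c, U.cB⟩ := by
  refine evA_sec U U.s1 U.hs1 ⟨U.c, U.cB⟩ ?_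
  rw [U.js1, zpow_neg, zpow_one, inv_mul_cancel_left₀ U.g0]

private theorem evT_D {V W : Type} [AddCommGroup V] [Module k V] [AddCommGroup W] [Module k W]
    (z : V ⊗[k] W) : ((evSD k V).tens (evSD k W)).D z = 0 := by
  refine tens_ext (f := SD.tD (evSD k V) (evSD k W)) (g := 0) (fun x y => ?_) z
  change (0 : V) ⊗ₜ[k] y + (evSD k V).E x ⊗ₜ[k] (0 : W) = 0
  rw [TensorProduct.zero_tmul, TensorProduct.tmul_zero, add_zero]

private theorem evT_P {V W : Type} [AddCommGroup V] [Module k V] [AddCommGroup W] [Module k W]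
    (z : V ⊗[k] W) : ((evSD k V).tens (evSD k W)).P z = z := by
  refine tens_ext (f := SD.tP (evSD k V) (evSD k W)) (g := LinearMap.id) (fun x y => ?_) z
  change x ⊗ₜ[k] y + (x - x) ⊗ₜ[k] (y - y) = x ⊗ₜ[k] y
  rw [sub_self, TensorProduct.zero_tmul, add_zero]

private theorem evT_E {V W : Type} [AddCommGroup V] [Module k V] [AddCommGroup W] [Module k W]
    (z : V ⊗[k] W) : ((evSD k V).tens (evSD k W)).E z = z := by
  rw [SD.E_apply, evT_P]
  abel

private theorem gP_D (b : U.B) : (HC (bPQ U (colA U Unit))).D (gP U b) = 0 := by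
  have h1 : (HC (bPQ U (colA U Unit))).D (gP U b)
      = Wd.nil (((PU U).tens (QU U)).D ((Matrix.single 0 () b : Matrix (Fin 2) Unit U.B) ⊗ₜ[k]
        (Matrix.single () 0 1 : Matrix Unit (Fin 2) U.B))) := hcD_nil _ _
  rw [h1]
  have h2 : ((PU U).tens (QU U)).D ((Matrix.single 0 () b : Matrix (Fin 2) Unit U.B) ⊗ₜ[k]
        (Matrix.single () 0 1 : Matrix Unit (Fin 2) U.B)) = 0 := by
    exact evT_D _
  rw [h2, map_zero]

private theorem epsU_gP (b : U.B) : (epsU U).f (gP U b) = b := by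
  have h1 : (epsU U).f (gP U b) = rowCol U (Matrix.single () 0 1 : Matrix Unit (Fin 2) U.B)
      (Matrix.single 0 () b : Matrix (Fin 2) Unit U.B) := epsU_nil U _ _
  rw [h1, rowCol_apply, Matrix.single_mul_single_same, one_mul, Matrix.single_apply_same]

theorem hodd_PQ (x : (HC (bPQ U (colA U Unit))).V) (hP : (HC (bPQ U (colA U Unit))).P x = 0)
    (hD : (HC (bPQ U (colA U Unit))).D x = 0) : ∃ y, (HC (bPQ U (colA U Unit))).D y = x := by
  refine (cl_U U).inj x (0 : U.B) hD ?_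
  have h1 : (BU U).P ((epsU U).f x) = (epsU U).f ((HC (bPQ U (colA U Unit))).P x) :=
    ((epsU U).P x).symm
  rw [hP, map_zero] at h1
  have h2 : (epsU U).f x = 0 := h1
  rw [h2, map_zero]

theorem heven_PQ (x : (HC (bPQ U (colA U Unit))).V)
    (hP : (HC (bPQ U (colA U Unit))).P x = x) (hD : (HC (bPQ U (colA U Unit))).D x = 0) :
    ∃ b, (HC (bPQ U (colA U Unit))).Hml x (gP U b) := by
  refine ⟨(epsU U).f x, ?_⟩
  refine (cl_U U).inj (x - gP U ((epsU U).f x)) (0 : U.B) ?_ ?_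
  · rw [map_sub, hD, gP_D, sub_zero]
  · rw [map_sub, epsU_gP, sub_self]
    exact (map_zero _).symm

/-! ### the odd elements `zP b` -/

private theorem secA_D (r : R) (h : ∀ s : Pc, r ∈ C.pc s 1) : (AA C).D (secA C r h) = 0 := by
  refine q_ext C ?_
  change cD k _ (qv C wt wt (secA C r h)) = 0
  rw [qv_secA]
  funext s
  cases s with
  | X => rfl
  | Y => rfl
  | R => exact sub_self _

private theorem secA_P (r : R) (h : ∀ s : Pc, r ∈ C.pc s 1) :
    (AA C).P (secA C r h) = secA C r h := by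
  refine q_ext C ?_
  change cP k _ (qv C wt wt (secA C r h)) = qv C wt wt (secA C r h)
  rw [qv_secA]
  funext s
  cases s with
  | X => rfl
  | Y => rfl
  | R => rfl

private theorem hcD_one {A : DGA k} {N : SD k} (b : Bi A A N) (n : N.V) (r : A.V)
    (hn : N.D n = 0) (hE : N.E n = n) (hr : A.D r = 0) (hP : A.P r = r) :
    hcD b (Wd.snoc (Wd.nil n) r) = Wd.nil (b.r.act n r) - Wd.nil (b.l.act r n) := by
  rw [hcD_snoc, Db_nil, EW_nil, hn, hE, hr, hP, map_zero, map_zero, map_zero, sub_self, map_zero,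
    LinearMap.zero_apply, LinearMap.zero_apply, sub_zero, sub_zero, zero_add, tl_nil, hd_nil]

private theorem PW_one {A N : SD k} (n : N.V) (r : A.V) (hn : N.P n = n) (hP : A.P r = r) :
    PW N A (Wd.snoc (Wd.nil n) r) = 0 := by
  rw [PW_snoc, PW_nil, hn, SD.E_apply, hP, add_sub_cancel_right, sub_self]

private theorem zP_P (b : U.B) : (HC (bPQ U (colA U Unit))).P (zP U b) = 0 := by
  rw [zP, map_sub]
  have h1 : ∀ (z : ((PU U).tens (QU U)).V) (r : R) (h : ∀ s : Pc, r ∈ C.pc s 1),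
      (HC (bPQ U (colA U Unit))).P (Wd.snoc (Wd.nil z) (secA C r h)) = 0 := fun z r h =>
    PW_one z (secA C r h) (evT_P z) (secA_P r h)
  rw [h1, h1, sub_self]

private theorem zP_one (p : Matrix (Fin 2) Unit U.B) (q : Matrix Unit (Fin 2) U.B) (r : R)
    (h : ∀ s : Pc, r ∈ C.pc s 1) :
    (HC (bPQ U (colA U Unit))).D (Wd.snoc (Wd.nil (p ⊗ₜ[k] q)) (secA C r h))
      = Wd.nil (p ⊗ₜ[k] (q * ((evA U).f (secA C r h) : Matrix (Fin 2) (Fin 2) U.B)))
        - Wd.nil ((((evA U).f (secA C r h) : Matrix (Fin 2) (Fin 2) U.B) * p) ⊗ₜ[k] q) :=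
  hcD_one (bPQ U (colA U Unit)) (p ⊗ₜ[k] q) (secA C r h) (evT_D _) (evT_E _) (secA_D r h)
    (secA_P r h)

/-! ### restriction of bimodules -/

private theorem res_isHom {A B A' B' : DGA k} {X Y : BMod A B} (φ : BMod.Hom X Y)
    (f : DGA.NHom A' A) (g : DGA.NHom B' B) : (X.b.res f g).IsHom (Y.b.res f g) φ.toHom :=
  ⟨fun a n => φ.isHom.l (f.f a) n, fun n b => φ.isHom.r n (g.f b)⟩

private theorem bPQ_eq : bPQ U (colA U Unit) = (mPQ k U.B).b.res (evA U) (evA U) := rfl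

/-- `c ⊗ 1 - 1 ⊗ c` on the Hochschild complex -/
private def dH : SD.Hom (HC (bPQ U (colA U Unit))) (HC (bPQ U (colA U Unit))) :=
  hcN ((mPQ k U.B).b.res (evA U) (evA U)) ((mPQ k U.B).b.res (evA U) (evA U))
    (dlt k (⟨U.c, U.cB⟩ : U.B)).toHom (res_isHom _ (evA U) (evA U))

/-- the bimodule `coker` -/
private def bC : Bi (AA C) (AA C) (BMod.coker (dlt k (⟨U.c, U.cB⟩ : U.B))).N :=
  (BMod.coker (dlt k (⟨U.c, U.cB⟩ : U.B))).b.res (evA U) (evA U)

private def pH : SD.Hom (HC (bPQ U (colA U Unit))) (HC (bC U)) :=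
  hcN ((mPQ k U.B).b.res (evA U) (evA U)) (bC U)
    (BMod.cokerπ (dlt k (⟨U.c, U.cB⟩ : U.B))).toHom (res_isHom _ (evA U) (evA U))

private def rH : SD.Hom (HC (bC U)) (HC (nBi U)) :=
  hcN (bC U) (nBi U)
    (BMod.cokerDesc (dlt k (⟨U.c, U.cB⟩ : U.B)) (muM k U.B) (muM_dlt _)).toHom
    (res_isHom (BMod.cokerDesc (dlt k (⟨U.c, U.cB⟩ : U.B)) (muM k U.B) (muM_dlt _))
      (evA U) (evA U))

private theorem SES_dp : SD.SES (dH U) (pH U) :=
  SES_hc _ _ _ _ _ _ _ (BMod.coker_ses _ (dlt_injective _ U.sep))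

private theorem exists_sH : ∃ s : SD.Hom (HC (nBi U)) (HC (bC U)), ∀ x, (rH U).f (s.f x) = x := by
  obtain ⟨s, hs⟩ := exists_section (⟨U.c, U.cB⟩ : U.B) U.sep
  refine ⟨hcN (nBi U) (bC U) s.toHom (res_isHom s (evA U) (evA U)), fun x => ?_⟩
  exact Wd.mh_left_inv hs x

private theorem rp_nil (z : Matrix (Fin 2) Unit U.B ⊗[k] Matrix Unit (Fin 2) U.B) :
    (rH U).f ((pH U).f (Wd.nil z)) = Wd.nil ((muM k U.B).f z) := by
  have h1 : (pH U).f (Wd.nil z) = Wd.nil ((BMod.cokerπ (dlt k (⟨U.c, U.cB⟩ : U.B))).f z) :=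
    hcN_nil _ _ _ _ _
  rw [h1]
  exact hcN_nil _ _ _ _ _

private theorem rp_snoc (w : (HC (bPQ U (colA U Unit))).V) (r : (AA C).V) :
    (rH U).f ((pH U).f (Wd.snoc w r)) = Wd.snoc ((rH U).f ((pH U).f w)) r := by
  have h1 : (pH U).f (Wd.snoc w r) = Wd.snoc ((pH U).f w) r := hcN_snoc _ _ _ _ _ _
  rw [h1]
  exact hcN_snoc _ _ _ _ _ _

private theorem zP_D (b : U.B) :
    (HC (bPQ U (colA U Unit))).D (zP U b) = (dH U).f (gP U b) := by
  have h0 : (dH U).f (gP U b) = Wd.nil (((⟨U.c, U.cB⟩ : U.B) •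
        (Matrix.single 0 () b : Matrix (Fin 2) Unit U.B)) ⊗ₜ[k]
        (Matrix.single () 0 1 : Matrix Unit (Fin 2) U.B)
      - (Matrix.single 0 () b : Matrix (Fin 2) Unit U.B) ⊗ₜ[k] ((⟨U.c, U.cB⟩ : U.B) •
        (Matrix.single () 0 1 : Matrix Unit (Fin 2) U.B))) := hcN_nil _ _ _ _ _
  rw [h0, zP, map_sub, zP_one, zP_one, evA_secA0, evA_secA1, Matrix.single_mul_single_same,
    Matrix.single_mul_single_same, Matrix.single_mul_single_same, Matrix.single_mul_single_same,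
    Matrix.smul_single, Matrix.smul_single, map_sub, mul_one, one_mul, one_mul, smul_eq_mul,
    smul_eq_mul, mul_one]
  abel

/-- even cycles of `HC (M_2 B)`: `SD.coker_even` (H15/NC/Chase) for `hcN` of `dlt`, `BMod.cokerπ`, the section of
`exists_section` and `muM`, all restricted to `AA C` along `evA U` -/
theorem heven_N (x : (HC (nBi U)).V) (hP : (HC (nBi U)).P x = x) (hD : (HC (nBi U)).D x = 0) :
    ∃ b : U.B, (HC (nBi U)).Hml x (Wd.nil (Matrix.single 0 0 b : Matrix (Fin 2) (Fin 2) U.B)) := by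
  obtain ⟨s, hs⟩ := exists_sH U
  obtain ⟨b, hb⟩ := SD.coker_even (SES_dp U) s (rH U) hs (hodd_PQ U) (gP U) (heven_PQ U) x hP hD
  refine ⟨b, ?_⟩
  have h1 : (rH U).f ((pH U).f (gP U b))
      = Wd.nil (Matrix.single 0 0 b : Matrix (Fin 2) (Fin 2) U.B) := by
    refine (rp_nil U _).trans ?_
    rw [muM_tmul, Matrix.single_mul_single_same, mul_one]
    rfl
  rw [h1] at hb
  exact hb

/-- odd cycles of `HC (M_2 B)`: `SD.coker_odd` -/
theorem hodd_N (x : (HC (nBi U)).V) (hP : (HC (nBi U)).P x = 0) (hD : (HC (nBi U)).D x = 0) :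
    ∃ b : U.B, (HC (nBi U)).Hml x
      (Wd.snoc (Wd.nil (Matrix.single 1 0 b : Matrix (Fin 2) (Fin 2) U.B)) (secA C U.s1 U.hs1)
      - Wd.snoc (Wd.nil (Matrix.single 1 0 (b * ⟨U.c, U.cB⟩) : Matrix (Fin 2) (Fin 2) U.B))
        (secA C U.s0 U.hs0)) := by
  obtain ⟨s, hs⟩ := exists_sH U
  obtain ⟨b, hb⟩ := SD.coker_odd (SES_dp U) s (rH U) hs (hodd_PQ U) (gP U) (zP U) (heven_PQ U)
    (zP_P U) (zP_D U) x hP hD
  refine ⟨-b, ?_⟩
  have h1 : (rH U).f ((pH U).f (zP U b))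
      = Wd.snoc (Wd.nil (Matrix.single 1 0 (b * ⟨U.c, U.cB⟩) : Matrix (Fin 2) (Fin 2) U.B))
        (secA C U.s0 U.hs0)
      - Wd.snoc (Wd.nil (Matrix.single 1 0 b : Matrix (Fin 2) (Fin 2) U.B))
        (secA C U.s1 U.hs1) := by
    rw [zP, map_sub, map_sub, rp_snoc, rp_snoc, rp_nil, rp_nil, muM_tmul, muM_tmul,
      Matrix.single_mul_single_same, Matrix.single_mul_single_same, mul_one]
    rfl
  have hn : ∀ a : U.B, (Matrix.single 1 0 (-a) : Matrix (Fin 2) (Fin 2) U.B)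
      = -Matrix.single 1 0 a := fun a => by
    ext i l
    rw [Matrix.neg_apply, Matrix.single_apply, Matrix.single_apply]
    split_ifs <;> simp
  rw [h1] at hb
  rw [neg_mul, hn, hn, map_neg, map_neg, map_neg, map_neg, LinearMap.neg_apply,
    LinearMap.neg_apply, sub_neg_eq_add, neg_add_eq_sub]
  exact hb

/-- evaluation on the Hochschild complex -/
private def eH : SD.Hom (HC (fBi U.T)) (HC (nBi U)) :=
  hcN (fBi U.T) (nBi U) (evF U wt wt) (evF_isHomBi U)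

private theorem eH_QI : (eH U).QI := QI_hc _ _ _ (evF_isHomBi U) (evF_QI U wt wt)

private theorem ev_fc (i l : Fin 2) (b : U.B) :
    ((evF U wt wt).f (fc U i l b) : Matrix (Fin 2) (Fin 2) U.B) = Matrix.single i l b := by
  ext a c
  have e0 : (((evF U wt wt).f (fc U i l b) : Matrix (Fin 2) (Fin 2) U.B) a c : F)
      = U.g ^ (-(wt c - wt a)) * fv U.T wt wt (fc U i l b) U.e a c := rfl
  rw [e0, fv_fc, cst_e U]
  by_cases h1 : i = a ∧ l = c
  · obtain ⟨rfl, rfl⟩ := h1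
    rw [Matrix.single_apply_same, Matrix.single_apply_same, zpow_neg,
      inv_mul_cancel_left₀ (zpow_ne_zero _ U.g0)]
  · rw [Matrix.single_apply_of_ne _ _ _ _ _ h1, Matrix.single_apply_of_ne _ _ _ _ _ h1, mul_zero]
    rfl

private theorem eH_nil (z : (fSD U.T wt wt).V) : (eH U).f (Wd.nil z)
    = Wd.nil (R := (AA C).V) ((evF U wt wt).f z : Matrix (Fin 2) (Fin 2) U.B) :=
  hcN_nil _ _ _ _ _

private theorem eH_snoc (w : (HC (fBi U.T)).V) (r : (AA C).V) :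
    (eH U).f (Wd.snoc w r) = Wd.snoc ((eH U).f w) r :=
  hcN_snoc _ _ _ _ _ _

/-- **even cycles of `HC (NC_U)`**: `evF_QI`, `QI_hc`, `heven_N` -/
theorem heven_U (x : (HC (fBi U.T)).V) (hP : (HC (fBi U.T)).P x = x)
    (hD : (HC (fBi U.T)).D x = 0) : ∃ b, (HC (fBi U.T)).Hml x (gU U b) := by
  have e1 : (HC (nBi U)).P ((eH U).f x) = (eH U).f x := by rw [← (eH U).P, hP]
  have e2 : (HC (nBi U)).D ((eH U).f x) = 0 := by rw [← (eH U).D, hD, map_zero]
  obtain ⟨b, w, hw⟩ := heven_N U _ e1 e2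
  refine ⟨b, (eH_QI U).inj (x - gU U b) w ?_ ?_⟩
  · rw [map_sub, hD, gU_D, sub_zero]
  · rw [map_sub, hw, gU_apply, eH_nil, ev_fc]

/-- **odd cycles of `HC (NC_U)`** -/
theorem hodd_U (x : (HC (fBi U.T)).V) (hP : (HC (fBi U.T)).P x = 0)
    (hD : (HC (fBi U.T)).D x = 0) : ∃ b, (HC (fBi U.T)).Hml x (zU U b) := by
  have e1 : (HC (nBi U)).P ((eH U).f x) = 0 := by rw [← (eH U).P, hP, map_zero]
  have e2 : (HC (nBi U)).D ((eH U).f x) = 0 := by rw [← (eH U).D, hD, map_zero]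
  obtain ⟨b, w, hw⟩ := hodd_N U _ e1 e2
  refine ⟨b, (eH_QI U).inj (x - zU U b) w ?_ ?_⟩
  · rw [map_sub, hD, zU_D, sub_zero]
  · rw [map_sub, hw, zU_apply, map_sub, eH_snoc, eH_snoc, eH_nil, eH_nil, ev_fc, ev_fc]

end H36.PX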