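import Pool.Agent.H36.PX.Mods
import Pool.Agent.H36.PX.Coh

/-!
# GenS : for `n ≥ pp` the homology of `Q (n+1)` is generated by `x, y, z` and the homology of `Q n`

A cycle is `(a, a, c)` with the entries of `a` in `B (n + 1 + j - i)`, use `B_succ`; the third component is a boundary
because `X ⊔ Y d = ⊤` for `d ≥ pp - 2` (`X_sup_Y_pos`).
-/

set_option autoImplicit false

open NC

namespace H36.PX

open H36.NX
variable {pp : ℕ} {k : Type} [Field k] {t : k} {R : Type} [CommRing R] [Algebra k R]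

/-- the Čech matrix `(a, b, c)` -/
private def GenS_f {I J : Type} (a b c : Matrix I J R) : Pc → Matrix I J R := fun s => match s with
  | Pc.X => a
  | Pc.Y => b
  | Pc.R => c

/-- the cycle `(a, a, 0)` -/
private theorem GenS_cyc (C : PRing pp k t R) (n : ℤ) (a : Matrix (Fin 2) (Fin 2) R)
    (ha : ∀ i j, a i j ∈ C.B (wtn n j - wt i)) :
    ∃ x : (qSD C wt (wtn n)).V, (qSD C wt (wtn n)).D x = 0 ∧
      qv C wt (wtn n) x = GenS_f a a 0 := by
  refine ⟨qmk C wt (wtn n) (GenS_f a a 0) ?_, q_ext C ?_, rfl⟩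
  · intro s i j
    cases s with
    | X => exact (Submodule.mem_inf.1 (ha i j)).1
    | Y => exact (Submodule.mem_inf.1 (ha i j)).2
    | R => exact Submodule.mem_top
  · rw [qv_D, qv_qmk, map_zero]
    funext s
    cases s with
    | X => rfl
    | Y => rfl
    | R => rw [cD_R]; exact sub_self a

theorem gen_succ (C : PRing pp k t R) {n m : ℤ} (hn : (pp : ℤ) ≤ n) (hm : m = n + 1)
    (v : (qSD C wt (wtn m)).V) (hv : (qSD C wt (wtn m)).D v = 0) :
    ∃ (a b c : (qSD C wt (wtn n)).V) (z : (qSD C wt (wtn m)).V),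
      (qSD C wt (wtn n)).D a = 0 ∧ (qSD C wt (wtn n)).D b = 0 ∧ (qSD C wt (wtn n)).D c = 0 ∧
      qv C wt (wtn m) v = qv C wt (wtn n) a + (fun s => (C.u : R) • qv C wt (wtn n) b s)
        + (fun s => C.w • qv C wt (wtn n) c s)
        + qv C wt (wtn m) ((qSD C wt (wtn m)).D z) := by
  subst hm
  have hv1 : cD k _ (qv C wt (wtn (n + 1)) v) = 0 := by rw [← qv_D, hv, map_zero]
  have hvm := qv_mem C v
  have hve : qv C wt (wtn (n + 1)) v Pc.Y = qv C wt (wtn (n + 1)) v Pc.X := by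
    have h := congrFun hv1 Pc.R
    rw [cD_R] at h
    exact sub_eq_zero.1 h
  have hd : ∀ i j : Fin 2, wtn (n + 1) j - wt i = (wtn n j - wt i) + 1 := by
    intro i j; simp only [wtn]; ring
  have hp3 := C.hp
  have hd1 : ∀ i j : Fin 2, (pp : ℤ) - 2 ≤ wtn n j - wt i := by
    intro i j
    simp only [wtn, wt]
    have := i.isLt
    have := j.isLt
    omega
  have hd0 : ∀ i j : Fin 2, 0 ≤ wtn n j - wt i := fun i j => by
    have := hd1 i j
    omega
  have hvX : ∀ i j, qv C wt (wtn (n + 1)) v Pc.X i j ∈ C.B ((wtn n j - wt i) + 1) := by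
    intro i j
    rw [← hd]
    refine Submodule.mem_inf.2 ⟨hvm Pc.X i j, ?_⟩
    rw [← hve]
    exact hvm Pc.Y i j
  have h1 : ∀ i j, ∃ a ∈ C.B (wtn n j - wt i), ∃ b ∈ C.B (wtn n j - wt i),
      ∃ c ∈ C.B (wtn n j - wt i),
        qv C wt (wtn (n + 1)) v Pc.X i j = a + (C.u : R) * b + C.w * c := by
    intro i j
    have h := hvX i j
    rw [C.B_succ (hd0 i j)] at h
    obtain ⟨x, hx, y, hy, hxy⟩ := Submodule.mem_sup.1 h
    obtain ⟨a, ha, b', hb', hab⟩ := Submodule.mem_sup.1 hx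
    obtain ⟨b, hb, rfl⟩ := hb'
    obtain ⟨c, hc, rfl⟩ := hy
    refine ⟨a, ha, b, hb, c, hc, ?_⟩
    rw [← hxy, ← hab, LinearMap.mulLeft_apply, LinearMap.mulLeft_apply]
  have h2 : ∀ i j, ∃ p ∈ C.X, ∃ q ∈ C.Y (wtn (n + 1) j - wt i),
      qv C wt (wtn (n + 1)) v Pc.R i j = p + q := by
    intro i j
    have h3 : qv C wt (wtn (n + 1)) v Pc.R i j ∈ C.X ⊔ C.Y (wtn (n + 1) j - wt i) := by
      rw [C.X_sup_Y_pos (by rw [hd]; linarith [hd1 i j])]
      exact Submodule.mem_top
    obtain ⟨p, hp, q, hq, h⟩ := Submodule.mem_sup.1 h3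
    exact ⟨p, hp, q, hq, h.symm⟩
  choose a ha b hb c hc habc using h1
  choose p hp q hq hpq using h2
  obtain ⟨a', ha', hqa⟩ := GenS_cyc C n (fun i j => a i j) ha
  obtain ⟨b', hb', hqb⟩ := GenS_cyc C n (fun i j => b i j) hb
  obtain ⟨c', hc', hqc⟩ := GenS_cyc C n (fun i j => c i j) hc
  refine ⟨a', b', c', qmk C wt (wtn (n + 1)) (GenS_f (fun i j => - p i j) (fun i j => q i j) 0) ?_,
    ha', hb', hc', ?_⟩
  · intro s i j
    cases s with
    | X => exact Submodule.neg_mem _ (hp i j)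
    | Y => exact hq i j
    | R => exact Submodule.mem_top
  · rw [qv_D, qv_qmk, hqa, hqb, hqc]
    funext s
    refine Matrix.ext fun i j => ?_
    cases s with
    | X =>
      change qv C wt (wtn (n + 1)) v Pc.X i j = a i j + (C.u : R) * b i j + C.w * c i j + 0
      rw [habc i j, add_zero]
    | Y =>
      change qv C wt (wtn (n + 1)) v Pc.Y i j = a i j + (C.u : R) * b i j + C.w * c i j + 0
      rw [hve, habc i j, add_zero]
    | R =>
      change qv C wt (wtn (n + 1)) v Pc.R i j =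
        0 + (C.u : R) * 0 + C.w * 0 + (q i j - - p i j)
      rw [hpq i j]
      ring

end H36.PX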