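import Pool.Agent.H36.PX.HilbF

/-!
# HilbCyc : Hilbert functions of cyclic modules over the coordinate ring of the curve

`cyc a m j` is the space of the values at `m` of the forms of degree `j`
in three commuting operators which satisfy the equation of the curve.
-/

set_option autoImplicit false

namespace H36.PX

section

variable {k : Type} [Field k] {Q : Type} [AddCommGroup Q] [Module k Q]

/-- the pieces of a cyclic module -/
def cyc (a : Fin 3 → Module.End k Q) (m : Q) : ℕ → Submodule k Q
  | 0 => Submodule.span k {m}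
  | j + 1 => (cyc a m j).map (a 0) ⊔ (cyc a m j).map (a 1) ⊔ (cyc a m j).map (a 2)

theorem cyc_zero (a : Fin 3 → Module.End k Q) (m : Q) : cyc a m 0 = Submodule.span k {m} := rfl

theorem cyc_succ (a : Fin 3 → Module.End k Q) (m : Q) (j : ℕ) :
    cyc a m (j + 1) = (cyc a m j).map (a 0) ⊔ (cyc a m j).map (a 1) ⊔ (cyc a m j).map (a 2) := rfl

instance cyc_finite (a : Fin 3 → Module.End k Q) (m : Q) (j : ℕ) :
    FiniteDimensional k (cyc a m j) := by
  induction j with
  | zero =>
    rw [cyc_zero]
    infer_instance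
  | succ j ih =>
    rw [cyc_succ]
    infer_instance

theorem cyc_map_le (a : Fin 3 → Module.End k Q) (m : Q) (j : ℕ) (i : Fin 3) :
    (cyc a m j).map (a i) ≤ cyc a m (j + 1) := by
  rw [cyc_succ]
  fin_cases i
  · exact le_sup_left.trans le_sup_left
  · exact le_sup_right.trans le_sup_left
  · exact le_sup_right

theorem cyc_pow_mem (a : Fin 3 → Module.End k Q) (m : Q) (i : Fin 3) (n j : ℕ) {v : Q}
    (hv : v ∈ cyc a m j) : (a i ^ n) v ∈ cyc a m (j + n) := by
  have h := wd_map_le (fun i j => cyc_map_le a m j i) (List.replicate n i) j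
  rw [wd_replicate, List.length_replicate] at h
  exact h ⟨v, hv, rfl⟩

theorem map_comm' {a : Fin 3 → Module.End k Q} (hc : ∀ i j v, a i (a j v) = a j (a i v))
    (i j : Fin 3) (F : Submodule k Q) : (F.map (a j)).map (a i) = (F.map (a i)).map (a j) := by
  rw [← Submodule.map_comp, ← Submodule.map_comp]
  congr 1
  exact LinearMap.ext fun v => hc i j v

/-- an inequality of dimensions -/
theorem finrank_step (f : Module.End k Q) (A V W : Submodule k Q) [FiniteDimensional k V]
    [FiniteDimensional k W] (hAV : A ≤ V) (hAW : A.map f ≤ W) :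
    Module.finrank k (W ⊔ V.map f : Submodule k Q) + Module.finrank k A
      ≤ Module.finrank k W + Module.finrank k V := by
  let g : (W × V) →ₗ[k] Q := W.subtype.coprod (f ∘ₗ V.subtype)
  have hr : LinearMap.range g = W ⊔ V.map f := by
    rw [LinearMap.range_coprod, Submodule.range_subtype, LinearMap.range_comp,
      Submodule.range_subtype]
  let h : A →ₗ[k] (W × V) :=
    LinearMap.prod (-(f.restrict (p := A) (q := W) fun x hx => hAW ⟨x, hx, rfl⟩))
      (Submodule.inclusion hAV)
  have hh : ∀ x, h x ∈ LinearMap.ker g := by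
    intro x
    rw [LinearMap.mem_ker]
    simp [g, h]
  have hinj : Function.Injective (h.codRestrict (LinearMap.ker g) hh) := by
    intro x y hxy
    have h1 : h x = h y := congrArg Subtype.val hxy
    have h2 : (Submodule.inclusion hAV x) = (Submodule.inclusion hAV y) := congrArg Prod.snd h1
    exact Submodule.inclusion_injective hAV h2
  have h3 := LinearMap.finrank_le_finrank_of_injective hinj
  have h4 := LinearMap.finrank_range_add_finrank_ker g
  rw [hr, Module.finrank_prod] at h4
  omega

/-- a sequence of natural numbers which does not increase is eventually constant -/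
theorem eventually_const (d : ℕ → ℕ) (hd : ∀ j, d (j + 1) ≤ d j) :
    ∃ J, ∀ j, J ≤ j → d j = d J := by
  have hanti : ∀ i j, i ≤ j → d j ≤ d i := by
    intro i j hij
    induction j, hij using Nat.le_induction with
    | base => exact le_rfl
    | succ j _ ih => exact (hd j).trans ih
  obtain ⟨_, ⟨J, rfl⟩, hJ⟩ : ∃ x ∈ Set.range d, ∀ y ∈ Set.range d, x ≤ y := by
    refine ⟨sInf (Set.range d), Nat.sInf_mem ⟨d 0, 0, rfl⟩, fun y hy => Nat.sInf_le hy⟩
  exact ⟨J, fun j hj => le_antisymm (hanti J j hj) (hJ _ ⟨j, rfl⟩)⟩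

/-- the third operator contributes one vector in each degree -/
theorem cyc_three {a : Fin 3 → Module.End k Q} (hc : ∀ i j v, a i (a j v) = a j (a i v)) (m : Q)
    (j : ℕ) : cyc a m (j + 1) = (cyc a m j).map (a 0) ⊔ (cyc a m j).map (a 1) ⊔
      Submodule.span k {(a 2 ^ (j + 1)) m} := by
  apply le_antisymm
  · have h1 : (cyc a m j).map (a 2) ≤ (cyc a m j).map (a 0) ⊔ (cyc a m j).map (a 1) ⊔
        Submodule.span k {(a 2 ^ (j + 1)) m} := by
      induction j with
      | zero =>
        rw [cyc_zero, Submodule.map_span, Set.image_singleton, zero_add, pow_one]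
        exact le_sup_right
      | succ j ih =>
        conv_lhs => rw [cyc_succ, Submodule.map_sup, Submodule.map_sup]
        refine sup_le (sup_le ?_ ?_) ?_
        · rw [map_comm' hc 2 0]
          exact (Submodule.map_mono (cyc_map_le a m j 2)).trans (le_sup_left.trans le_sup_left)
        · rw [map_comm' hc 2 1]
          exact (Submodule.map_mono (cyc_map_le a m j 2)).trans (le_sup_right.trans le_sup_left)
        · refine (Submodule.map_mono ih).trans ?_
          rw [Submodule.map_sup, Submodule.map_sup, map_comm' hc 2 0, map_comm' hc 2 1,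
            Submodule.map_span, Set.image_singleton]
          refine sup_le (sup_le ?_ ?_) ?_
          · exact (Submodule.map_mono (cyc_map_le a m j 2)).trans (le_sup_left.trans le_sup_left)
          · exact (Submodule.map_mono (cyc_map_le a m j 2)).trans (le_sup_right.trans le_sup_left)
          · rw [pow_succ' (a 2) (j + 1)]
            exact le_sup_right
    rw [cyc_succ]
    exact sup_le le_sup_left h1
  · rw [cyc_succ]
    refine sup_le le_sup_left ?_
    rw [Submodule.span_singleton_le_iff_mem]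
    have h2 : (a 2 ^ j) m ∈ cyc a m j := by
      have := cyc_pow_mem a m 2 j 0 (Submodule.mem_span_singleton_self m)
      rwa [zero_add] at this
    refine Submodule.mem_sup_right ⟨_, h2, ?_⟩
    rw [pow_succ']
    rfl

/-- the equation of the curve for three operators -/
def CRel (p : ℕ) (t : k) (a : Fin 3 → Module.End k Q) : Prop :=
  ∀ v, (a 2 ^ p) v = t ^ 2 • (a 0 ^ (p - 1)) (a 2 v) + t • (a 1 ^ p) v
      + t ^ 2 • a 0 ((a 1 ^ (p - 1)) v) + t ^ 2 • (a 0 ^ p) v

variable {p : ℕ} {t : k} {a : Fin 3 → Module.End k Q}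

theorem pow_comm_apply (hc : ∀ i j v, a i (a j v) = a j (a i v)) (i l : Fin 3) (n : ℕ) (v : Q) :
    (a i ^ n) (a l v) = a l ((a i ^ n) v) := by
  induction n with
  | zero => rfl
  | succ n ih =>
    rw [pow_succ']
    change a i ((a i ^ n) (a l v)) = a l (a i ((a i ^ n) v))
    rw [ih, hc]

/-- in degree at least `p - 1` the third operator is not needed -/
theorem cyc_top (hp : 3 ≤ p) (hc : ∀ i j v, a i (a j v) = a j (a i v)) (hrel : CRel p t a) (m : Q)
    (j : ℕ) (hj : p ≤ j + 1) :
    cyc a m (j + 1) = (cyc a m j).map (a 0) ⊔ (cyc a m j).map (a 1) := by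
  rw [cyc_three hc]
  refine le_antisymm (sup_le le_rfl ?_) le_sup_left
  rw [Submodule.span_singleton_le_iff_mem]
  obtain ⟨i, hi⟩ : ∃ i, j + 1 = i + p := ⟨j + 1 - p, by omega⟩
  have hm : m ∈ cyc a m 0 := Submodule.mem_span_singleton_self m
  have e0 : ∀ v, (a 0 ^ p) v = a 0 ((a 0 ^ (p - 1)) v) := by
    intro v
    have h : a 0 ^ p = a 0 * a 0 ^ (p - 1) := by rw [← pow_succ']; congr 1; omega
    rw [h]; rfl
  have e0' : ∀ v, (a 0 ^ (p - 1)) v = a 0 ((a 0 ^ (p - 2)) v) := by
    intro v
    have h : a 0 ^ (p - 1) = a 0 * a 0 ^ (p - 2) := by rw [← pow_succ']; congr 1; omega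
    rw [h]; rfl
  have e1 : ∀ v, (a 1 ^ p) v = a 1 ((a 1 ^ (p - 1)) v) := by
    intro v
    have h : a 1 ^ p = a 1 * a 1 ^ (p - 1) := by rw [← pow_succ']; congr 1; omega
    rw [h]; rfl
  have h1 : (a 2 ^ (j + 1)) m = (a 2 ^ i) ((a 2 ^ p) m) := by
    rw [hi, pow_add]; rfl
  have t1 : (a 2 ^ i) ((a 0 ^ (p - 1)) (a 2 m)) = a 0 ((a 2 ^ i) ((a 0 ^ (p - 2)) (a 2 m))) := by
    rw [e0', pow_comm_apply hc 2 0]
  have t2 : (a 2 ^ i) ((a 1 ^ p) m) = a 1 ((a 2 ^ i) ((a 1 ^ (p - 1)) m)) := by
    rw [e1, pow_comm_apply hc 2 1]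
  have t3 : (a 2 ^ i) (a 0 ((a 1 ^ (p - 1)) m)) = a 0 ((a 2 ^ i) ((a 1 ^ (p - 1)) m)) := by
    rw [pow_comm_apply hc 2 0]
  have t4 : (a 2 ^ i) ((a 0 ^ p) m) = a 0 ((a 2 ^ i) ((a 0 ^ (p - 1)) m)) := by
    rw [e0, pow_comm_apply hc 2 0]
  rw [h1, hrel, map_add, map_add, map_add, map_smul, map_smul, map_smul, map_smul, t1, t2, t3, t4]
  have hm2 : a 2 m ∈ cyc a m 1 := cyc_map_le a m 0 2 ⟨m, hm, rfl⟩
  refine Submodule.add_mem _ (Submodule.add_mem _ (Submodule.add_mem _ ?_ ?_) ?_) ?_
  · refine Submodule.mem_sup_left (Submodule.smul_mem _ _ ⟨_, ?_, rfl⟩)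
    have h2 := cyc_pow_mem a m 2 i _ (cyc_pow_mem a m 0 (p - 2) _ hm2)
    rwa [show 1 + (p - 2) + i = j by omega] at h2
  · refine Submodule.mem_sup_right (Submodule.smul_mem _ _ ⟨_, ?_, rfl⟩)
    have h2 := cyc_pow_mem a m 2 i _ (cyc_pow_mem a m 1 (p - 1) _ hm)
    rwa [show 0 + (p - 1) + i = j by omega] at h2
  · refine Submodule.mem_sup_left (Submodule.smul_mem _ _ ⟨_, ?_, rfl⟩)
    have h2 := cyc_pow_mem a m 2 i _ (cyc_pow_mem a m 1 (p - 1) _ hm)
    rwa [show 0 + (p - 1) + i = j by omega] at h2
  · refine Submodule.mem_sup_left (Submodule.smul_mem _ _ ⟨_, ?_, rfl⟩)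
    have h2 := cyc_pow_mem a m 2 i _ (cyc_pow_mem a m 0 (p - 1) _ hm)
    rwa [show 0 + (p - 1) + i = j by omega] at h2

/-- the first operator kills the generator -/
theorem cyc_A (hp : 3 ≤ p) (hI : IndexP p k t) (hc : ∀ i j v, a i (a j v) = a j (a i v))
    (hrel : CRel p t a) (m : Q) (h0 : a 0 m = 0) :
    ∃ J, ∀ j, J ≤ j → p ∣ Module.finrank k (cyc a m j) := by
  have hz : ∀ j, (cyc a m j).map (a 0) = ⊥ := by
    intro j
    induction j with
    | zero =>
      rw [cyc_zero, Submodule.map_span, Set.image_singleton, h0, Submodule.span_singleton_eq_bot]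
    | succ j ih =>
      rw [cyc_succ, Submodule.map_sup, Submodule.map_sup, map_comm' hc 0 1, map_comm' hc 0 2, ih,
        Submodule.map_bot, Submodule.map_bot, Submodule.map_bot]
      simp
  have hy : ∀ j, p ≤ j + 1 → cyc a m (j + 1) = (cyc a m j).map (a 1) := by
    intro j hj
    rw [cyc_top hp hc hrel m j hj, hz, bot_sup_eq]
  obtain ⟨J, hJ⟩ := eventually_const (fun j => Module.finrank k (cyc a m (j + p))) (by
    intro j
    rw [show j + 1 + p = (j + p) + 1 by omega, hy _ (by omega)]
    exact Submodule.finrank_map_le _ _)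
  refine ⟨J + p, fun j hj => ?_⟩
  obtain ⟨i, rfl⟩ : ∃ i, j = J + i + p := ⟨j - J - p, by omega⟩
  refine sub_div hp hI hc hrel (fun l => cyc a m (J + i + l + p)) (fun _ => ⊥) (fun _ => bot_le)
    (fun b l => ?_) (fun b l => by rw [Submodule.map_bot]) 1
    (fun l => ?_) _ (fun l => ?_)
  · have h := cyc_map_le a m (J + i + l + p) b
    rwa [show J + i + l + p + 1 = J + i + (l + 1) + p by omega] at h
  · rw [show J + i + (l + 1) + p = (J + i + l + p) + 1 by omega, hy _ (by omega)]
    exact le_sup_left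
  · rw [finrank_bot, zero_add]
    exact (hJ (J + i + l) (by omega)).trans (hJ (J + i) (by omega)).symm

/-- arithmetic of the Hilbert function of a plane curve of odd degree `p` -/
theorem hilb_arith (hp : 3 ≤ p) (hodd : Odd p) (e : ℕ → ℕ) (h0 : e 0 = 1)
    (hmono : ∀ j, e j ≤ e (j + 1)) (h1 : e 1 ≤ 3)
    (hstep : ∀ j, e (j + 2) + e j ≤ e (j + 1) + e (j + 1) + 1)
    (hconc : ∀ j, p ≤ j + 2 → e (j + 2) + e j ≤ e (j + 1) + e (j + 1)) :
    ∃ J r, p ≤ J + 2 ∧ (∀ j, J ≤ j → e (j + 1) = e j + r) ∧
      (p ∣ r → r = 0 ∨ ∀ j, J ≤ j → p ∣ e j) := by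
  obtain ⟨J, hJ⟩ := eventually_const (fun j => e (j + p + 1) - e (j + p)) (by
    intro j
    have a1 := hconc (j + p) (by omega)
    have a2 := hmono (j + p)
    have a3 := hmono (j + p + 1)
    change e (j + 1 + p + 1) - e (j + 1 + p) ≤ e (j + p + 1) - e (j + p)
    rw [show j + 1 + p + 1 = j + p + 2 by omega, show j + 1 + p = j + p + 1 by omega]
    omega)
  obtain ⟨r, hr⟩ : ∃ r, r = e (J + p + 1) - e (J + p) := ⟨_, rfl⟩
  have hrj : ∀ j, J + p ≤ j → e (j + 1) = e j + r := by
    intro j hj
    have a1 := hJ (j - p) (by omega)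
    have a2 := hmono j
    rw [show j - p + p + 1 = j + 1 by omega, show j - p + p = j by omega] at a1
    omega
  refine ⟨J + p, r, by omega, hrj, fun hdvd => ?_⟩
  rcases Nat.eq_zero_or_pos r with hr0 | hr0
  · exact Or.inl hr0
  right
  have hrp : p ≤ r := Nat.le_of_dvd hr0 hdvd
  -- upper bounds from below
  have hup : ∀ j, e (j + 1) ≤ e j + (j + 2) := by
    intro j
    induction j with
    | zero => simp only [zero_add]; omega
    | succ j ih =>
      have a1 := hstep j
      rw [show j + 1 + 1 = j + 2 by omega]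
      omega
  -- lower bounds from above: in degree at least `p - 2`
  have hlo : ∀ i j, J + p = j + i → p ≤ j + 2 → e (j + 1) = e j + r + (e (j + 1) - e j - r) ∧
      e j + r ≤ e (j + 1) := by
    intro i
    induction i with
    | zero =>
      intro j hj _
      have a1 := hrj j (by omega)
      omega
    | succ i ih =>
      intro j hj hj2
      obtain ⟨-, a1⟩ := ih (j + 1) (by omega) (by omega)
      have a2 := hconc j hj2
      rw [show j + 1 + 1 = j + 2 by omega] at a1
      omega
  have hlo' : ∀ j, p ≤ j + 2 → e j + r ≤ e (j + 1) := by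
    intro j hj
    rcases le_or_gt (J + p) j with h | h
    · exact (hrj j h).ge
    · exact (hlo (J + p - j) j (by omega) hj).2
  have hp2 : e (p - 2) + r ≤ e (p - 2 + 1) := hlo' (p - 2) (by omega)
  have hup2 := hup (p - 2)
  have hrp' : r = p := by omega
  -- lower bounds below `p - 2`
  have hlo2 : ∀ i j, p - 2 = j + i → e j + (j + 2) ≤ e (j + 1) := by
    intro i
    induction i with
    | zero =>
      intro j hj
      have : j = p - 2 := by omega
      rw [this]
      omega
    | succ i ih =>
      intro j hj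
      have a1 := ih (j + 1) (by omega)
      have a2 := hstep j
      rw [show j + 1 + 1 = j + 2 by omega] at a1
      omega
  have hsmall : ∀ j, j ≤ p - 2 → e (j + 1) = e j + (j + 2) := by
    intro j hj
    exact le_antisymm (hup j) (hlo2 (p - 2 - j) j (by omega))
  have hsum : ∀ j, j ≤ p - 1 → 2 * e j = (j + 1) * (j + 2) := by
    intro j
    induction j with
    | zero => intro _; rw [h0]
    | succ j ih =>
      intro hj
      rw [hsmall j (by omega), mul_add, ih (by omega)]
      ring
  have hbig : ∀ l, e (p - 1 + l) = e (p - 1) + l * p := by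
    intro l
    induction l with
    | zero => simp
    | succ l ih =>
      have a1 := hlo' (p - 1 + l) (by omega)
      have a2 : ∀ l, e (p - 1 + l + 1) ≤ e (p - 1 + l) + p := by
        intro l
        induction l with
        | zero =>
          have b1 := hconc (p - 2) (by omega)
          have b2 := hsmall (p - 2) le_rfl
          rw [show p - 2 + 2 = p by omega, show p - 2 + 1 = p - 1 by omega] at b1
          rw [show p - 2 + 1 = p - 1 by omega] at b2
          rw [show p - 1 + 0 + 1 = p by omega, show p - 1 + 0 = p - 1 by omega]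
          omega
        | succ l ih =>
          have b1 := hconc (p - 1 + l) (by omega)
          rw [show p - 1 + (l + 1) + 1 = p - 1 + l + 2 by omega,
            show p - 1 + (l + 1) = p - 1 + l + 1 by omega]
          omega
      have a3 := a2 l
      rw [show p - 1 + (l + 1) = p - 1 + l + 1 by omega, add_mul, one_mul]
      omega
  have hp1 : p ∣ e (p - 1) := by
    have a1 := hsum (p - 1) le_rfl
    rw [show p - 1 + 1 = p by omega, show p - 1 + 2 = p + 1 by omega] at a1
    obtain ⟨c, hc⟩ := hodd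
    have a2 : 2 * e (p - 1) = 2 * (p * (c + 1)) := by
      rw [a1, show p + 1 = 2 * (c + 1) by omega]
      ring
    exact ⟨c + 1, by omega⟩
  intro j hj
  obtain ⟨l, rfl⟩ : ∃ l, j = p - 1 + l := ⟨j - (p - 1), by omega⟩
  rw [hbig]
  exact dvd_add hp1 (dvd_mul_left _ _)

/-- the first operator is injective on the cyclic module -/
theorem cyc_B (hp : 3 ≤ p) (hodd : Odd p) (hI : IndexP p k t)
    (hc : ∀ i j v, a i (a j v) = a j (a i v)) (hrel : CRel p t a) (m : Q)
    (hx : ∀ j, ∀ v ∈ cyc a m j, a 0 v = 0 → v = 0) :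
    ∃ J, ∀ j, J ≤ j → p ∣ Module.finrank k (cyc a m j) := by
  by_cases hm : m = 0
  · have hz : ∀ j, cyc a m j = ⊥ := by
      intro j
      induction j with
      | zero => rw [cyc_zero, hm, Submodule.span_singleton_eq_bot]
      | succ j ih => rw [cyc_succ, ih]; simp
    refine ⟨0, fun j _ => ?_⟩
    rw [hz, finrank_bot]
    exact dvd_zero p
  set e : ℕ → ℕ := fun j => Module.finrank k (cyc a m j) with he
  have hxr : ∀ j, Module.finrank k ((cyc a m j).map (a 0)) = e j := by
    intro j
    rw [← LinearMap.range_domRestrict]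
    refine LinearMap.finrank_range_of_inj ?_
    rw [injective_iff_map_eq_zero]
    intro v hv
    exact Subtype.ext (hx j v v.2 hv)
  have hmono : ∀ j, e j ≤ e (j + 1) := by
    intro j
    rw [← hxr j]
    exact Submodule.finrank_mono (cyc_map_le a m j 0)
  have hcomm : ∀ j, Module.finrank k ((cyc a m (j + 1)).map (a 0) ⊔ (cyc a m (j + 1)).map (a 1) :
      Submodule k Q) + e j ≤ e (j + 1) + e (j + 1) := by
    intro j
    have h1 := finrank_step (a 1) ((cyc a m j).map (a 0)) (cyc a m (j + 1))
      ((cyc a m (j + 1)).map (a 0)) (cyc_map_le a m j 0)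
      (by rw [map_comm' hc 1 0]; exact Submodule.map_mono (cyc_map_le a m j 1))
    rw [hxr, hxr] at h1
    exact h1
  have hconc : ∀ j, p ≤ j + 2 → e (j + 2) + e j ≤ e (j + 1) + e (j + 1) := by
    intro j hj
    have h1 := hcomm j
    rw [← cyc_top hp hc hrel m (j + 1) (by omega)] at h1
    exact h1
  have hone : ∀ v : Q, Module.finrank k (Submodule.span k {v}) ≤ 1 := fun v =>
    (finrank_span_le_card ({v} : Set Q)).trans (by simp)
  have hstep : ∀ j, e (j + 2) + e j ≤ e (j + 1) + e (j + 1) + 1 := by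
    intro j
    have h1 := hcomm j
    have h2 := Submodule.finrank_add_le_finrank_add_finrank
      ((cyc a m (j + 1)).map (a 0) ⊔ (cyc a m (j + 1)).map (a 1))
      (Submodule.span k {(a 2 ^ (j + 1 + 1)) m})
    rw [← cyc_three hc m (j + 1)] at h2
    have h3 := hone ((a 2 ^ (j + 1 + 1)) m)
    change Module.finrank k (cyc a m (j + 1 + 1)) + e j ≤ _
    omega
  have h0 : e 0 = 1 := by
    change Module.finrank k (cyc a m 0) = 1
    rw [cyc_zero]
    exact finrank_span_singleton hm
  have h1 : e 1 ≤ 3 := by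
    have h2 := Submodule.finrank_add_le_finrank_add_finrank
      ((cyc a m 0).map (a 0) ⊔ (cyc a m 0).map (a 1)) (Submodule.span k {(a 2 ^ (0 + 1)) m})
    rw [← cyc_three hc m 0] at h2
    have h3 := hone ((a 2 ^ (0 + 1)) m)
    have h4 := Submodule.finrank_add_le_finrank_add_finrank ((cyc a m 0).map (a 0))
      ((cyc a m 0).map (a 1))
    have h5 := Submodule.finrank_map_le (a 1) (cyc a m 0)
    have h6 := Submodule.finrank_map_le (a 0) (cyc a m 0)
    have h7 : Module.finrank k (cyc a m 0) = 1 := h0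
    change Module.finrank k (cyc a m (0 + 1)) ≤ 3
    omega
  obtain ⟨J, r, hJp, hJ, hr⟩ := hilb_arith hp hodd e h0 hmono h1 hstep hconc
  have hdvd : p ∣ r := by
    refine sub_div hp hI hc hrel (fun l => cyc a m (J + l + 1))
      (fun l => (cyc a m (J + l)).map (a 0)) (fun l => cyc_map_le a m (J + l) 0)
      (fun b l => cyc_map_le a m (J + l + 1) b)
      (fun b l => by
        rw [map_comm' hc b 0]
        exact Submodule.map_mono (cyc_map_le a m (J + l) b)) 1 (fun l => ?_) _ (fun l => ?_)
    · change cyc a m (J + l + 1 + 1) ≤ (cyc a m (J + l + 1)).map (a 1)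
        ⊔ (cyc a m (J + l + 1)).map (a 0)
      rw [cyc_top hp hc hrel m _ (by omega), sup_comm]
    · rw [hxr]
      exact hJ (J + l) (by omega)
  rcases hr hdvd with hr0 | hr0
  · refine ⟨J, fun j hj => ?_⟩
    have hej : ∀ l, e (j + l) = e j := by
      intro l
      induction l with
      | zero => rfl
      | succ l ih =>
        have h1 := hJ (j + l) (by omega)
        rw [← add_assoc, h1, hr0, ih, add_zero]
    refine sub_div hp hI hc hrel (fun l => cyc a m (j + l)) (fun _ => ⊥) (fun _ => bot_le)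
      (fun b l => cyc_map_le a m (j + l) b) (fun b l => by rw [Submodule.map_bot]) 0
      (fun l => ?_) _ (fun l => ?_)
    · rw [sup_bot_eq]
      refine le_of_eq (Submodule.eq_of_le_of_finrank_eq (cyc_map_le a m (j + l) 0) ?_).symm
      rw [hxr]
      exact (hej l).trans (hej (l + 1)).symm
    · rw [finrank_bot, zero_add]
      exact hej l
  · exact ⟨J, hr0⟩

end

end H36.PX
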