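import Pool.Agent.H36.PX.Base

/-!
# HilbF : the algebra lemma behind the Hilbert function statement

If every point of the curve has degree divisible by `p`, then so has every
finite dimensional space with commuting operators which satisfy the equation of the curve, one of
them being the identity.
-/

set_option autoImplicit false

namespace H36.PX

/-- dimension of a finite dimensional module over a commutative algebra, from its residue fields -/
theorem hilb_algebra {p : ℕ} {k : Type} [Field k] {A : Type} [CommRing A] [Algebra k A]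
    (hA : ∀ I : Ideal A, I.IsMaximal → FiniteDimensional k (A ⧸ I) →
      p ∣ Module.finrank k (A ⧸ I)) :
    ∀ (n : ℕ) (V : Type) [AddCommGroup V] [Module k V] [Module A V] [IsScalarTower k A V]
      [FiniteDimensional k V], Module.finrank k V ≤ n → p ∣ Module.finrank k V := by
  intro n
  induction n with
  | zero =>
    intro V _ _ _ _ _ h
    rw [Nat.le_zero.mp h]
    exact dvd_zero p
  | succ n ih =>
    intro V _ _ _ _ _ h
    by_cases hV : Subsingleton V
    · rw [Module.finrank_zero_of_subsingleton]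
      exact dvd_zero p
    rw [not_subsingleton_iff_nontrivial] at hV
    have : IsNoetherian A V := isNoetherian_of_tower k inferInstance
    obtain ⟨W, hW, -⟩ := (eq_top_or_exists_le_coatom (⊥ : Submodule A V)).resolve_left bot_ne_top
    have hs : IsSimpleModule A (V ⧸ W) := isSimpleModule_iff_isCoatom.mpr hW
    obtain ⟨I, hI, ⟨e⟩⟩ := isSimpleModule_iff_quot_maximal.mp hs
    have e' : (V ⧸ W) ≃ₗ[k] (A ⧸ I) := e.restrictScalars k
    have : FiniteDimensional k (V ⧸ W) :=
      inferInstanceAs (FiniteDimensional k (V ⧸ W.restrictScalars k))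
    have : FiniteDimensional k (A ⧸ I) := Module.Finite.equiv e'
    have h1 : p ∣ Module.finrank k (V ⧸ W) := by
      rw [e'.finrank_eq]
      exact hA I hI inferInstance
    have h2 : Module.finrank k (V ⧸ W) + Module.finrank k W = Module.finrank k V := by
      have := Submodule.finrank_quotient_add_finrank (W.restrictScalars k)
      exact this
    have : FiniteDimensional k W :=
      inferInstanceAs (FiniteDimensional k (W.restrictScalars k))
    have h3 : 0 < Module.finrank k (V ⧸ W) := by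
      have : Nontrivial (V ⧸ W) := IsSimpleModule.nontrivial A (V ⧸ W)
      exact Module.finrank_pos
    have h4 : p ∣ Module.finrank k W := ih W (by omega)
    rw [← h2]
    exact dvd_add h1 h4

open scoped IsMulCommutative in
/-- commuting operators on a curve all of whose points have degree divisible by `p` -/
theorem hilb_operators {p : ℕ} {k : Type} [Field k] {t : k} (hI : IndexP p k t)
    {V : Type} [AddCommGroup V] [Module k V] [FiniteDimensional k V]
    (ξ : Fin 3 → Module.End k V) (hc : ∀ i j, ξ i * ξ j = ξ j * ξ i)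
    (σ : Fin 3) (hσ : ξ σ = 1)
    (hrel : ξ 2 ^ p = t ^ 2 • (ξ 0 ^ (p - 1) * ξ 2) + t • ξ 1 ^ p + t ^ 2 • (ξ 0 * ξ 1 ^ (p - 1))
      + t ^ 2 • ξ 0 ^ p) :
    p ∣ Module.finrank k V := by
  have hcomm : ∀ a ∈ Set.range ξ, ∀ b ∈ Set.range ξ, a * b = b * a := by
    rintro _ ⟨i, rfl⟩ _ ⟨j, rfl⟩
    exact hc i j
  have hmc : IsMulCommutative (Algebra.adjoin k (Set.range ξ)) :=
    Algebra.isMulCommutative_adjoin k hcomm
  set A := Algebra.adjoin k (Set.range ξ) with hAdef
  have hmem : ∀ i, ξ i ∈ A := fun i => Algebra.subset_adjoin ⟨i, rfl⟩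
  let a : Fin 3 → A := fun i => ⟨ξ i, hmem i⟩
  have haσ : a σ = 1 := Subtype.ext hσ
  have harel : a 2 ^ p = t ^ 2 • (a 0 ^ (p - 1) * a 2) + t • a 1 ^ p
      + t ^ 2 • (a 0 * a 1 ^ (p - 1)) + t ^ 2 • a 0 ^ p := Subtype.ext hrel
  refine hilb_algebra (k := k) (A := A) ?_ (Module.finrank k V) V le_rfl
  intro I hImax hfin
  let _ : Field (A ⧸ I) := Ideal.Quotient.field I
  let q : A →ₐ[k] (A ⧸ I) := Ideal.Quotient.mkₐ k I
  have hq : q (a 2) ^ p = algebraMap k (A ⧸ I) (t ^ 2) * q (a 0) ^ (p - 1) * q (a 2)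
      + algebraMap k (A ⧸ I) t * q (a 1) ^ p
      + algebraMap k (A ⧸ I) (t ^ 2) * q (a 0) * q (a 1) ^ (p - 1)
      + algebraMap k (A ⧸ I) (t ^ 2) * q (a 0) ^ p := by
    have := congrArg q harel
    simp only [map_add, map_mul, map_pow, Algebra.smul_def, AlgHom.commutes] at this
    rw [this]
    simp only [map_pow]
    ring
  have hne : q (a 0) ≠ 0 ∨ q (a 1) ≠ 0 ∨ q (a 2) ≠ 0 := by
    have h1 : q (a σ) ≠ 0 := by
      rw [haσ, map_one]
      exact one_ne_zero
    fin_cases σ
    · exact Or.inl h1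
    · exact Or.inr (Or.inl h1)
    · exact Or.inr (Or.inr h1)
  exact hI (A ⧸ I) (q (a 0)) (q (a 1)) (q (a 2)) hne hq

section

variable {k : Type} [Field k] {Q : Type} [AddCommGroup Q] [Module k Q]

/-- the map induced by an operator between two subquotients -/
def sqm (T : Module.End k Q) {F G F' G' : Submodule k Q} (hF : F.map T ≤ F') (hG : G.map T ≤ G') :
    (F ⧸ G.submoduleOf F) →ₗ[k] (F' ⧸ G'.submoduleOf F') :=
  Submodule.mapQ _ _ (T.restrict (p := F) (q := F') fun x hx => hF ⟨x, hx, rfl⟩)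
    (fun x hx => hG ⟨x, hx, rfl⟩)

theorem sqm_mk (T : Module.End k Q) {F G F' G' : Submodule k Q} (hF : F.map T ≤ F')
    (hG : G.map T ≤ G') (x : F) : sqm T hF hG (Submodule.Quotient.mk x) =
      Submodule.Quotient.mk (⟨T x, hF ⟨x, x.2, rfl⟩⟩ : F') := rfl

/-- words of operators -/
def wd (a : Fin 3 → Module.End k Q) (l : List (Fin 3)) : Module.End k Q := (l.map a).prod

theorem wd_nil (a : Fin 3 → Module.End k Q) : wd a [] = 1 := rfl
theorem wd_cons (a : Fin 3 → Module.End k Q) (i : Fin 3) (l : List (Fin 3)) :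
    wd a (i :: l) = a i * wd a l := rfl
theorem wd_replicate (a : Fin 3 → Module.End k Q) (i : Fin 3) (n : ℕ) :
    wd a (List.replicate n i) = a i ^ n := by
  rw [wd, List.map_replicate, List.prod_replicate]
theorem wd_append (a : Fin 3 → Module.End k Q) (l l' : List (Fin 3)) :
    wd a (l ++ l') = wd a l * wd a l' := by
  rw [wd, List.map_append, List.prod_append]; rfl

theorem wd_map_le {a : Fin 3 → Module.End k Q} {F : ℕ → Submodule k Q}
    (hF : ∀ i j, (F j).map (a i) ≤ F (j + 1)) (l : List (Fin 3)) (j : ℕ) :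
    (F j).map (wd a l) ≤ F (j + l.length) := by
  induction l with
  | nil =>
    rintro _ ⟨x, hx, rfl⟩
    exact hx
  | cons i l ih =>
    rintro _ ⟨x, hx, rfl⟩
    exact hF i _ ⟨_, ih ⟨x, hx, rfl⟩, rfl⟩

/-- subquotients on which one of the operators is bijective -/
theorem sub_div {p : ℕ} (hp : 3 ≤ p) {t : k} (hI : IndexP p k t) {a : Fin 3 → Module.End k Q}
    (hc : ∀ i j v, a i (a j v) = a j (a i v))
    (hrel : ∀ v, (a 2 ^ p) v = t ^ 2 • (a 0 ^ (p - 1)) (a 2 v) + t • (a 1 ^ p) v
      + t ^ 2 • a 0 ((a 1 ^ (p - 1)) v) + t ^ 2 • (a 0 ^ p) v)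
    (F G : ℕ → Submodule k Q) [hfin : ∀ j, FiniteDimensional k (F j)] (hGF : ∀ j, G j ≤ F j)
    (hF : ∀ i j, (F j).map (a i) ≤ F (j + 1)) (hG : ∀ i j, (G j).map (a i) ≤ G (j + 1))
    (σ : Fin 3) (hs : ∀ j, F (j + 1) ≤ (F j).map (a σ) ⊔ G (j + 1)) (r : ℕ)
    (hr : ∀ j, Module.finrank k (F j) = Module.finrank k (G j) + r) : p ∣ r := by
  have hrank : ∀ j, Module.finrank k (F j ⧸ (G j).submoduleOf (F j)) = r := by
    intro j
    have h1 := Submodule.finrank_quotient_add_finrank ((G j).submoduleOf (F j))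
    have h2 : Module.finrank k ((G j).submoduleOf (F j)) = Module.finrank k (G j) :=
      (Submodule.submoduleOfEquivOfLe (hGF j)).finrank_eq
    have h3 := hr j
    omega
  have hsurj : ∀ j, Function.Surjective (sqm (a σ) (hF σ j) (hG σ j)) := by
    intro j y
    obtain ⟨y, rfl⟩ := Submodule.Quotient.mk_surjective _ y
    obtain ⟨_, ⟨x, hx, rfl⟩, g, hg, hxy⟩ := Submodule.mem_sup.mp (hs j y.2)
    refine ⟨Submodule.Quotient.mk ⟨x, hx⟩, ?_⟩
    rw [sqm_mk, Submodule.Quotient.eq]
    change (a σ x - (y : Q)) ∈ G (j + 1)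
    rw [← hxy, sub_add_cancel_left]
    exact (G (j + 1)).neg_mem hg
  have hinj : ∀ j, Function.Injective (sqm (a σ) (hF σ j) (hG σ j)) := fun j =>
    (LinearMap.injective_iff_surjective_of_finrank_eq_finrank
      ((hrank j).trans (hrank (j + 1)).symm)).mpr (hsurj j)
  let e := LinearEquiv.ofBijective (sqm (a σ) (hF σ 0) (hG σ 0)) ⟨hinj 0, hsurj 0⟩
  let V := F 0 ⧸ (G 0).submoduleOf (F 0)
  let ξ : Fin 3 → Module.End k V := fun i =>
    (e.symm : (F 1 ⧸ (G 1).submoduleOf (F 1)) →ₗ[k] V) ∘ₗ sqm (a i) (hF i 0) (hG i 0)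
  have key : ∀ i v, sqm (a σ) (hF σ 0) (hG σ 0) (ξ i v) = sqm (a i) (hF i 0) (hG i 0) v :=
    fun i v => e.apply_symm_apply (sqm (a i) (hF i 0) (hG i 0) v)
  -- powers of `a σ`
  let P : ∀ n, V →ₗ[k] (F n ⧸ (G n).submoduleOf (F n)) := fun n =>
    sqm (a σ ^ n) (F' := F n) (G' := G n)
      (by
        have h := wd_map_le hF (List.replicate n σ) 0
        rwa [wd_replicate, List.length_replicate, zero_add] at h)
      (by
        have h := wd_map_le hG (List.replicate n σ) 0
        rwa [wd_replicate, List.length_replicate, zero_add] at h)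
  have hPinj : ∀ n, Function.Injective (P n) := by
    intro n
    induction n with
    | zero =>
      intro x y hxy
      obtain ⟨x, rfl⟩ := Submodule.Quotient.mk_surjective _ x
      obtain ⟨y, rfl⟩ := Submodule.Quotient.mk_surjective _ y
      exact hxy
    | succ n ih =>
      intro x y hxy
      apply ih
      apply hinj n
      obtain ⟨x, rfl⟩ := Submodule.Quotient.mk_surjective _ x
      obtain ⟨y, rfl⟩ := Submodule.Quotient.mk_surjective _ y
      have h1 : ∀ x : F 0, sqm (a σ) (hF σ n) (hG σ n) (P n (Submodule.Quotient.mk x)) =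
          P (n + 1) (Submodule.Quotient.mk x) := by
        intro x
        refine congrArg _ (Subtype.ext ?_)
        change a σ ((a σ ^ n) x) = (a σ ^ (n + 1)) x
        rw [pow_succ']
        rfl
      rw [h1, h1, hxy]
  have hcw : ∀ (i : Fin 3) (n : ℕ) (v : Q), (a σ ^ n) (a i v) = a i ((a σ ^ n) v) := by
    intro i n v
    induction n with
    | zero => rfl
    | succ n ih =>
      rw [pow_succ']
      change a σ ((a σ ^ n) (a i v)) = a i (a σ ((a σ ^ n) v))
      rw [ih, hc]
  have hW : ∀ (l : List (Fin 3)) (v w : F 0) (n : ℕ), l.length = n →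
      wd ξ l (Submodule.Quotient.mk v) = Submodule.Quotient.mk w →
      (a σ ^ n) w - wd a l v ∈ G n := by
    intro l
    induction l with
    | nil =>
      rintro v w n rfl h
      have h1 : (Submodule.Quotient.mk v : V) = Submodule.Quotient.mk w := h
      rw [Submodule.Quotient.eq] at h1
      have h2 : (v - w : Q) ∈ G 0 := h1
      have h3 := (G 0).neg_mem h2
      rw [neg_sub] at h3
      exact h3
    | cons i l ih =>
      rintro v w n rfl h
      obtain ⟨w', hw'⟩ := Submodule.Quotient.mk_surjective _ (wd ξ l (Submodule.Quotient.mk v))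
      have h1 := ih v w' l.length rfl hw'.symm
      have h2 : ξ i (Submodule.Quotient.mk w') = (Submodule.Quotient.mk w : V) := by
        rw [hw']; exact h
      have h3 := key i (Submodule.Quotient.mk w')
      rw [h2, sqm_mk, sqm_mk, Submodule.Quotient.eq] at h3
      have h4 : (a σ w - a i w' : Q) ∈ G 1 := h3
      have h5 : (a σ ^ l.length) (a σ w - a i w') ∈ G (1 + l.length) := by
        have h := wd_map_le hG (List.replicate l.length σ) 1
        rw [wd_replicate, List.length_replicate] at h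
        exact h ⟨_, h4, rfl⟩
      have h6 : a i ((a σ ^ l.length) w' - wd a l v) ∈ G (l.length + 1) := hG i _ ⟨_, h1, rfl⟩
      rw [map_sub, hcw i, add_comm 1] at h5
      rw [map_sub] at h6
      have h7 := (G (l.length + 1)).add_mem h5 h6
      have h8 : (a σ ^ (l.length + 1)) w - a i (wd a l v) =
          (a σ ^ l.length) (a σ w) - a i ((a σ ^ l.length) w') +
          (a i ((a σ ^ l.length) w') - a i (wd a l v)) := by
        rw [pow_succ]
        change (a σ ^ l.length) (a σ w) - _ = _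
        abel
      change (a σ ^ (l.length + 1)) w - a i (wd a l v) ∈ G (l.length + 1)
      rw [h8]
      exact h7
  have hpn : p - 1 + 1 = p := by omega
  -- the relation for words
  have hwr : ∀ v : Q, wd a (List.replicate p 2) v =
      t ^ 2 • wd a (List.replicate (p - 1) 0 ++ [2]) v + t • wd a (List.replicate p 1) v
        + t ^ 2 • wd a (0 :: List.replicate (p - 1) 1) v + t ^ 2 • wd a (List.replicate p 0) v := by
    intro v
    have e1 : wd a (List.replicate (p - 1) 0 ++ [2]) v = (a 0 ^ (p - 1)) (a 2 v) := by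
      rw [wd_append, wd_replicate]; rfl
    have e2 : wd a (0 :: List.replicate (p - 1) 1) v = a 0 ((a 1 ^ (p - 1)) v) := by
      rw [wd_cons, wd_replicate]; rfl
    rw [e1, e2, wd_replicate, wd_replicate, wd_replicate, hrel]
  have hfd : FiniteDimensional k V := inferInstance
  rw [← hrank 0]
  refine hilb_operators hI ξ ?_ σ ?_ ?_
  · intro i j
    refine LinearMap.ext fun v => ?_
    obtain ⟨v, rfl⟩ := Submodule.Quotient.mk_surjective _ v
    obtain ⟨w1, hw1⟩ := Submodule.Quotient.mk_surjective _ ((ξ i * ξ j) (Submodule.Quotient.mk v))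
    obtain ⟨w2, hw2⟩ := Submodule.Quotient.mk_surjective _ ((ξ j * ξ i) (Submodule.Quotient.mk v))
    have h1 := hW [i, j] v w1 2 rfl hw1.symm
    have h2 := hW [j, i] v w2 2 rfl hw2.symm
    rw [← hw1, ← hw2]
    apply hPinj 2
    change (Submodule.Quotient.mk (⟨(a σ ^ 2) w1, _⟩ : F 2) : F 2 ⧸ (G 2).submoduleOf (F 2)) =
      Submodule.Quotient.mk (⟨(a σ ^ 2) w2, _⟩ : F 2)
    rw [Submodule.Quotient.eq]
    change (a σ ^ 2) w1 - (a σ ^ 2) w2 ∈ G 2
    have h3 := (G 2).sub_mem h1 h2
    have h4 : wd a [i, j] v = wd a [j, i] v := hc i j v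
    rw [h4, sub_sub_sub_cancel_right] at h3
    exact h3
  · refine LinearMap.ext fun v => ?_
    exact e.symm_apply_apply v
  · refine LinearMap.ext fun v => ?_
    obtain ⟨v, rfl⟩ := Submodule.Quotient.mk_surjective _ v
    have e1 : ξ 2 ^ p = wd ξ (List.replicate p 2) := (wd_replicate ξ 2 p).symm
    have e2 : ξ 0 ^ (p - 1) * ξ 2 = wd ξ (List.replicate (p - 1) 0 ++ [2]) := by
      rw [wd_append, wd_replicate]; rfl
    have e3 : ξ 1 ^ p = wd ξ (List.replicate p 1) := (wd_replicate ξ 1 p).symm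
    have e4 : ξ 0 * ξ 1 ^ (p - 1) = wd ξ (0 :: List.replicate (p - 1) 1) := by
      rw [wd_cons, wd_replicate]
    have e5 : ξ 0 ^ p = wd ξ (List.replicate p 0) := (wd_replicate ξ 0 p).symm
    rw [e1, e2, e3, e4, e5]
    obtain ⟨w1, hw1⟩ := Submodule.Quotient.mk_surjective _
      (wd ξ (List.replicate p 2) (Submodule.Quotient.mk v))
    obtain ⟨w2, hw2⟩ := Submodule.Quotient.mk_surjective _
      (wd ξ (List.replicate (p - 1) 0 ++ [2]) (Submodule.Quotient.mk v))
    obtain ⟨w3, hw3⟩ := Submodule.Quotient.mk_surjective _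
      (wd ξ (List.replicate p 1) (Submodule.Quotient.mk v))
    obtain ⟨w4, hw4⟩ := Submodule.Quotient.mk_surjective _
      (wd ξ (0 :: List.replicate (p - 1) 1) (Submodule.Quotient.mk v))
    obtain ⟨w5, hw5⟩ := Submodule.Quotient.mk_surjective _
      (wd ξ (List.replicate p 0) (Submodule.Quotient.mk v))
    have h1 := hW _ v w1 p (by simp) hw1.symm
    have h2 := hW _ v w2 p (by simp; omega) hw2.symm
    have h3 := hW _ v w3 p (by simp) hw3.symm
    have h4 := hW _ v w4 p (by simp; omega) hw4.symm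
    have h5 := hW _ v w5 p (by simp) hw5.symm
    simp only [LinearMap.add_apply, LinearMap.smul_apply]
    rw [← hw1, ← hw2, ← hw3, ← hw4, ← hw5]
    apply hPinj p
    rw [map_add, map_add, map_add, map_smul, map_smul, map_smul, map_smul]
    change (Submodule.Quotient.mk (⟨(a σ ^ p) w1, _⟩ : F p) : F p ⧸ (G p).submoduleOf (F p)) =
      Submodule.Quotient.mk (t ^ 2 • (⟨(a σ ^ p) w2, _⟩ : F p) + t • (⟨(a σ ^ p) w3, _⟩ : F p)
        + t ^ 2 • (⟨(a σ ^ p) w4, _⟩ : F p) + t ^ 2 • (⟨(a σ ^ p) w5, _⟩ : F p))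
    rw [Submodule.Quotient.eq]
    change (a σ ^ p) w1 - (t ^ 2 • (a σ ^ p) w2 + t • (a σ ^ p) w3 + t ^ 2 • (a σ ^ p) w4
      + t ^ 2 • (a σ ^ p) w5) ∈ G p
    have h6 := (G p).sub_mem h1 ((G p).add_mem ((G p).add_mem ((G p).add_mem
      ((G p).smul_mem (t ^ 2) h2) ((G p).smul_mem t h3)) ((G p).smul_mem (t ^ 2) h4))
      ((G p).smul_mem (t ^ 2) h5))
    rw [hwr] at h6
    convert h6 using 1
    simp only [smul_sub]
    abel

end

end H36.PX
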