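import Pool.Agent.H36.PX.Bim
import Pool.Agent.H36.PX.BimK

/-!
# HomsA : inclusion, multiplication by `u`, `w`, and value, as maps of dg modules

WARNING: never let Lean unify `(qSD C α β).V` with different weights (it may run forever): use `q_ext`,
`qv_qIn`, `qv_qU`, `qv_qMulL`, `qv_qMulR`, `smulR_left`, `smulR_right`, `val_mul`.
-/

set_option autoImplicit false

open NC
open scoped TensorProduct

namespace H36.PX

open H36.NX
variable {pp : ℕ} {k : Type} [Field k] {t : k} {R : Type} [CommRing R] [Algebra k R]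
  {K : Type} [Field K] [Algebra k K] {I J : Type}

/-! ### inclusion, multiplication by `u`, value as maps of complexes -/

/-- inclusion -/
noncomputable def qInH (C : PRing pp k t R) {α α' : I → ℤ} {β β' : J → ℤ}
    (h : ∀ i j, β j - α i ≤ β' j - α' i) : SD.Hom (qSD C α β) (qSD C α' β') where
  f := qIn C h
  D v := q_ext C (by rw [qv_qIn, qv_D, qv_D, qv_qIn])
  P v := q_ext C (by rw [qv_qIn, qv_P, qv_P, qv_qIn])

/-- multiplication by `u` -/
noncomputable def qUH (C : PRing pp k t R) {α α' : I → ℤ} {β β' : J → ℤ}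
    (h : ∀ i j, β j - α i + 1 = β' j - α' i) : SD.Hom (qSD C α β) (qSD C α' β') where
  f := qU C h
  D v := q_ext C (by rw [qv_qU, qv_D, qv_D, qv_qU, smulR_D])
  P v := q_ext C (by rw [qv_qU, qv_P, qv_P, qv_qU, smulR_P])

/-- multiplication by `w` -/
noncomputable def qWH (C : PRing pp k t R) {α α' : I → ℤ} {β β' : J → ℤ}
    (h : ∀ i j, β j - α i + 1 = β' j - α' i) : SD.Hom (qSD C α β) (qSD C α' β') where
  f := qW C h
  D v := q_ext C (by rw [qv_qW, qv_D, qv_D, qv_qW, smulR_D])
  P v := q_ext C (by rw [qv_qW, qv_P, qv_P, qv_qW, smulR_P])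

/-- the value at the point `x = 0` -/
noncomputable def valH (C : PRing pp k t R) (E : PRoot pp k t K) (α : I → ℤ) (β : J → ℤ) :
    SD.Hom (qSD C α β) (kSD k K I J) where
  f := (val C E α β).comp (qv C α β)
  D v := by
    change val C E α β (qv C α β ((qSD C α β).D v)) = 0
    rw [qv_D, val_D]
  P v := by
    change val C E α β (qv C α β ((qSD C α β).P v)) = val C E α β (qv C α β v)
    rw [qv_P, val_P]

theorem qInH_left (C : PRing pp k t R) {β β' : J → ℤ}
    (h : ∀ (i : Fin 2) j, β j - wt i ≤ β' j - wt i) :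
    (qLA C β).IsHom (qLA C β') (qInH C h) := fun a n => q_ext C (by
  change qv C wt β' (qIn C h (qMulL C β a n)) = qv C wt β' (qMulL C β' a (qIn C h n))
  rw [qv_qIn, qv_qMulL, qv_qMulL, qv_qIn])

theorem qInH_right (C : PRing pp k t R) {α α' : I → ℤ} {n n' : ℤ}
    (h : ∀ i j, wtn n j - α i ≤ wtn n' j - α' i) :
    (qRA C α n).IsHom (qRA C α' n') (qInH C h) := fun x a => q_ext C (by
  change qv C α' (wtn n') (qIn C h (qMulR C α n x a))
    = qv C α' (wtn n') (qMulR C α' n' (qIn C h x) a)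
  rw [qv_qIn, qv_qMulR, qv_qMulR, qv_qIn])

theorem qUH_left (C : PRing pp k t R) {β β' : J → ℤ}
    (h : ∀ (i : Fin 2) j, β j - wt i + 1 = β' j - wt i) :
    (qLA C β).IsHom (qLA C β') (qUH C h) := fun a n => q_ext C (by
  change qv C wt β' (qU C h (qMulL C β a n)) = qv C wt β' (qMulL C β' a (qU C h n))
  rw [qv_qU, qv_qMulL, qv_qMulL, qv_qU, smulR_right])

theorem qUH_right (C : PRing pp k t R) {α α' : I → ℤ} {n n' : ℤ}
    (h : ∀ i j, wtn n j - α i + 1 = wtn n' j - α' i) :
    (qRA C α n).IsHom (qRA C α' n') (qUH C h) := fun x a => q_ext C (by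
  change qv C α' (wtn n') (qU C h (qMulR C α n x a))
    = qv C α' (wtn n') (qMulR C α' n' (qU C h x) a)
  rw [qv_qU, qv_qMulR, qv_qMulR, qv_qU, smulR_left])

theorem qWH_left (C : PRing pp k t R) {β β' : J → ℤ}
    (h : ∀ (i : Fin 2) j, β j - wt i + 1 = β' j - wt i) :
    (qLA C β).IsHom (qLA C β') (qWH C h) := fun a n => q_ext C (by
  change qv C wt β' (qW C h (qMulL C β a n)) = qv C wt β' (qMulL C β' a (qW C h n))
  rw [qv_qW, qv_qMulL, qv_qMulL, qv_qW, smulR_right])

theorem qWH_right (C : PRing pp k t R) {α α' : I → ℤ} {n n' : ℤ}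
    (h : ∀ i j, wtn n j - α i + 1 = wtn n' j - α' i) :
    (qRA C α n).IsHom (qRA C α' n') (qWH C h) := fun x a => q_ext C (by
  change qv C α' (wtn n') (qW C h (qMulR C α n x a))
    = qv C α' (wtn n') (qMulR C α' n' (qW C h x) a)
  rw [qv_qW, qv_qMulR, qv_qMulR, qv_qW, smulR_left])

theorem valH_left (C : PRing pp k t R) (E : PRoot pp k t K) (β : J → ℤ) :
    (qLA C β).IsHom (kLA C E J) (valH C E wt β) := fun a n => by
  change val C E wt β (qv C wt β (qMulL C β a n))
    = kMul k K (Fin 2) (Fin 2) J (aVal C E a) (val C E wt β (qv C wt β n))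
  rw [qv_qMulL]
  exact val_mul C E wt wt β (av_mem C a) (qv_mem C n)

theorem valH_right (C : PRing pp k t R) (E : PRoot pp k t K) (α : I → ℤ) (n : ℤ) :
    (qRA C α n).IsHom (kRA C E I) (valH C E α (wtn n)) := fun x a => by
  change val C E α (wtn n) (qv C α (wtn n) (qMulR C α n x a))
    = kMul k K I (Fin 2) (Fin 2) (val C E α (wtn n) (qv C α (wtn n) x)) (aVal C E a)
  rw [qv_qMulR]
  have h0 : av C a ∈ QQ C (wtn n) (wtn n) := QQ_le C (fun i j => by simp [wt, wtn]) (av_mem C a)
  have h1 : val C E (wtn n) (wtn n) (av C a) = val C E wt wt (av C a) := by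
    ext i j
    rw [val_apply, val_apply, show wtn n j - wtn n i = wt j - wt i by simp [wt, wtn]]
  have h2 := val_mul C E α (wtn n) (wtn n) (qv_mem C x) h0
  rw [h1] at h2
  exact h2

end H36.PX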