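import Pool.Agent.H36.PX.Base

/-!
# LeadK : the residue field `K = k(α)`, `α^pp = t`, of the point `x = 0`
-/

set_option autoImplicit false

namespace H36.PX

open H36.NX
/-- a field generated by a root of degree `pp` of `t`, of degree `pp` -/
structure PRoot (pp : ℕ) (k : Type) [Field k] (t : k) (K : Type) [Field K] [Algebra k K] where
  α : K
  cube : α ^ pp = algebraMap k K t
  basK : Module.Basis (Fin pp) k K
  basK_eq : ∀ i : Fin pp, basK i = α ^ (i : ℕ)

/-- the point `(0 : 1 : c)` with `c^pp = t` would have degree one; hence `X^pp - t` is irreducible -/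
theorem exists_pRoot (pp : ℕ) (k : Type) [Field k] [Fact pp.Prime] (hp3 : 3 ≤ pp) (t : k)
    (hI : IndexP pp k t) :
    ∃ (K : Type) (_ : Field K) (_ : Algebra k K), Nonempty (PRoot pp k t K) := by
  classical
  have hpr : pp.Prime := Fact.out
  have hne : ∀ b : k, b ^ pp ≠ t := by
    intro b hb
    have h := hI k (0 : k) (1 : k) b (Or.inr (Or.inl one_ne_zero)) (by
      simp only [Algebra.algebraMap_self, RingHom.id_apply]
      rw [hb, zero_pow (by omega), zero_pow (by omega), one_pow]
      ring)
    rw [Module.finrank_self] at h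
    have := Nat.le_of_dvd one_pos h
    omega
  have hirr : Irreducible (Polynomial.X ^ pp - Polynomial.C t : Polynomial k) :=
    X_pow_sub_C_irreducible_of_prime hpr hne
  have : Fact (Irreducible (Polynomial.X ^ pp - Polynomial.C t : Polynomial k)) := ⟨hirr⟩
  have hnz : (Polynomial.X ^ pp - Polynomial.C t : Polynomial k) ≠ 0 := hirr.ne_zero
  have hdim : (AdjoinRoot.powerBasis hnz).dim = pp := by
    rw [AdjoinRoot.powerBasis_dim]
    exact Polynomial.natDegree_X_pow_sub_C
  refine ⟨AdjoinRoot (Polynomial.X ^ pp - Polynomial.C t : Polynomial k), inferInstance,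
    inferInstance, ⟨?_⟩⟩
  refine
    { α := AdjoinRoot.root _
      cube := ?_
      basK := (AdjoinRoot.powerBasis hnz).basis.reindex (finCongr hdim)
      basK_eq := ?_ }
  · have h := AdjoinRoot.eval₂_root (Polynomial.X ^ pp - Polynomial.C t : Polynomial k)
    rw [Polynomial.eval₂_sub, Polynomial.eval₂_pow, Polynomial.eval₂_X, Polynomial.eval₂_C,
      sub_eq_zero] at h
    exact h
  · intro i
    rw [Module.Basis.reindex_apply, PowerBasis.basis_eq_pow, AdjoinRoot.powerBasis_gen]
    rfl

end H36.PX
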