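import Pool.Agent.H36.PX.Split

/-!
# SplitB : the value at `P` on `K ⊗ Y n`, and divisibility by `ell` (step S3)

In the chart `y ≠ 0` (`v = 1/u`, `w' = w/u`): `w'^pp = t^2 v^(pp-1) w' + t + t^2 v + t^2 v^pp`, hence
`t^2 v (v^(pp-1) + α v^(pp-2) + 1)` is a multiple of `w' - α` in `K ⊗ R`.
-/

set_option autoImplicit false

open scoped TensorProduct

namespace H36.PX

open H36.NX
namespace PRing

variable {pp : ℕ} {k : Type} [Field k] {t : k} {R : Type} [CommRing R] [Algebra k R]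
variable {K : Type} [Field K] [Algebra k K]

private theorem tmul_mem_VY (C : PRing pp k t R) {n : ℤ} (c : K) {r : R} (hr : r ∈ C.Y n) :
    c ⊗ₜ[k] r ∈ C.VY K n := by
  refine ⟨c ⊗ₜ[k] (⟨r, hr⟩ : C.Y n), ?_⟩
  rw [TensorProduct.map_tmul]
  rfl

private theorem VY_ind (C : PRing pp k t R) {n : ℤ} {Q : K ⊗[k] R → Prop} (h0 : Q 0)
    (ht : ∀ (c : K) (r : R), r ∈ C.Y n → Q (c ⊗ₜ[k] r)) (ha : ∀ x y, Q x → Q y → Q (x + y))
    {z : K ⊗[k] R} (h : z ∈ C.VY K n) : Q z := by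
  obtain ⟨x, rfl⟩ := h
  induction x using TensorProduct.induction_on with
  | zero => rw [map_zero]; exact h0
  | tmul c y =>
    rw [TensorProduct.map_tmul]
    exact ht c y.1 y.2
  | add x y hx hy =>
    rw [map_add]
    exact ha _ _ hx hy

private theorem VY_mul (C : PRing pp k t R) {m n : ℤ} {x y : K ⊗[k] R}
    (hx : x ∈ C.VY K m) (hy : y ∈ C.VY K n) : x * y ∈ C.VY K (m + n) := by
  refine C.VY_ind (Q := fun x => x * y ∈ C.VY K (m + n)) ?_ ?_ ?_ hx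
  · rw [zero_mul]
    exact zero_mem _
  · intro c r hr
    refine C.VY_ind (Q := fun y => c ⊗ₜ[k] r * y ∈ C.VY K (m + n)) ?_ ?_ ?_ hy
    · rw [mul_zero]
      exact zero_mem _
    · intro d s hs
      rw [Algebra.TensorProduct.tmul_mul_tmul]
      exact C.tmul_mem_VY _ (C.mul_mem_Y hr hs)
    · intro a b ha hb
      rw [mul_add]
      exact add_mem ha hb
  · intro a b ha hb
    rw [add_mul]
    exact add_mem ha hb

private theorem VY_mono (C : PRing pp k t R) {m n : ℤ} (h : m ≤ n) {x : K ⊗[k] R}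
    (hx : x ∈ C.VY K m) : x ∈ C.VY K n := by
  refine C.VY_ind (Q := fun x => x ∈ C.VY K n) (zero_mem _) ?_ (fun a b ha hb => add_mem ha hb) hx
  intro c r hr
  exact C.tmul_mem_VY c (C.Y_mono h hr)

private theorem vlead_tmul (C : PRing pp k t R) (E : PRoot pp k t K) (n : ℤ) (c : K) (r : R) :
    C.vlead E n (c ⊗ₜ[k] r) = c * C.lead E n r := by
  unfold vlead
  rw [LinearMap.comp_apply, TensorProduct.map_tmul, LinearMap.mul'_apply]
  rfl

private theorem lead_upow (C : PRing pp k t R) (E : PRoot pp k t K) (n m : ℤ) :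
    C.lead E n ((C.u ^ m : Rˣ) : R) = if m = n then 1 else 0 := by
  have h := C.lead_bas E n m (C.ix 0 (by norm_num))
  rw [C.bas_eq, PRing.ix_val, pow_zero, mul_one, Nat.cast_zero, add_zero, pow_zero] at h
  exact h

theorem vlead_ell (C : PRing pp k t R) (E : PRoot pp k t K) {n : ℤ} {z : K ⊗[k] R}
    (h : z ∈ C.VY K n) : C.vlead E (n + 1) (C.ell E * z) = 0 := by
  refine C.VY_ind (Q := fun z => C.vlead E (n + 1) (C.ell E * z) = 0) ?_ ?_ ?_ h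
  · rw [mul_zero, map_zero]
  · intro c r hr
    unfold ell
    rw [sub_mul, Algebra.TensorProduct.tmul_mul_tmul, Algebra.TensorProduct.tmul_mul_tmul, map_sub,
      vlead_tmul, vlead_tmul, mul_comm C.w r, mul_comm (C.u : R) r,
      C.lead_mul E hr (C.w_mem_Y le_rfl), C.lead_w]
    have hu : (C.u : R) ∈ C.Y 1 := by
      have := C.upow_mem_Y (le_refl (1 : ℤ))
      rwa [zpow_one] at this
    rw [C.lead_mul E hr hu, C.lead_u]
    ring
  · intro x y hx hy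
    rw [mul_add, map_add, hx, hy, add_zero]

theorem vlead_eps (C : PRing pp k t R) (E : PRoot pp k t K) (c : K) (n : ℤ) :
    C.vlead E n ((c ⊗ₜ[k] ((C.u ^ n : Rˣ) : R)) * C.eps E) = c := by
  have hp3 := C.hp
  rw [eps_expand, mul_add, mul_add, Algebra.TensorProduct.tmul_mul_tmul,
    Algebra.TensorProduct.tmul_mul_tmul, Algebra.TensorProduct.tmul_mul_tmul, mul_one, mul_one,
    ← Units.val_mul, ← Units.val_mul, ← zpow_add, ← zpow_add, map_add, map_add, vlead_tmul,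
    vlead_tmul, vlead_tmul, lead_upow, lead_upow, lead_upow, if_pos rfl, if_neg (by omega),
    if_neg (by omega), mul_one, mul_zero, mul_zero, add_zero, add_zero]

/-- `eps` is divisible by `ell` in `K ⊗ R` -/
theorem eps_eq (C : PRing pp k t R) (E : PRoot pp k t K) (ht : t ≠ 0) :
    ∃ z : K ⊗[k] R, C.eps E = C.ell E * z := by
  have h := C.ell_cof E
  have ht2 : t ^ 2 ≠ 0 := pow_ne_zero 2 ht
  refine ⟨(t ^ 2)⁻¹ • (((1 : K) ⊗ₜ[k] ((C.u ^ (1 - (pp : ℤ)) : Rˣ) : R)) * C.cof E), ?_⟩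
  rw [mul_smul_comm, mul_left_comm, h, mul_smul_comm, smul_smul, inv_mul_cancel₀ ht2, one_smul]
  rfl

private theorem cof_mem (C : PRing pp k t R) (E : PRoot pp k t K) :
    C.cof E ∈ C.VY K ((pp : ℤ) - 1) := by
  have hp3 := C.hp
  have hu : (C.u : R) ∈ C.Y 1 := by
    have := C.upow_mem_Y (le_refl (1 : ℤ))
    rwa [zpow_one] at this
  have hupow : ∀ j : ℕ, (C.u : R) ^ j ∈ C.Y (j : ℤ) := by
    intro j
    have := C.upow_mem_Y (le_refl (j : ℤ))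
    rwa [zpow_natCast, Units.val_pow_eq_pow_val] at this
  unfold cof
  refine sub_mem (Submodule.sum_mem _ fun i hi => ?_) ?_
  · have hi' := Finset.mem_range.1 hi
    rw [Algebra.TensorProduct.tmul_pow, Algebra.TensorProduct.tmul_pow, one_pow]
    have h := C.VY_mul (C.tmul_mem_VY (1 : K) (C.wpow_mem_Y i (le_refl (i : ℤ))))
      (C.tmul_mem_VY (E.α ^ (pp - 1 - i)) (hupow (pp - 1 - i)))
    have e : (i : ℤ) + ((pp - 1 - i : ℕ) : ℤ) = (pp : ℤ) - 1 := by omega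
    rwa [e] at h
  · rw [Algebra.algebraMap_eq_smul_one]
    refine Submodule.smul_mem _ _ ?_
    exact C.tmul_mem_VY (1 : K) (C.one_mem_Y (by omega))

private theorem v_eps (C : PRing pp k t R) (E : PRoot pp k t K) (ht : t ≠ 0) :
    ∃ q ∈ C.VY K (-1), ((1 : K) ⊗ₜ[k] ((C.u ^ (-1 : ℤ) : Rˣ) : R)) * C.eps E = C.ell E * q := by
  have h := C.ell_cof E
  have ht2 : t ^ 2 ≠ 0 := pow_ne_zero 2 ht
  refine ⟨(t ^ 2)⁻¹ • (((1 : K) ⊗ₜ[k] ((C.u ^ (-(pp : ℤ)) : Rˣ) : R)) * C.cof E), ?_, ?_⟩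
  · refine Submodule.smul_mem _ _ ?_
    have := C.VY_mul (C.tmul_mem_VY (1 : K) (C.upow_mem_Y (le_refl (-(pp : ℤ))))) (C.cof_mem E)
    have e : (-(pp : ℤ)) + ((pp : ℤ) - 1) = -1 := by ring
    rwa [e] at this
  · rw [mul_smul_comm, mul_left_comm, h, mul_smul_comm, smul_smul, inv_mul_cancel₀ ht2, one_smul]
    unfold eps
    rw [← mul_assoc, Algebra.TensorProduct.tmul_mul_tmul, one_mul, ← Units.val_mul, ← zpow_add]
    congr 4
    ring

private theorem decomp (C : PRing pp k t R) (E : PRoot pp k t K) (n : ℤ) {z : K ⊗[k] R}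
    (h : z ∈ C.VY K n) : ∃ z1 ∈ C.VY K n, ∃ z2 ∈ C.VY K (n - 1),
      z = (C.vlead E n z) ⊗ₜ[k] ((C.u ^ n : Rˣ) : R)
        + ((1 : K) ⊗ₜ[k] ((C.u ^ (-1 : ℤ) : Rˣ) : R)) * (C.ell E * z1) + z2 := by
  have hadd : ∀ x y : K ⊗[k] R,
      (∃ z1 ∈ C.VY K n, ∃ z2 ∈ C.VY K (n - 1),
      x = (C.vlead E n x) ⊗ₜ[k] ((C.u ^ n : Rˣ) : R)
        + ((1 : K) ⊗ₜ[k] ((C.u ^ (-1 : ℤ) : Rˣ) : R)) * (C.ell E * z1) + z2) →
      (∃ z1 ∈ C.VY K n, ∃ z2 ∈ C.VY K (n - 1),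
      y = (C.vlead E n y) ⊗ₜ[k] ((C.u ^ n : Rˣ) : R)
        + ((1 : K) ⊗ₜ[k] ((C.u ^ (-1 : ℤ) : Rˣ) : R)) * (C.ell E * z1) + z2) →
      ∃ z1 ∈ C.VY K n, ∃ z2 ∈ C.VY K (n - 1),
      x + y = (C.vlead E n (x + y)) ⊗ₜ[k] ((C.u ^ n : Rˣ) : R)
        + ((1 : K) ⊗ₜ[k] ((C.u ^ (-1 : ℤ) : Rˣ) : R)) * (C.ell E * z1) + z2 := by
    rintro x y ⟨x1, hx1, x2, hx2, hx⟩ ⟨y1, hy1, y2, hy2, hy⟩
    refine ⟨x1 + y1, add_mem hx1 hy1, x2 + y2, add_mem hx2 hy2, ?_⟩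
    rw [map_add, TensorProduct.add_tmul, mul_add, mul_add]
    calc x + y = ((C.vlead E n x) ⊗ₜ[k] ((C.u ^ n : Rˣ) : R)
        + ((1 : K) ⊗ₜ[k] ((C.u ^ (-1 : ℤ) : Rˣ) : R)) * (C.ell E * x1) + x2)
        + ((C.vlead E n y) ⊗ₜ[k] ((C.u ^ n : Rˣ) : R)
        + ((1 : K) ⊗ₜ[k] ((C.u ^ (-1 : ℤ) : Rˣ) : R)) * (C.ell E * y1) + y2) := by
          rw [← hx, ← hy]
      _ = _ := by abel
  have hzero : ∃ z1 ∈ C.VY K n, ∃ z2 ∈ C.VY K (n - 1),
      (0 : K ⊗[k] R) = (C.vlead E n 0) ⊗ₜ[k] ((C.u ^ n : Rˣ) : R)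
        + ((1 : K) ⊗ₜ[k] ((C.u ^ (-1 : ℤ) : Rˣ) : R)) * (C.ell E * z1) + z2 := by
    refine ⟨0, zero_mem _, 0, zero_mem _, ?_⟩
    rw [map_zero, TensorProduct.zero_tmul, mul_zero, mul_zero, add_zero, add_zero]
  refine C.VY_ind (Q := fun z => ∃ z1 ∈ C.VY K n, ∃ z2 ∈ C.VY K (n - 1),
      z = (C.vlead E n z) ⊗ₜ[k] ((C.u ^ n : Rˣ) : R)
        + ((1 : K) ⊗ₜ[k] ((C.u ^ (-1 : ℤ) : Rˣ) : R)) * (C.ell E * z1) + z2) hzero ?_ hadd h
  intro c r hr
  have hgen : ∀ (p : ℕ) (a : Fin pp) (c : K), ∃ z1 ∈ C.VY K n, ∃ z2 ∈ C.VY K (n - 1),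
      c ⊗ₜ[k] C.bas (n - ((a : ℕ) : ℤ) - (p : ℤ), a)
        = (C.vlead E n (c ⊗ₜ[k] C.bas (n - ((a : ℕ) : ℤ) - (p : ℤ), a)))
          ⊗ₜ[k] ((C.u ^ n : Rˣ) : R)
        + ((1 : K) ⊗ₜ[k] ((C.u ^ (-1 : ℤ) : Rˣ) : R)) * (C.ell E * z1) + z2 := by
    intro p a c
    rcases Nat.eq_zero_or_pos p with hp | hp
    · subst hp
      rw [vlead_tmul, lead_bas, Nat.cast_zero, sub_zero, if_pos (by ring), C.bas_eq]
      have key : ∀ (d : K) (j : ℤ) (i : ℕ),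
          ((1 : K) ⊗ₜ[k] ((C.u ^ (-1 : ℤ) : Rˣ) : R)) *
            (C.ell E * (d ⊗ₜ[k] (((C.u ^ j : Rˣ) : R) * C.w ^ i)))
          = d ⊗ₜ[k] (((C.u ^ (j - 1) : Rˣ) : R) * C.w ^ (i + 1))
            - (d * E.α) ⊗ₜ[k] (((C.u ^ j : Rˣ) : R) * C.w ^ i) := by
        intro d j i
        unfold ell
        rw [sub_mul, mul_sub, Algebra.TensorProduct.tmul_mul_tmul,
          Algebra.TensorProduct.tmul_mul_tmul, Algebra.TensorProduct.tmul_mul_tmul,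
          Algebra.TensorProduct.tmul_mul_tmul, one_mul, one_mul, one_mul, mul_comm E.α d]
        congr 2
        · have e : ((C.u ^ (j - 1) : Rˣ) : R) = ((C.u ^ (-1 : ℤ) : Rˣ) : R) * ((C.u ^ j : Rˣ) : R) := by
            rw [← Units.val_mul, ← zpow_add]
            congr 2
            ring
          rw [e, pow_succ]
          ring
        · have e : ((C.u ^ (-1 : ℤ) : Rˣ) : R) * (C.u : R) = 1 := by
            rw [← Units.val_mul, ← zpow_add_one]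
            norm_num
          rw [← mul_assoc, e, one_mul]
      have step : ∀ (i : ℕ) (c : K), ∃ z1 ∈ C.VY K n,
          c ⊗ₜ[k] (((C.u ^ (n - (i : ℤ)) : Rˣ) : R) * C.w ^ i)
            = (c * E.α ^ i) ⊗ₜ[k] ((C.u ^ n : Rˣ) : R)
              + ((1 : K) ⊗ₜ[k] ((C.u ^ (-1 : ℤ) : Rˣ) : R)) * (C.ell E * z1) := by
        intro i
        induction i with
        | zero =>
          intro c
          refine ⟨0, zero_mem _, ?_⟩
          simp
        | succ i ih =>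
          intro c
          obtain ⟨z1, hz1, h1⟩ := ih (c * E.α)
          refine ⟨c ⊗ₜ[k] (((C.u ^ (n - (i : ℤ)) : Rˣ) : R) * C.w ^ i) + z1, add_mem ?_ hz1, ?_⟩
          · refine C.tmul_mem_VY c ?_
            have h2 := C.mul_mem_Y (C.upow_mem_Y (le_refl (n - (i : ℤ))))
              (C.wpow_mem_Y i (le_refl (i : ℤ)))
            rwa [sub_add_cancel] at h2
          · rw [mul_add, mul_add, key, h1]
            have e1 : n - (i : ℤ) - 1 = n - ((i + 1 : ℕ) : ℤ) := by push_cast; ring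
            have e2 : c * E.α * E.α ^ i = c * E.α ^ (i + 1) := by rw [pow_succ']; ring
            rw [e1, e2]
            abel
      obtain ⟨z1, hz1, h1⟩ := step (a : ℕ) c
      exact ⟨z1, hz1, 0, zero_mem _, by rw [add_zero]; exact h1⟩
    · refine ⟨0, zero_mem _, c ⊗ₜ[k] C.bas (n - ((a : ℕ) : ℤ) - (p : ℤ), a), ?_, ?_⟩
      · exact C.tmul_mem_VY c (C.bas_mem_Y _ _ a (by omega))
      · rw [vlead_tmul, lead_bas, if_neg (by omega), mul_zero, TensorProduct.zero_tmul, mul_zero,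
          mul_zero, zero_add, zero_add]
  unfold Y at hr
  induction hr using Submodule.span_induction generalizing c with
  | mem x hx =>
    obtain ⟨p, rfl⟩ := hx
    exact hgen p.1 p.2 c
  | zero =>
    rw [TensorProduct.tmul_zero]
    exact hzero
  | add x y hx hy ihx ihy =>
    rw [TensorProduct.tmul_add]
    exact hadd _ _ (ihx c) (ihy c)
  | smul b x hx ih =>
    rw [← TensorProduct.smul_tmul]
    exact ih (b • c)

/-- the kernel of the value at `P` is generated by `v = u^(-1)` and `w/u - α`; `v * eps` is a multiple of `w/u - α` -/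
theorem mul_eps_mem (C : PRing pp k t R) (E : PRoot pp k t K) (ht : t ≠ 0)
    {n : ℤ} {z : K ⊗[k] R} (h : z ∈ C.VY K n) (h0 : C.vlead E n z = 0) :
    ∃ y ∈ C.VY K (n - 1), z * C.eps E = C.ell E * y := by
  obtain ⟨z1, hz1, z2, hz2, hz⟩ := C.decomp E n h
  rw [h0, TensorProduct.zero_tmul, zero_add] at hz
  obtain ⟨q, hq, hv⟩ := C.v_eps E ht
  have hu : (1 : K) ⊗ₜ[k] (C.u : R) ∈ C.VY K 1 := by
    have := C.upow_mem_Y (le_refl (1 : ℤ))
    rw [zpow_one] at this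
    exact C.tmul_mem_VY _ this
  have huv : ((1 : K) ⊗ₜ[k] (C.u : R)) * ((1 : K) ⊗ₜ[k] ((C.u ^ (-1 : ℤ) : Rˣ) : R)) = 1 := by
    rw [Algebra.TensorProduct.tmul_mul_tmul, one_mul, ← Units.val_mul, zpow_neg_one,
      mul_inv_cancel, Units.val_one]
    rfl
  refine ⟨((1 : K) ⊗ₜ[k] ((C.u ^ (-1 : ℤ) : Rˣ) : R)) * z1 * C.eps E
    + ((1 : K) ⊗ₜ[k] (C.u : R)) * z2 * q, add_mem ?_ ?_, ?_⟩
  · have h1 := C.VY_mul (C.VY_mul (C.tmul_mem_VY (1 : K) (C.upow_mem_Y (le_refl (-1 : ℤ)))) hz1)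
      (C.eps_mem_VY E)
    have e : (-1 : ℤ) + n + 0 = n - 1 := by ring
    rwa [e] at h1
  · have h1 := C.VY_mul (C.VY_mul hu hz2) hq
    have e : (1 : ℤ) + (n - 1) + -1 = n - 1 := by ring
    rwa [e] at h1
  · have h2 : z2 * C.eps E = C.ell E * (((1 : K) ⊗ₜ[k] (C.u : R)) * z2 * q) := by
      calc z2 * C.eps E = (((1 : K) ⊗ₜ[k] (C.u : R)) *
            ((1 : K) ⊗ₜ[k] ((C.u ^ (-1 : ℤ) : Rˣ) : R))) * (z2 * C.eps E) := by
              rw [huv, one_mul]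
        _ = ((1 : K) ⊗ₜ[k] (C.u : R)) * z2 *
            (((1 : K) ⊗ₜ[k] ((C.u ^ (-1 : ℤ) : Rˣ) : R)) * C.eps E) := by ring
        _ = _ := by rw [hv]; ring
    rw [hz, add_mul, h2]
    ring

end PRing
end H36.PX
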