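import Pool.Agent.H36.PX.QsB
import Pool.Agent.H36.PX.ChiD

/-!
# QsG : the action of `k[x, y, z]` on `Qs` and its grading
-/

set_option autoImplicit false

open NC

namespace H36.PX

open H36.NX

variable {p : ℕ} {k : Type} [Field k] {t : k} {R : Type} [CommRing R] [Algebra k R]

/-- `Qs = ⊕ Q n` -/
noncomputable def qsGr (C : PRing p k t R) : GrB (Qs C) (fun n : ℕ => Qb C n) where
  i n := qsIn C n
  p n := qsOut C n
  pi n v := qsOut_qsIn C n v
  pi' _m _n v h := qsOut_qsIn_ne C h v
  sum v := qs_sum C v

/-- the action of the Rees algebra -/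
noncomputable def bhOp (C : PRing p k t R) : BOp (Bh C) (Qs C) where
  op :=
    { toFun := fun p => bhMul C p
      map_one' := LinearMap.ext fun f => bhMul_one C f
      map_mul' := fun p q => LinearMap.ext fun f => bhMul_mul C p q f
      map_zero' := LinearMap.ext fun f => by
        have h := bhMul_algebraMap C 0 f
        rw [map_zero, zero_smul] at h
        exact h
      map_add' := fun p q => LinearMap.ext fun f => bhMul_add C p q f
      commutes' := fun c => LinearMap.ext fun f => bhMul_algebraMap C c f }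
  D p v := (bhH C p).D v
  P p v := (bhH C p).P v
  l p a v := (bhH C p).isHom.l a v
  r p v a := (bhH C p).isHom.r v a

/-- restriction of an action along an algebra map -/
def bopComap {A : DGA k} {Q : BMod A A} {S S' : Type} [CommRing S] [Algebra k S] [CommRing S']
    [Algebra k S'] (o : BOp S' Q) (f : S →ₐ[k] S') : BOp S Q where
  op := o.op.comp f
  D s v := o.D (f s) v
  P s v := o.P (f s) v
  l s a v := o.l (f s) a v
  r s v a := o.r (f s) v a

/-- the action of the polynomial ring -/
noncomputable def qsOp (C : PRing p k t R) : BOp (MvPolynomial (Fin 3) k) (Qs C) :=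
  bopComap (bhOp C) (MvPolynomial.aeval (bx C))

theorem qsOp_X (C : PRing p k t R) (i : Fin 3) (v : (Qs C).N.V) :
    (qsOp C).op (MvPolynomial.X i) v = bhMul C (bx C i) v := by
  change bhMul C (MvPolynomial.aeval (bx C) (MvPolynomial.X i)) v = _
  rw [MvPolynomial.aeval_X]

theorem bx_mono (C : PRing p k t R) (i : Fin 3) :
    ∃ r : R, ((bx C i : Bh C) : Polynomial R) = Polynomial.monomial 1 r := by
  fin_cases i
  · exact ⟨1, rfl⟩
  · exact ⟨(C.u : R), rfl⟩
  · exact ⟨C.w, rfl⟩

theorem qsOp_deg (C : PRing p k t R) (i : Fin 3) (n : ℕ) (v : (Qb C n).N.V) :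
    (qsOp C).op (MvPolynomial.X i) ((qsIn C n).f v)
      = (qsIn C (n + 1)).f ((qsOut C (n + 1)).f
        ((qsOp C).op (MvPolynomial.X i) ((qsIn C n).f v))) := by
  rw [qsOp_X]
  obtain ⟨r, hr⟩ := bx_mono C i
  exact bhMul_qsIn C (bx C i) 1 r hr n v

theorem qsOp_cub (C : PRing p k t R) (v : (Qs C).N.V) : (qsOp C).op (crv p t) v = 0 := by
  change bhMul C (MvPolynomial.aeval (bx C) (crv p t)) v = 0
  have h : MvPolynomial.aeval (bx C) (crv p t) = 0 := by
    rw [crv]
    simp only [map_sub, map_mul, map_pow, MvPolynomial.aeval_X, MvPolynomial.algHom_C]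
    simpa only [map_pow] using bx_rel C
  rw [h]
  have h' := bhMul_algebraMap C 0 v
  rw [map_zero, zero_smul] at h'
  exact h'

end H36.PX
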